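import Pool.Agent.H614R2.DPO.Core

/-!
# Task G1: the pebble game is complete and sound
-/

namespace Pool.Agent.H614R2.DPO

open Relation

section G1

variable {X : Type} {I : Inst X} {F : List (ℕ × X × X)} {N : ℕ} {T : Fin N → Track X}

theorem g1_ori_self (b : Bool) (x : X) : ori b (x, x) = (x, x) := by
  unfold ori; split <;> rfl

theorem g1_mv_lt {t : Track X} {x y : X} (h : I.mv t x y = true) :
    I.f t.clk x < I.f t.clk y := by
  unfold Inst.mv at h
  rw [Bool.and_eq_true] at h
  exact of_decide_eq_true h.2

/-- The elements of a path: nodes or arcs, above the first node. -/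
theorem g1_pth_mem {t : Track X} {x z : X} {E : List (X × X)}
    (h : Pth (fun x y => I.mv t x y = true) x z E) :
    I.f t.clk x ≤ I.f t.clk z ∧ ∀ e ∈ E, I.f t.clk x ≤ I.f t.clk e.1 ∧
      I.f t.clk x ≤ I.f t.clk e.2 := by
  induction h with
  | single x =>
    refine ⟨le_refl _, ?_⟩
    intro e he
    rw [List.mem_singleton] at he
    subst he
    exact ⟨le_refl _, le_refl _⟩
  | cons hxy hp ih =>
    have h1 := g1_mv_lt hxy
    refine ⟨le_trans h1.le ih.1, ?_⟩
    intro e he
    rcases List.mem_cons.1 he with rfl | he
    · exact ⟨le_refl _, le_refl _⟩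
    rcases List.mem_cons.1 he with rfl | he
    · exact ⟨le_refl _, h1.le⟩
    · exact ⟨le_trans h1.le (ih.2 e he).1, le_trans h1.le (ih.2 e he).2⟩

theorem g1_pth_loop {t : Track X} {x z : X} {E : List (X × X)}
    (h : Pth (fun x y => I.mv t x y = true) x z E) (hxz : x = z) : E = [(x, x)] := by
  cases h with
  | single x => rfl
  | cons hxy hp =>
    exfalso
    have h1 := g1_mv_lt hxy
    have h2 := (g1_pth_mem hp).1
    rw [← hxz] at h2
    omega

theorem g1_pth_last {R : X → X → Prop} {x z : X} {E : List (X × X)} (h : Pth R x z E) :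
    (z, z) ∈ E := by
  induction h with
  | single x => exact List.mem_singleton.2 rfl
  | cons hxy hp ih => exact List.mem_cons_of_mem _ (List.mem_cons_of_mem _ ih)

theorem g1_pth_first {R : X → X → Prop} {x z : X} {E : List (X × X)} (h : Pth R x z E) :
    (x, x) ∈ E := by
  cases h with
  | single x => exact List.mem_singleton.2 rfl
  | cons hxy hp => exact List.mem_cons_self

/-- A conflict gives equal clock values, up to a swap. -/
theorem g1_conf (hI : I.Ok) {b b' : Bool} {e e' : X × X} {l : ℕ} (hl : l < I.k)
    (h : I.C (ori b e) (ori b' e') = true) :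
    (I.f l e.1 = I.f l e'.1 ∧ I.f l e.2 = I.f l e'.2) ∨
      (I.f l e.1 = I.f l e'.2 ∧ I.f l e.2 = I.f l e'.1) := by
  have h1 := hI.conf _ _ l hl h
  cases b <;> cases b' <;> simp only [ori, if_true, if_false, Bool.false_eq_true] at h1 <;> tauto

theorem g1_fixed_node (hI : I.Ok) (hF : ∀ g ∈ F, g.1 < I.k ∧ I.A g.1 g.2.1 g.2.2 = true)
    (x : X) (g : ℕ × X × X) (hg : g ∈ F) : I.C g.2 (x, x) = false := by
  by_contra hne
  rw [Bool.not_eq_false] at hne
  have h1 := hI.conf _ _ g.1 (hF g hg).1 hne
  have h2 := hI.inc _ _ _ (hF g hg).1 (hF g hg).2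
  simp only at h1
  omega

theorem g1_newold (hI : I.Ok) (hT : ∀ p, (T p).col < I.k ∧ (T p).clk < I.k)
    {S S' : Fin N → X} (hst : Step I F T S S') {p q : Fin N} (hpq : rel (T p) (T q))
    (hp : Moves I T S p) {E : List (X × X)}
    (hE : Pth (fun x y => I.mv (T q) x y = true) (S' q) (T q).tgt E)
    {e e' : X × X} (he : e = (S p, S p) ∨ e = (S p, S' p)) (he' : e' ∈ E) :
    I.C (ori (T p).dir e) (ori (T q).dir e') = false := by
  by_contra hne
  rw [Bool.not_eq_false] at hne
  obtain ⟨hval, hmov, hnm, harc⟩ := hst
  have hl : (T p).clk < I.k := (hT p).2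
  have hc := g1_conf hI hl hne
  have hclk : (T p).clk = (T q).clk := hpq.2
  have hm := (g1_pth_mem hE).2 e' he'
  rw [← hclk] at hm
  have he1 : e.1 = S p := by rcases he with rfl | rfl <;> rfl
  rw [he1] at hc
  have hge : I.f (T p).clk (S' q) ≤ I.f (T p).clk (S p) := by
    rcases hc with hc | hc
    · rw [hc.1]; exact hm.1
    · rw [hc.1]; exact hm.2
  by_cases hq : Moves I T S q
  · have h1 := hp.2 q hq.1
    have h2 := hq.2 p hp.1
    have h3 := g1_mv_lt (hmov q hq).1
    rw [← hclk] at h1 h2 h3
    omega
  · have hS : S' q = S q := hnm q hq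
    by_cases hend : S q = (T q).tgt
    · have hEs : E = [(S' q, S' q)] := g1_pth_loop hE (by rw [hS, hend])
      rw [hEs, List.mem_singleton] at he'
      subst he'
      rw [hS] at hne hc
      rcases he with rfl | rfl
      · rw [g1_ori_self, g1_ori_self] at hne
        have := hval p q hpq
        rw [this] at hne
        exact Bool.false_ne_true hne
      · have h3 := g1_mv_lt (hmov p hp).1
        simp only at hc
        rcases hc with hc | hc <;> omega
    · unfold Moves at hq
      push Not at hq
      obtain ⟨r, hr, hr2⟩ := hq hend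
      have h4 := hp.2 r hr
      rw [hS] at hge
      rw [← hclk] at hr2
      omega

theorem g1_step (hI : I.Ok) (hF : ∀ g ∈ F, g.1 < I.k ∧ I.A g.1 g.2.1 g.2.2 = true)
    (hT : ∀ p, (T p).col < I.k ∧ (T p).clk < I.k) {S S' : Fin N → X}
    (hst : Step I F T S S') (hg : Good I F T S') : Good I F T S := by
  classical
  obtain ⟨E', hE1, hE2, hE3⟩ := hg
  have hst0 := hst
  obtain ⟨hval, hmov, hnm, harc⟩ := hst
  have hmem : ∀ p e, e ∈ (if Moves I T S p then (S p, S p) :: (S p, S' p) :: E' p else E' p) →
      (Moves I T S p ∧ (e = (S p, S p) ∨ e = (S p, S' p))) ∨ e ∈ E' p := by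
    intro p e he
    by_cases hp : Moves I T S p
    · rw [if_pos hp] at he
      rcases List.mem_cons.1 he with h | he
      · exact Or.inl ⟨hp, Or.inl h⟩
      rcases List.mem_cons.1 he with h | he
      · exact Or.inl ⟨hp, Or.inr h⟩
      · exact Or.inr he
    · rw [if_neg hp] at he
      exact Or.inr he
  refine ⟨fun p => if Moves I T S p then (S p, S p) :: (S p, S' p) :: E' p else E' p,
    ?_, ?_, ?_⟩
  · intro p
    by_cases hp : Moves I T S p
    · simp only [if_pos hp]
      exact Pth.cons (hmov p hp).1 (hE1 p)
    · simp only [if_neg hp]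
      have := hE1 p
      rw [hnm p hp] at this
      exact this
  · intro p q hpq e he e' he'
    have hqp : rel (T q) (T p) := ⟨fun h => hpq.1 h.symm, hpq.2.symm⟩
    rcases hmem p e he with ⟨hp, hen⟩ | heo
    · rcases hmem q e' he' with ⟨hq, hen'⟩ | heo'
      · -- both new
        have hl : (T p).clk < I.k := (hT p).2
        have hclk : (T p).clk = (T q).clk := hpq.2
        have hmp := g1_mv_lt (hmov p hp).1
        have hmq := g1_mv_lt (hmov q hq).1
        rw [← hclk] at hmq
        rcases hen with rfl | rfl <;> rcases hen' with rfl | rfl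
        · rw [g1_ori_self, g1_ori_self]
          exact hval p q hpq
        · by_contra hne
          rw [Bool.not_eq_false] at hne
          have hc := g1_conf hI hl hne
          simp only at hc
          rcases hc with hc | hc <;> omega
        · by_contra hne
          rw [Bool.not_eq_false] at hne
          have hc := g1_conf hI hl hne
          simp only at hc
          rcases hc with hc | hc <;> omega
        · exact harc p q hpq hp hq
      · exact g1_newold hI hT hst0 hpq hp (hE1 q) hen heo'
    · rcases hmem q e' he' with ⟨hq, hen'⟩ | heo'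
      · have := g1_newold hI hT hst0 hqp hq (hE1 p) hen' heo
        by_contra hne
        rw [Bool.not_eq_false] at hne
        have h2 := hI.symm _ _ hne
        rw [this] at h2
        exact Bool.false_ne_true h2
      · exact hE2 p q hpq e heo e' heo'
  · intro p e he g hg hgc
    rcases hmem p e he with ⟨hp, hen⟩ | heo
    · rcases hen with rfl | rfl
      · rw [g1_ori_self]
        exact g1_fixed_node hI hF _ g hg
      · exact (hmov p hp).2 g hg hgc
    · exact hE3 p e heo g hg hgc

theorem g1_base (hI : I.Ok) (hF : ∀ g ∈ F, g.1 < I.k ∧ I.A g.1 g.2.1 g.2.2 = true)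
    (hv : Valid I T (fun p => (T p).tgt)) : Good I F T (fun p => (T p).tgt) := by
  refine ⟨fun p => [((T p).tgt, (T p).tgt)], fun p => Pth.single _, ?_, ?_⟩
  · intro p q hpq e he e' he'
    rw [List.mem_singleton] at he he'
    subst he he'
    rw [g1_ori_self, g1_ori_self]
    exact hv p q hpq
  · intro p e he g hg hgc
    rw [List.mem_singleton] at he
    subst he
    rw [g1_ori_self]
    exact g1_fixed_node hI hF _ g hg

theorem g1_run (n : ℕ) : ∀ (S : Fin N → X) (E : Fin N → List (X × X)),
    (∑ p, (E p).length) ≤ n →
    (∀ p, Pth (fun x y => I.mv (T p) x y = true) (S p) (T p).tgt (E p)) →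
    (∀ p q, rel (T p) (T q) → ∀ e ∈ E p, ∀ e' ∈ E q,
      I.C (ori (T p).dir e) (ori (T q).dir e') = false) →
    (∀ p, ∀ e ∈ E p, ∀ g ∈ F, g.1 ≠ (T p).col → I.C g.2 (ori (T p).dir e) = false) →
    ReflTransGen (Step I F T) S (fun p => (T p).tgt) := by
  classical
  induction n with
  | zero =>
    intro S E hn hE1 hE2 hE3
    have : S = fun p => (T p).tgt := by
      funext p
      have h1 : (E p).length ≤ 0 :=
        le_trans (Finset.single_le_sum (f := fun p => (E p).length)
          (fun _ _ => Nat.zero_le _) (Finset.mem_univ p)) hn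
      have h2 := g1_pth_last (hE1 p)
      have h3 := List.length_pos_of_mem h2
      omega
    rw [this]
  | succ n ih =>
    intro S E hn hE1 hE2 hE3
    by_cases hS : S = fun p => (T p).tgt
    · rw [hS]
    · obtain ⟨p0, hp0⟩ : ∃ p, S p ≠ (T p).tgt := by
        by_contra hcon
        push Not at hcon
        exact hS (funext hcon)
      obtain ⟨p1, hp1, hmin⟩ := Finset.exists_min_image
        (Finset.univ.filter (fun q => S q ≠ (T q).tgt))
        (fun q => I.f (T q).clk (S q)) ⟨p0, by simp [hp0]⟩
      have hp1m : Moves I T S p1 := by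
        refine ⟨(Finset.mem_filter.1 hp1).2, ?_⟩
        intro q hq
        exact hmin q (Finset.mem_filter.2 ⟨Finset.mem_univ _, hq⟩)
      have hex : ∀ q, ∃ (y : X) (E'' : List (X × X)),
          (Moves I T S q → I.mv (T q) (S q) y = true ∧
            Pth (fun x y => I.mv (T q) x y = true) y (T q).tgt E'' ∧
            E q = (S q, S q) :: (S q, y) :: E'') ∧
          (¬ Moves I T S q → y = S q ∧ E'' = E q) := by
        intro q
        by_cases hq : Moves I T S q
        · have hne := hq.1
          have hp := hE1 q
          generalize hEq : E q = L at hp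
          generalize hsq : S q = sq at hp
          generalize htq : (T q).tgt = tq at hp
          cases hp with
          | single x =>
            exfalso
            exact hne (by rw [hsq, htq])
          | @cons x y z E'' hxy hp' =>
            refine ⟨y, E'', ?_, fun h => absurd hq h⟩
            intro _
            exact ⟨hxy, hp', rfl⟩
        · exact ⟨S q, E q, fun h => absurd h hq, fun _ => ⟨rfl, rfl⟩⟩
      choose S' E' hmo hno using hex
      have hsub : ∀ q, ∀ e ∈ E' q, e ∈ E q := by
        intro q e he
        by_cases hq : Moves I T S q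
        · rw [(hmo q hq).2.2]
          exact List.mem_cons_of_mem _ (List.mem_cons_of_mem _ he)
        · rw [(hno q hq).2] at he
          exact he
      have hnode : ∀ q, (S q, S q) ∈ E q := fun q => g1_pth_first (hE1 q)
      have hstep : Step I F T S S' := by
        refine ⟨?_, ?_, ?_, ?_⟩
        · intro p q hpq
          have := hE2 p q hpq _ (hnode p) _ (hnode q)
          rw [g1_ori_self, g1_ori_self] at this
          exact this
        · intro p hp
          refine ⟨(hmo p hp).1, ?_⟩
          intro g hg hgc
          exact hE3 p _ (by rw [(hmo p hp).2.2]; simp) g hg hgc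
        · intro p hp
          exact (hno p hp).1
        · intro p q hpq hp hq
          exact hE2 p q hpq _ (by rw [(hmo p hp).2.2]; simp) _ (by rw [(hmo q hq).2.2]; simp)
      refine ReflTransGen.head hstep (ih S' E' ?_ ?_ ?_ ?_)
      · have hlt : (∑ p, (E' p).length) < ∑ p, (E p).length := by
          refine Finset.sum_lt_sum ?_ ⟨p1, Finset.mem_univ _, ?_⟩
          · intro q _
            by_cases hq : Moves I T S q
            · rw [(hmo q hq).2.2, List.length_cons, List.length_cons]
              omega
            · rw [(hno q hq).2]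
          · rw [(hmo p1 hp1m).2.2, List.length_cons, List.length_cons]
            omega
        omega
      · intro p
        by_cases hp : Moves I T S p
        · exact (hmo p hp).2.1
        · have := hE1 p
          rw [← (hno p hp).2] at this
          rw [(hno p hp).1]
          exact this
      · intro p q hpq e he e' he'
        exact hE2 p q hpq e (hsub p e he) e' (hsub q e' he')
      · intro p e he g hg hgc
        exact hE3 p e (hsub p e he) g hg hgc

theorem good_iff (hI : I.Ok) (hF : ∀ g ∈ F, g.1 < I.k ∧ I.A g.1 g.2.1 g.2.2 = true)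
    (hT : ∀ p, (T p).col < I.k ∧ (T p).clk < I.k) (S : Fin N → X) :
    Good I F T S ↔ Valid I T (fun p => (T p).tgt) ∧
      ReflTransGen (Step I F T) S (fun p => (T p).tgt) := by
  constructor
  · rintro ⟨E, hE1, hE2, hE3⟩
    refine ⟨?_, g1_run _ S E le_rfl hE1 hE2 hE3⟩
    intro p q hpq
    have := hE2 p q hpq _ (g1_pth_last (hE1 p)) _ (g1_pth_last (hE1 q))
    rw [g1_ori_self, g1_ori_self] at this
    exact this
  · rintro ⟨hv, hrun⟩
    induction hrun using ReflTransGen.head_induction_on with
    | refl => exact g1_base hI hF hv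
    | head hst _ ih => exact g1_step hI hF hT hst ih

end G1

end Pool.Agent.H614R2.DPO
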