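import Pool.Agent.H614R2.DPO.Tie
import Pool.Agent.H614R2.DPO.TG2

/-!
# Certificates: completeness and soundness
-/

namespace Pool.Agent.H614R2.DPO

open Relation

set_option linter.unusedSectionVars false

variable {X : Type} [DecidableEq X] {I : Inst X}

/-! ### Members of the lists of tracks and fixed arcs -/

theorem mem_tracks {Ct : List (List (X × X × ℕ × Bool))} {t : Track X} :
    t ∈ tracks Ct ↔ ∃ L i, Ct[i]? = some L ∧ ∃ q ∈ L, t = (i, q) := by
  simp only [tracks, List.mem_flatMap, List.mem_map]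
  constructor
  · rintro ⟨⟨L, i⟩, h, q, hq, rfl⟩
    rw [List.mem_zipIdx_iff_getElem?] at h
    exact ⟨L, i, h, q, hq, rfl⟩
  · rintro ⟨L, i, h, q, hq, rfl⟩
    exact ⟨(L, i), List.mem_zipIdx_iff_getElem?.2 h, q, hq, rfl⟩

theorem mem_fixedArcs {Ct : List (List (X × X × ℕ × Bool))} {t : ℕ × X × X} :
    t ∈ fixedArcs Ct ↔ ∃ L i, Ct[i]? = some L ∧ ∃ e ∈ links L, t = (i, e) := by
  simp only [fixedArcs, List.mem_flatMap, List.mem_map]
  constructor
  · rintro ⟨⟨L, i⟩, h, q, hq, rfl⟩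
    rw [List.mem_zipIdx_iff_getElem?] at h
    exact ⟨L, i, h, q, hq, rfl⟩
  · rintro ⟨L, i, h, q, hq, rfl⟩
    exact ⟨(L, i), List.mem_zipIdx_iff_getElem?.2 h, q, hq, rfl⟩

theorem length_tracks (Ct : List (List (X × X × ℕ × Bool))) (B : ℕ)
    (h : ∀ L ∈ Ct, L.length ≤ B) : (tracks Ct).length ≤ Ct.length * B := by
  have key : ∀ (Ct : List (List (X × X × ℕ × Bool))) (m : ℕ), (∀ L ∈ Ct, L.length ≤ B) →
      ((Ct.zipIdx m).flatMap (fun p => p.1.map (fun q => ((p.2, q) : Track X)))).length ≤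
        Ct.length * B := by
    intro Ct
    induction Ct with
    | nil => intro m _; simp
    | cons L Ct ih =>
      intro m h
      have h1 := ih (m + 1) fun L hL => h L (by simp [hL])
      have h2 := h L (by simp)
      rw [List.zipIdx_cons, List.flatMap_cons, List.length_append, List.length_map,
        List.length_cons, Nat.add_mul]
      dsimp only
      omega
  exact key Ct 0 h

theorem mem_cands {q : X × X × ℕ × Bool} :
    q ∈ cands I ↔ q.1 ∈ I.nodes ∧ q.2.1 ∈ I.nodes ∧ q.2.2.1 < I.k := by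
  obtain ⟨x, y, l, b⟩ := q
  simp only [cands, List.mem_flatMap, List.mem_range, List.mem_cons, Prod.mk.injEq,
    List.not_mem_nil, or_false]
  constructor
  · rintro ⟨x', hx, y', hy, l', hl, h | h⟩
    · obtain ⟨rfl, rfl, rfl, _⟩ := h
      exact ⟨hx, hy, hl⟩
    · obtain ⟨rfl, rfl, rfl, _⟩ := h
      exact ⟨hx, hy, hl⟩
  · rintro ⟨hx, hy, hl⟩
    refine ⟨x, hx, y, hy, l, hl, ?_⟩
    cases b <;> simp

theorem mem_sem {t : Track X} {e : X × X} : e ∈ sem I t ↔
    e.1 ∈ I.nodes ∧ e.2 ∈ I.nodes ∧ t.fst ∈ I.nodes ∧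
    ReflTransGen (fun a b => I.A t.col a b = true ∧ b ∈ I.nodes) t.fst e.1 ∧
    (e.1 = e.2 ∨ I.A t.col e.1 e.2 = true) ∧
    ReflTransGen (fun a b => I.A t.col a b = true ∧ b ∈ I.nodes) e.2 t.lst := by
  obtain ⟨x, y⟩ := e
  simp only [sem, List.mem_flatMap, List.mem_map, List.mem_filter, Bool.and_eq_true,
    decide_eq_true_eq, Bool.or_eq_true, mem_reachG, Prod.mk.injEq]
  constructor
  · rintro ⟨x', hx, y', ⟨hy, ⟨h1, h2⟩, h3, h4, h5⟩, rfl, rfl⟩
    exact ⟨hx, hy, h1, h2, h3, h5⟩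
  · rintro ⟨hx, hy, h1, h2, h3, h5⟩
    exact ⟨x, hx, y, ⟨hy, ⟨h1, h2⟩, h3, hy, h5⟩, rfl, rfl⟩

theorem node_mem (hI : I.Ok) {i : ℕ} {x a : X} (hx : x ∈ I.nodes)
    (h : ReflTransGen (fun a b => I.A i a b = true) x a) : a ∈ I.nodes := by
  induction h with
  | refl => exact hx
  | tail _ h _ => exact (hI.mem _ _ _ h).2

theorem rtg_nodes (hI : I.Ok) {i : ℕ} {x a : X}
    (h : ReflTransGen (fun a b => I.A i a b = true) x a) :
    ReflTransGen (fun a b => I.A i a b = true ∧ b ∈ I.nodes) x a := by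
  induction h with
  | refl => exact ReflTransGen.refl
  | tail _ h ih => exact ih.tail ⟨h, (hI.mem _ _ _ h).2⟩

theorem rtg_of_nodes {i : ℕ} {x a : X}
    (h : ReflTransGen (fun a b => I.A i a b = true ∧ b ∈ I.nodes) x a) :
    ReflTransGen (fun a b => I.A i a b = true) x a := by
  induction h with
  | refl => exact ReflTransGen.refl
  | tail _ h ih => exact ih.tail h.1

/-- What the test of a certificate says. -/
theorem chk_iff (hI : I.Ok) {B : ℕ} {Ct : List (List (X × X × ℕ × Bool))}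
    (hB : (tracks Ct).length ≤ B) (hcand : ∀ L ∈ Ct, ∀ q ∈ L, q ∈ cands I) :
    chk I B Ct = true ↔ Ct.length = I.k ∧ (∀ L i, Ct[i]? = some L → colOk I i L = true) ∧
      (∀ g ∈ fixedArcs Ct, ∀ g' ∈ fixedArcs Ct, g.1 ≠ g'.1 → I.C g.2 g'.2 = false) ∧
      (∀ t ∈ tracks Ct, ∀ t' ∈ tracks Ct, t.col ≠ t'.col → t.clk ≠ t'.clk →
        ∀ e ∈ sem I t, ∀ e' ∈ sem I t', I.C e e' = false) ∧
      Good I (fixedArcs Ct) (tracks Ct).get (fun p => ((tracks Ct).get p).src) := by
  have h1 : Ct.zipIdx.all (fun p => colOk I p.2 p.1) = true ↔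
      ∀ L i, Ct[i]? = some L → colOk I i L = true := by
    rw [List.all_eq_true]
    constructor
    · intro h L i hL
      exact h (L, i) (List.mem_zipIdx_iff_getElem?.2 hL)
    · rintro h ⟨L, i⟩ hL
      exact h L i (List.mem_zipIdx_iff_getElem?.1 hL)
  have h2 : fixOk I (fixedArcs Ct) = true ↔
      ∀ g ∈ fixedArcs Ct, ∀ g' ∈ fixedArcs Ct, g.1 ≠ g'.1 → I.C g.2 g'.2 = false := by
    simp only [fixOk, List.all_eq_true, Bool.or_eq_true, decide_eq_true_eq,
      Bool.not_eq_eq_eq_not, Bool.not_true]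
    exact forall₄_congr fun g _ g' _ => by tauto
  have h3 : linkFree I (tracks Ct) = true ↔
      ∀ t ∈ tracks Ct, ∀ t' ∈ tracks Ct, t.col ≠ t'.col → t.clk ≠ t'.clk →
        ∀ e ∈ sem I t, ∀ e' ∈ sem I t', I.C e e' = false := by
    simp only [linkFree, List.all_eq_true, Bool.or_eq_true, decide_eq_true_eq,
      Bool.not_eq_eq_eq_not, Bool.not_true]
    exact forall₄_congr fun g _ g' _ => by tauto
  unfold chk
  rw [Bool.and_eq_true, Bool.and_eq_true, Bool.and_eq_true, Bool.and_eq_true,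
    decide_eq_true_eq, h1, h2, h3]
  refine and_congr_right fun hlen => and_congr_right fun hcol => and_congr_right fun _ =>
    and_congr_right fun _ => ?_
  refine gameB_iff hI ?_ ?_ hB
  · intro g hg
    obtain ⟨L, i, hL, e, he, rfl⟩ := mem_fixedArcs.1 hg
    have h4 := hcol L i hL
    simp only [colOk, Bool.and_eq_true, List.all_eq_true] at h4
    refine ⟨?_, h4.2.2 e he⟩
    rw [← hlen]
    exact (List.getElem?_eq_some_iff.1 hL).1
  · intro t ht
    obtain ⟨L, i, hL, q, hq, rfl⟩ := mem_tracks.1 ht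
    have h5 := mem_cands.1 (hcand L (List.mem_of_getElem? hL) q hq)
    refine ⟨?_, h5.2.2, h5.1, h5.2.1⟩
    rw [← hlen]
    exact (List.getElem?_eq_some_iff.1 hL).1

/-! ### Soundness -/

theorem ori_ori (b : Bool) (e : X × X) : ori b (ori b e) = e := by
  cases b <;> rfl

theorem pth_mv_fwd {t : Track X} {x z : X} {E : List (X × X)}
    (h : Pth (fun x y => I.mv t x y = true) x z E) :
    ∃ E', Pth (fun x y => I.A t.col x y = true) (if t.dir = true then x else z)
      (if t.dir = true then z else x) E' ∧ ∀ e ∈ E', ori t.dir e ∈ E := by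
  by_cases hd : t.dir = true
  · rw [if_pos hd, if_pos hd, hd]
    refine ⟨E, h.mono ?_, fun e he => he⟩
    intro a b _ hab
    simp only [Inst.mv, hd, if_true, Bool.and_eq_true] at hab
    exact hab.1
  · rw [if_neg hd, if_neg hd]
    have hd' : t.dir = false := by simpa using hd
    rw [hd']
    refine ⟨_, (h.reverse).mono ?_, ?_⟩
    · intro a b _ hab
      simp only [Inst.mv, hd', Bool.false_eq_true, if_false, Bool.and_eq_true] at hab
      exact hab.1
    · intro e he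
      rw [List.mem_reverse, List.mem_map] at he
      obtain ⟨e', he', rfl⟩ := he
      exact he'

theorem solvable_of_chk (hI : I.Ok) {B : ℕ} {Ct : List (List (X × X × ℕ × Bool))}
    (hB : (tracks Ct).length ≤ B) (hcand : ∀ L ∈ Ct, ∀ q ∈ L, q ∈ cands I)
    (h : chk I B Ct = true) : I.Solvable := by
  obtain ⟨hlen, hcol, hfix, hlink, E, hE1, hE2, hE3⟩ := (chk_iff hI hB hcand).1 h
  -- a path for each track
  have h1 : ∀ t ∈ tracks Ct, ∃ p, (tracks Ct).get p = t := fun t ht => List.mem_iff_get.1 ht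
  have h2 : ∀ t : Track X, ∃ E' : List (X × X), t ∈ tracks Ct →
      Pth (fun x y => I.A t.col x y = true) t.fst t.lst E' ∧
        ∃ p, (tracks Ct).get p = t ∧ ∀ e ∈ E', ori t.dir e ∈ E p := by
    intro t
    by_cases ht : t ∈ tracks Ct
    · obtain ⟨p, hp⟩ := h1 t ht
      have h3 : Pth (fun x y => I.mv ((tracks Ct).get p) x y = true) ((tracks Ct).get p).src
        ((tracks Ct).get p).tgt (E p) := hE1 p
      rw [hp] at h3
      obtain ⟨E', h4, h5⟩ := pth_mv_fwd h3
      refine ⟨E', fun _ => ⟨?_, p, hp, h5⟩⟩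
      by_cases hd : t.dir = true
      · simpa [Track.src, Track.tgt, hd] using h4
      · simpa [Track.src, Track.tgt, hd] using h4
    · exact ⟨[], fun h => absurd h ht⟩
  choose φ hφ using h2
  -- the paths of the colours
  have h3 : ∀ i, ∃ Ei : List (X × X), i < I.k → (∃ x z, I.S i x = true ∧ I.T i z = true ∧
      Pth (fun a b => I.A i a b = true) x z Ei) ∧ ∀ e ∈ Ei, (i, e) ∈ fixedArcs Ct ∨
        ∃ q, (i, q) ∈ tracks Ct ∧ e ∈ φ (i, q) := by
    intro i
    by_cases hi : i < I.k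
    · have hi' : i < Ct.length := by omega
      obtain ⟨L, hL⟩ : ∃ L, Ct[i]? = some L := ⟨Ct[i], List.getElem?_eq_getElem hi'⟩
      have h4 := hcol L i hL
      simp only [colOk, Bool.and_eq_true, List.all_eq_true] at h4
      obtain ⟨h5, h6, h7⟩ := h4
      rw [Option.any_eq_true] at h5 h6
      obtain ⟨⟨x, v, q⟩, h5, h5'⟩ := h5
      obtain ⟨⟨u, z, q'⟩, h6, h6'⟩ := h6
      rw [List.head?_reverse] at h6
      obtain ⟨Ei, h8, h9⟩ := glue (R := fun a b => I.A i a b = true) (fun q => φ (i, q)) L x z v u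
        q q' h5 h6 h7 (fun q hq => (hφ (i, q) (mem_tracks.2 ⟨L, i, hL, q, hq, rfl⟩)).1)
      refine ⟨Ei, fun _ => ⟨⟨x, z, h5', h6', h8⟩, ?_⟩⟩
      intro e he
      rcases h9 e he with h10 | ⟨q, hq, h10⟩
      · exact Or.inl (mem_fixedArcs.2 ⟨L, i, hL, e, h10, rfl⟩)
      · exact Or.inr ⟨q, mem_tracks.2 ⟨L, i, hL, q, hq, rfl⟩, h10⟩
    · exact ⟨[], fun h => absurd h hi⟩
  choose E' hE' using h3
  have hsem : ∀ t ∈ tracks Ct, ∀ e ∈ φ t, e ∈ sem I t := by
    intro t ht e he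
    obtain ⟨L, i, hL, q, hq, rfl⟩ := mem_tracks.1 ht
    have h4 := (hφ _ ht).1
    obtain ⟨h5, h6, h7, _, _⟩ := h4.elem he
    have h8 := mem_cands.1 (hcand L (List.mem_of_getElem? hL) q hq)
    have h9 : e.1 ∈ I.nodes := node_mem hI h8.1 h5
    have h10 : e.2 ∈ I.nodes := by
      rcases h6 with h6 | h6
      · rw [← h6]; exact h9
      · exact (hI.mem _ _ _ h6).2
    exact mem_sem.2 ⟨h9, h10, h8.1, rtg_nodes hI h5, h6, rtg_nodes hI h7⟩
  have hpf : ∀ i j : ℕ, i ≠ j → ∀ e, (i, e) ∈ fixedArcs Ct → ∀ q, (j, q) ∈ tracks Ct →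
      ∀ e' ∈ φ (j, q), I.C e e' = false := by
    intro i j hij e he q hq e' he'
    obtain ⟨p, hp, h4⟩ := (hφ _ hq).2
    have h5 := hE3 p _ (h4 e' he') (i, e) he (by rw [hp]; exact hij)
    rw [hp, ori_ori] at h5
    exact h5
  refine ⟨E', fun i hi => (hE' i hi).1, ?_⟩
  intro i hi j hj hij e he e' he'
  by_contra hC
  have hC : I.C e e' = true := by simpa using hC
  rcases (hE' i hi).2 e he with h4 | ⟨q, hq, h4⟩
  · rcases (hE' j hj).2 e' he' with h5 | ⟨q', hq', h5⟩
    · rw [hfix _ h4 _ h5 hij] at hC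
      exact absurd hC (by simp)
    · rw [hpf i j hij e h4 q' hq' e' h5] at hC
      exact absurd hC (by simp)
  · rcases (hE' j hj).2 e' he' with h5 | ⟨q', hq', h5⟩
    · have hC' := hI.symm _ _ hC
      rw [hpf j i hij.symm e' h5 q hq e h4] at hC'
      exact absurd hC' (by simp)
    · by_cases hclk : Track.clk (i, q) = Track.clk (j, q')
      · obtain ⟨p, hp, h6⟩ := (hφ _ hq).2
        obtain ⟨p', hp', h7⟩ := (hφ _ hq').2
        have h8 := hE2 p p' (by rw [hp, hp']; exact ⟨hij, hclk⟩) _ (h6 e h4) _ (h7 e' h5)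
        rw [hp, hp', ori_ori, ori_ori] at h8
        rw [h8] at hC
        exact absurd hC (by simp)
      · rw [hlink _ hq _ hq' hij hclk e (hsem _ hq e h4) e' (hsem _ hq' e' h5)] at hC
        exact absurd hC (by simp)

end Pool.Agent.H614R2.DPO
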