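import Pool.Agent.H614R2.DPO.Cert

/-!
# Completeness: a solution has a certificate
-/

namespace Pool.Agent.H614R2.DPO

open Relation

set_option linter.unusedSectionVars false

variable {X : Type} [DecidableEq X] {I : Inst X}

theorem reach_of_elem {i : ℕ} {x x' : X} (h : x = x' ∨ I.A i x x' = true) :
    ReflTransGen (fun a b => I.A i a b = true) x x' := by
  rcases h with rfl | h
  · exact ReflTransGen.refl
  · exact ReflTransGen.single h

theorem psi_single (c g : ℕ → ℕ → ℤ) (i j : ℕ) (x : X) :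
    psi I c g i [(j, true)] x = I.f i x + I.f j x - c i j := by
  simp only [psi, evw, evs, List.foldl_cons, List.foldl_nil, if_true]
  ring

/-- Pieces of paths of different colours with conflicting elements have the same clock. -/
theorem linked_clock (hI : I.Ok) {c g : ℕ → ℕ → ℤ} (hc : ∀ a b, c a b = c b a)
    (hg : ∀ a b, g a b = - g b a) {i j : ℕ} (hi : i < I.k) (hj : j < I.k)
    {u v x x' u' v' y y' : X}
    (h1 : ReflTransGen (fun x y => I.A i x y = true) u x) (h2 : x = x' ∨ I.A i x x' = true)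
    (h3 : ReflTransGen (fun x y => I.A i x y = true) x' v)
    (h4 : ReflTransGen (fun x y => I.A j x y = true) u' y) (h5 : y = y' ∨ I.A j y y' = true)
    (h6 : ReflTransGen (fun x y => I.A j x y = true) y' v')
    (hC : I.C (x, x') (y, y') = true) (hr : rho I c g i u = rho I c g i v)
    (hr' : rho I c g j u' = rho I c g j v')
    (hpair : rk ((I.f i u : ℤ) + I.f j u - c i j) = rk ((I.f i v : ℤ) + I.f j v - c i j) →
      rk ((I.f i u' : ℤ) + I.f j u' - c i j) = rk ((I.f i v' : ℤ) + I.f j v' - c i j) →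
      ((I.f i x : ℤ) + I.f j x = c i j ∧ (I.f i x' : ℤ) + I.f j x' = c i j) ∨
        ((I.f i x : ℤ) - I.f j x = g i j ∧ (I.f i x' : ℤ) - I.f j x' = g i j)) :
    clock I c g u i = clock I c g u' j := by
  have r1 := rho_mono (c := c) (g := g) hI hi h1
  have r2 := rho_mono (c := c) (g := g) hI hi (reach_of_elem h2)
  have r3 := rho_mono (c := c) (g := g) hI hi h3
  have r4 := rho_mono (c := c) (g := g) hI hj h4
  have r5 := rho_mono (c := c) (g := g) hI hj (reach_of_elem h5)
  have r6 := rho_mono (c := c) (g := g) hI hj h6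
  have s1 : Same I c g i u x := same_of_rho hI hi h1 (by omega)
  have s2 : Same I c g i u v := same_of_rho hI hi
    ((h1.trans (reach_of_elem h2)).trans h3) hr
  have s3 : Same I c g j u' y' := same_of_rho hI hj (h4.trans (reach_of_elem h5)) (by omega)
  have s4 : Same I c g j u' v' := same_of_rho hI hj
    ((h4.trans (reach_of_elem h5)).trans h6) hr'
  have w1 : [(j, true)] ∈ wordsK I.k := mem_wordsK.2 ⟨by simp; omega, by simpa using hj⟩
  have w2 : [(i, true)] ∈ wordsK I.k := mem_wordsK.2 ⟨by simp; omega, by simpa using hi⟩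
  have q1 := s2 _ w1
  have q2 := s4 _ w2
  rw [psi_single, psi_single] at q1 q2
  rw [hc j i, add_comm (I.f j u' : ℤ), add_comm (I.f j v' : ℤ)] at q2
  have q3 := hpair q1 q2
  have ht : tie I c g x i j := ⟨hi, hj, q3.imp (fun h => h.1) (fun h => h.1)⟩
  exact clock_eq hc hg hi hj s1 s3 (fun l hl => (hI.conf _ _ l hl hC).1) ht

/-- A piece, read in the direction of its clock. -/
theorem pth_mv_of (hI : I.Ok) {t : Track X} (hcol : t.col < I.k) (hclk : t.clk < I.k)
    {E : List (X × X)} (h : Pth (fun x y => I.A t.col x y = true) t.fst t.lst E) {ε κ : ℤ}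
    (hε : ε = 1 ∨ ε = -1)
    (hf : ∀ a, (a, a) ∈ E → (I.f t.clk a : ℤ) = ε * I.f t.col a + κ)
    (hdir : t.dir = decide (I.f t.clk t.fst ≤ I.f t.clk t.lst)) :
    ∃ E', Pth (fun x y => I.mv t x y = true) t.src t.tgt E' ∧ ∀ e ∈ E', ori t.dir e ∈ E := by
  have key : ∀ a b, (a, b) ∈ E → I.A t.col a b = true →
      if t.dir = true then I.f t.clk a < I.f t.clk b else I.f t.clk b < I.f t.clk a := by
    intro a b hab hA
    obtain ⟨h1, _, h3, h4, h5⟩ := h.elem hab
    have e1 := (rtg_up hI hcol hcol h1).2.2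
    have e2 := (rtg_up hI hcol hcol h3).2.2
    have e3 := hI.inc _ _ _ hcol hA
    have f1 := hf _ h4
    have f2 := hf _ h5
    have f3 := hf _ h.first_mem
    have f4 := hf _ h.last_mem
    dsimp only at f1 f2 e1 e2
    by_cases hd : t.dir = true
    · rw [if_pos hd]
      rw [hd] at hdir
      have hd2 := of_decide_eq_true hdir.symm
      rcases hε with rfl | rfl <;> omega
    · rw [if_neg hd]
      have hd' : t.dir = false := by simpa using hd
      rw [hd'] at hdir
      have hd2 := of_decide_eq_false hdir.symm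
      rcases hε with rfl | rfl <;> omega
  by_cases hd : t.dir = true
  · refine ⟨E, ?_, ?_⟩
    · have h1 : Pth (fun x y => I.A t.col x y = true) t.src t.tgt E := by
        simpa [Track.src, Track.tgt, hd] using h
      refine h1.mono ?_
      intro a b hab hA
      have := key a b hab hA
      rw [if_pos hd] at this
      simp [Inst.mv, hd, hA, this]
    · intro e he
      rw [hd]; exact he
  · have hd' : t.dir = false := by simpa using hd
    refine ⟨(E.map Prod.swap).reverse, ?_, ?_⟩
    · have h1 : Pth (fun x y => I.A t.col y x = true) t.src t.tgt (E.map Prod.swap).reverse := by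
        simpa [Track.src, Track.tgt, hd'] using h.reverse
      refine h1.mono ?_
      intro a b hab hA
      have hba : (b, a) ∈ E := by
        rw [List.mem_reverse, List.mem_map] at hab
        obtain ⟨⟨p, q⟩, hpq, he⟩ := hab
        simp only [Prod.swap_prod_mk, Prod.mk.injEq] at he
        obtain ⟨rfl, rfl⟩ := he
        exact hpq
      have := key b a hba hA
      rw [if_neg hd] at this
      simp [Inst.mv, hd', hA, this]
    · intro e he
      rw [List.mem_reverse, List.mem_map] at he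
      obtain ⟨e', he', rfl⟩ := he
      rw [hd']
      exact he'

theorem chk_of_solvable (hI : I.Ok) (hs : I.Solvable) :
    ∃ Ct : List (List (X × X × ℕ × Bool)), Ct.length = I.k ∧
      (∀ L ∈ Ct, L.length ≤ bnd I.k ∧ ∀ q ∈ L, q ∈ cands I) ∧
      chk I (I.k * bnd I.k) Ct = true := by
  obtain ⟨E, hE, hC⟩ := hs
  -- the constants of the ties
  have h0 : ∀ i j, ∃ c g : ℤ, i < I.k → j < I.k →
    ∀ u v x x' u' v' y y', (u, u) ∈ E i → (v, v) ∈ E i → (u', u') ∈ E j → (v', v') ∈ E j →
      ReflTransGen (fun x y => I.A i x y = true) u x → (x = x' ∨ I.A i x x' = true) →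
      ReflTransGen (fun x y => I.A i x y = true) x' v →
      ReflTransGen (fun x y => I.A j x y = true) u' y → (y = y' ∨ I.A j y y' = true) →
      ReflTransGen (fun x y => I.A j x y = true) y' v' →
      I.C (x, x') (y, y') = true →
      rk ((I.f i u : ℤ) + I.f j u - c) = rk ((I.f i v : ℤ) + I.f j v - c) →
      rk ((I.f i u' : ℤ) + I.f j u' - c) = rk ((I.f i v' : ℤ) + I.f j v' - c) →
      ((I.f i x : ℤ) + I.f j x = c ∧ (I.f i x' : ℤ) + I.f j x' = c) ∨
        ((I.f i x : ℤ) - I.f j x = g ∧ (I.f i x' : ℤ) - I.f j x' = g) := by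
    intro i j
    by_cases hij : i < I.k ∧ j < I.k
    · obtain ⟨_, _, _, _, h1⟩ := hE i hij.1
      obtain ⟨_, _, _, _, h2⟩ := hE j hij.2
      obtain ⟨c, g, h⟩ := pair_lemma hI hij.1 hij.2 h1 h2
      exact ⟨c, g, fun _ _ => h⟩
    · exact ⟨0, 0, fun h1 h2 => absurd ⟨h1, h2⟩ hij⟩
  choose c0 g0 hcg using h0
  let c : ℕ → ℕ → ℤ := fun a b => if a < b then c0 a b else c0 b a
  let g : ℕ → ℕ → ℤ := fun a b => if a < b then g0 a b else if b < a then -g0 b a else 0
  have hc : ∀ a b, c a b = c b a := by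
    intro a b
    simp only [c]
    rcases lt_trichotomy a b with h | h | h
    · rw [if_pos h, if_neg (by omega)]
    · rw [h]
    · rw [if_neg (by omega), if_pos h]
  have hg : ∀ a b, g a b = - g b a := by
    intro a b
    simp only [g]
    rcases lt_trichotomy a b with h | h | h
    · rw [if_pos h, if_neg (by omega), if_pos h]; ring
    · subst h
      rw [if_neg (lt_irrefl a), if_neg (lt_irrefl a)]; ring
    · rw [if_neg (by omega), if_pos h, if_pos h]
  -- the linked pieces
  have hlink : ∀ i < I.k, ∀ j < I.k, i ≠ j → ∀ u v x x' u' v' y y', (u, u) ∈ E i →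
      (v, v) ∈ E i → (u', u') ∈ E j → (v', v') ∈ E j →
      ReflTransGen (fun x y => I.A i x y = true) u x → (x = x' ∨ I.A i x x' = true) →
      ReflTransGen (fun x y => I.A i x y = true) x' v →
      ReflTransGen (fun x y => I.A j x y = true) u' y → (y = y' ∨ I.A j y y' = true) →
      ReflTransGen (fun x y => I.A j x y = true) y' v' →
      rho I c g i u = rho I c g i v → rho I c g j u' = rho I c g j v' →
      I.C (x, x') (y, y') = true → clock I c g u i = clock I c g u' j := by
    intro i hi j hj hij u v x x' u' v' y y' hu hv hu' hv' h1 h2 h3 h4 h5 h6 hr hr' hCC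
    rcases Nat.lt_or_gt_of_ne hij with hlt | hlt
    · refine linked_clock hI hc hg hi hj h1 h2 h3 h4 h5 h6 hCC hr hr' ?_
      have e1 : c i j = c0 i j := if_pos hlt
      have e2 : g i j = g0 i j := if_pos hlt
      rw [e1, e2]
      exact hcg i j hi hj u v x x' u' v' y y' hu hv hu' hv' h1 h2 h3 h4 h5 h6 hCC
    · refine (linked_clock hI hc hg hj hi h4 h5 h6 h1 h2 h3 (hI.symm _ _ hCC) hr' hr ?_).symm
      have e1 : c j i = c0 j i := if_pos hlt
      have e2 : g j i = g0 j i := if_pos hlt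
      rw [e1, e2]
      exact hcg j i hj hi u' v' y y' u v x x' hu' hv' hu hv h4 h5 h6 h1 h2 h3
        (hI.symm _ _ hCC)
  -- the pieces
  let cf : ℕ → X → X → ℕ × Bool := fun i u v =>
    (clock I c g u i, decide (I.f (clock I c g u i) u ≤ I.f (clock I c g u i) v))
  have hcut : ∀ i, ∃ L : List (X × X × ℕ × Bool), i < I.k →
      colOk I i L = true ∧ L.length ≤ bnd I.k ∧
      (∀ q ∈ L, q.2.2 = cf i q.1 q.2.1 ∧ rho I c g i q.1 = rho I c g i q.2.1 ∧
        ∃ E', Pth (fun a b => I.A i a b = true) q.1 q.2.1 E' ∧ E' ⊆ E i) ∧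
      ∀ e ∈ links L, e ∈ E i := by
    intro i
    by_cases hi : i < I.k
    · obtain ⟨x, z, hx, hz, hp⟩ := hE i hi
      obtain ⟨L, ⟨v, q, h1⟩, ⟨u, q', h2⟩, h3, h4, h5⟩ := cut (ρ := rho I c g i) (cf i)
        (fun a b hab => rho_mono hI hi (ReflTransGen.single hab)) hp
      refine ⟨L, fun _ => ⟨?_, ?_, h4, fun e he => (h5 e he).2⟩⟩
      · simp only [colOk, Bool.and_eq_true, List.all_eq_true]
        refine ⟨?_, ?_, fun e he => (h5 e he).1⟩
        · rw [h1]; exact hx
        · rw [List.head?_reverse, h2]; exact hz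
      · have := rho_le (I := I) (c := c) (g := g) i z
        unfold bnd
        omega
    · exact ⟨[], fun h => absurd h hi⟩
  choose Lf hLf using hcut
  -- the certificate
  have hget : ∀ L i, ((List.range I.k).map Lf)[i]? = some L ↔ i < I.k ∧ L = Lf i := by
    intro L i
    rw [List.getElem?_map]
    constructor
    · intro h
      rw [Option.map_eq_some_iff] at h
      obtain ⟨j, hj, rfl⟩ := h
      have h1 := List.getElem?_eq_some_iff.1 hj
      obtain ⟨h1, h2⟩ := h1
      rw [List.length_range] at h1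
      rw [List.getElem_range] at h2
      rw [h2]
      exact ⟨by omega, rfl⟩
    · rintro ⟨h, rfl⟩
      rw [List.getElem?_range h]
      rfl
  have hnode : ∀ i < I.k, ∀ a, (a, a) ∈ E i → a ∈ I.nodes := by
    intro i hi a ha
    obtain ⟨x, z, hx, hz, hp⟩ := hE i hi
    exact node_mem hI (hI.memS _ _ hx) (hp.elem ha).1
  have hcands : ∀ i < I.k, ∀ q ∈ Lf i, q ∈ cands I ∧ (q.1, q.1) ∈ E i ∧
      (q.2.1, q.2.1) ∈ E i := by
    intro i hi q hq
    obtain ⟨_, _, h3, _⟩ := hLf i hi
    obtain ⟨h4, _, E', h6, h7⟩ := h3 q hq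
    have m1 : (q.1, q.1) ∈ E i := h7 h6.first_mem
    have m2 : (q.2.1, q.2.1) ∈ E i := h7 h6.last_mem
    refine ⟨mem_cands.2 ⟨hnode i hi _ m1, hnode i hi _ m2, ?_⟩, m1, m2⟩
    rw [h4]
    exact (clock_speed hc hg hi q.1).1
  refine ⟨(List.range I.k).map Lf, by simp, ?_, ?_⟩
  · intro L hL
    obtain ⟨i, hi, rfl⟩ := List.mem_map.1 hL
    rw [List.mem_range] at hi
    exact ⟨(hLf i hi).2.1, fun q hq => (hcands i hi q hq).1⟩
  have hB : (tracks ((List.range I.k).map Lf)).length ≤ I.k * bnd I.k := by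
    have := length_tracks ((List.range I.k).map Lf) (bnd I.k) (by
      intro L hL
      obtain ⟨i, hi, rfl⟩ := List.mem_map.1 hL
      rw [List.mem_range] at hi
      exact (hLf i hi).2.1)
    simpa using this
  rw [chk_iff hI hB (by
    intro L hL
    obtain ⟨i, hi, rfl⟩ := List.mem_map.1 hL
    rw [List.mem_range] at hi
    exact fun q hq => (hcands i hi q hq).1)]
  refine ⟨by simp, ?_, ?_, ?_, ?_⟩
  · intro L i hL
    obtain ⟨hi, rfl⟩ := (hget L i).1 hL
    exact (hLf i hi).1
  · intro t ht t' ht' hne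
    obtain ⟨L, i, hL, e, he, rfl⟩ := mem_fixedArcs.1 ht
    obtain ⟨L', j, hL', e', he', rfl⟩ := mem_fixedArcs.1 ht'
    obtain ⟨hi, rfl⟩ := (hget L i).1 hL
    obtain ⟨hj, rfl⟩ := (hget L' j).1 hL'
    exact hC i hi j hj hne e ((hLf i hi).2.2.2 e he) e' ((hLf j hj).2.2.2 e' he')
  · intro t ht t' ht' hne hclk e he e' he'
    obtain ⟨L, i, hL, q, hq, rfl⟩ := mem_tracks.1 ht
    obtain ⟨L', j, hL', q', hq', rfl⟩ := mem_tracks.1 ht'
    obtain ⟨hi, rfl⟩ := (hget L i).1 hL
    obtain ⟨hj, rfl⟩ := (hget L' j).1 hL'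
    obtain ⟨_, _, _, h1, h2, h3⟩ := mem_sem.1 he
    obtain ⟨_, _, _, h4, h5, h6⟩ := mem_sem.1 he'
    have h1 := rtg_of_nodes h1
    have h3 := rtg_of_nodes h3
    have h4 := rtg_of_nodes h4
    have h6 := rtg_of_nodes h6
    obtain ⟨p1, p2, _⟩ := (hLf i hi).2.2.1 q hq
    obtain ⟨p1', p2', _⟩ := (hLf j hj).2.2.1 q' hq'
    obtain ⟨_, m1, m2⟩ := hcands i hi q hq
    obtain ⟨_, m1', m2'⟩ := hcands j hj q' hq'
    by_contra hCC
    have hCC : I.C e e' = true := by simpa using hCC
    apply hclk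
    have k1 : Track.clk (i, q) = clock I c g q.1 i := by
      show q.2.2.1 = _
      rw [p1]
    have k2 : Track.clk (j, q') = clock I c g q'.1 j := by
      show q'.2.2.1 = _
      rw [p1']
    rw [k1, k2]
    exact hlink i hi j hj hne q.1 q.2.1 e.1 e.2 q'.1 q'.2.1 e'.1 e'.2 m1 m2 m1' m2' h1 h2 h3 h4
      h5 h6 p2 p2' hCC
  · -- the game
    have h7 : ∀ t ∈ tracks ((List.range I.k).map Lf), t.col < I.k ∧
        ∃ E', Pth (fun x y => I.mv t x y = true) t.src t.tgt E' ∧
          ∀ e ∈ E', ori t.dir e ∈ E t.col := by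
      intro t ht
      obtain ⟨L, i, hL, q, hq, rfl⟩ := mem_tracks.1 ht
      obtain ⟨hi, rfl⟩ := (hget L i).1 hL
      refine ⟨hi, ?_⟩
      obtain ⟨p1, p2, E', p3, p4⟩ := (hLf i hi).2.2.1 q hq
      obtain ⟨hk, ε, κ, hε, hf⟩ := clock_speed (I := I) (c := c) (g := g) hc hg hi q.1
      have k1 : Track.clk (i, q) = clock I c g q.1 i := by
        show q.2.2.1 = _
        rw [p1]
      have k2 : Track.dir (i, q) = decide (I.f (Track.clk (i, q)) q.1 ≤
          I.f (Track.clk (i, q)) q.2.1) := by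
        show q.2.2.2 = _
        rw [k1, p1]
      obtain ⟨E'', h8, h9⟩ := pth_mv_of hI (t := (i, q)) hi (by rw [k1]; exact hk) p3 hε (by
        intro a ha
        rw [k1]
        obtain ⟨r1, _, r3, _, _⟩ := p3.elem ha
        have e1 := rho_mono (c := c) (g := g) hI hi r1
        have e2 := rho_mono (c := c) (g := g) hI hi r3
        dsimp only at e1 e2 r1
        exact hf a (same_of_rho hI hi r1 (by omega))) k2
      exact ⟨E'', h8, fun e he => p4 (h9 e he)⟩
    have h8 : ∀ p : Fin (tracks ((List.range I.k).map Lf)).length, ∃ E',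
        Pth (fun x y => I.mv ((tracks ((List.range I.k).map Lf)).get p) x y = true)
          ((tracks ((List.range I.k).map Lf)).get p).src
          ((tracks ((List.range I.k).map Lf)).get p).tgt E' ∧
          ∀ e ∈ E', ori ((tracks ((List.range I.k).map Lf)).get p).dir e ∈
            E ((tracks ((List.range I.k).map Lf)).get p).col :=
      fun p => (h7 _ (List.get_mem _ p)).2
    choose Eg hEg using h8
    refine ⟨Eg, fun p => (hEg p).1, ?_, ?_⟩
    · intro p q hpq e he e' he'
      exact hC _ (h7 _ (List.get_mem _ p)).1 _ (h7 _ (List.get_mem _ q)).1 hpq.1 _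
        ((hEg p).2 e he) _ ((hEg q).2 e' he')
    · intro p e he t ht hne
      obtain ⟨L, i, hL, e', he', rfl⟩ := mem_fixedArcs.1 ht
      obtain ⟨hi, rfl⟩ := (hget L i).1 hL
      exact hC i hi _ (h7 _ (List.get_mem _ p)).1 hne _ ((hLf i hi).2.2.2 e' he') _
        ((hEg p).2 e he)

/-- The algorithm is correct. -/
theorem solve_iff (hI : I.Ok) : solve I = true ↔ I.Solvable := by
  unfold solve
  rw [List.any_eq_true]
  constructor
  · rintro ⟨Ct, h1, h2⟩
    rw [mem_upTo] at h1
    have h3 : ∀ L ∈ Ct, L.length ≤ bnd I.k ∧ ∀ q ∈ L, q ∈ cands I := by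
      intro L hL
      exact mem_upTo.1 (h1.2 L hL)
    refine solvable_of_chk hI (B := I.k * bnd I.k) ?_ (fun L hL => (h3 L hL).2) h2
    exact (length_tracks Ct _ fun L hL => (h3 L hL).1).trans (Nat.mul_le_mul_right _ h1.1)
  · intro h
    obtain ⟨Ct, h1, h2, h3⟩ := chk_of_solvable hI h
    refine ⟨Ct, mem_upTo.2 ⟨h1.le, ?_⟩, h3⟩
    intro L hL
    exact mem_upTo.2 (h2 L hL)

end Pool.Agent.H614R2.DPO
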