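import Pool.Agent.H614R2.DPO.Algo

/-!
# The concrete problem on natural numbers

Vertices are natural numbers below `n`; `w u v = some c` if `u` and `v` are joined by an edge of
length `c`, and `w u v = none` if they are not adjacent.
-/

namespace Pool.Agent.H614R2.DPO

open Relation

/-- Walks with their lengths. -/
inductive Wk (w : ℕ → ℕ → Option ℕ) : ℕ → ℕ → ℕ → Prop
  | nil (u : ℕ) : Wk w u u 0
  | cons {u v x c d : ℕ} : w u v = some c → Wk w v x d → Wk w u x (c + d)

/-- The edge from `u` to `v` is tight for `f`. -/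
def Tight (w : ℕ → ℕ → Option ℕ) (f : ℕ → ℕ) (u v : ℕ) : Prop :=
  ∃ c, w u v = some c ∧ f v = f u + c

/-- The problem, in terms of tight edges; `O` is a partial orientation. -/
def Pres (w : ℕ → ℕ → Option ℕ) (k : ℕ) (fd : ℕ → ℕ → ℕ) (s t : ℕ → ℕ) : Prop :=
  ∃ O : ℕ → ℕ → Prop, (∀ u v, O u v → w u v ≠ none) ∧ (∀ u v, O u v → ¬ O v u) ∧
    ∀ i < k, ReflTransGen (fun u v => O u v ∧ Tight w (fd i) u v) (s i) (t i)

/-- Properties of `w`: symmetric, no loops, vertices below `n`. -/
structure WOk (w : ℕ → ℕ → Option ℕ) (n : ℕ) : Prop where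
  symm : ∀ u v, w u v = w v u
  loop : ∀ u, w u u = none
  lt : ∀ u v, w u v ≠ none → u < n ∧ v < n

/-! ### Robbins' theorem with demands -/

/-- `Z` without the edge between `a` and `b` -/
def del (Z : ℕ → ℕ → Prop) (a b : ℕ) : ℕ → ℕ → Prop :=
  fun u v => Z u v ∧ ¬ (u = a ∧ v = b) ∧ ¬ (u = b ∧ v = a)

/-- The edge `a b` of `Z` is a bridge, and every walk from `x` to `y` uses it from `a` to `b`. -/
def Cross (Z : ℕ → ℕ → Prop) (x y a b : ℕ) : Prop :=
  Z a b ∧ ReflTransGen (del Z a b) x a ∧ ReflTransGen (del Z a b) b y ∧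
    ¬ ReflTransGen (del Z a b) a b

/-! ### Bellman-Ford with a cap -/

/-- a number larger than the length of any walk with at most `n` edges -/
def capB (w : ℕ → ℕ → Option ℕ) (n : ℕ) : ℕ :=
  n * ((List.range n).map (fun u => ((List.range n).map (fun v => (w u v).getD 0)).sum)).sum + 1

/-- minimum of a list of numbers and `d` -/
def minL (d : ℕ) (l : List ℕ) : ℕ := l.foldl min d

/-- one round of Bellman-Ford -/
def bfStep (w : ℕ → ℕ → Option ℕ) (n : ℕ) (D : List ℕ) : List ℕ :=
  (List.range n).map (fun v => minL (D.getD v 0) ((List.range n).flatMap (fun u =>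
    (w u v).elim [] (fun c => [D.getD u 0 + c]))))

/-- Bellman-Ford from `s`: the list of the distances, capped at `capB w n` -/
def bf (w : ℕ → ℕ → Option ℕ) (n s : ℕ) : List ℕ :=
  (bfStep w n)^[n] ((List.range n).map (fun v => if v = s then 0 else capB w n))

/-- the distance from `s` to `v` -/
def bfd (w : ℕ → ℕ → Option ℕ) (n s v : ℕ) : ℕ := (bf w n s).getD v 0

/-! ### The instance of the core problem -/

/-- edges of length `0` -/
def zadj (w : ℕ → ℕ → Option ℕ) (u v : ℕ) : Bool := decide (w u v = some 0)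

/-- edges of length `0` except the edge `a b` -/
def zdel (w : ℕ → ℕ → Option ℕ) (a b u v : ℕ) : Bool :=
  zadj w u v && (!(decide (u = a) && decide (v = b)) && !(decide (u = b) && decide (v = a)))

/-- `x` and `y` are joined by a walk of length `0` -/
def zc (w : ℕ → ℕ → Option ℕ) (n x y : ℕ) : Bool :=
  decide (y ∈ reachG (zadj w) (List.range n) x)

/-- test for `Cross` -/
def crossB (w : ℕ → ℕ → Option ℕ) (n x y a b : ℕ) : Bool :=
  zadj w a b && (decide (a ∈ reachG (zdel w a b) (List.range n) x) &&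
    (decide (y ∈ reachG (zdel w a b) (List.range n) b) &&
      !(decide (b ∈ reachG (zdel w a b) (List.range n) a))))

/-- two visits `(x, y)`, `(x', y')` of the same component of the edges of length `0` use a bridge
in opposite directions -/
def nodeConf (w : ℕ → ℕ → Option ℕ) (n : ℕ) (v v' : ℕ × ℕ) : Bool :=
  (List.range n).any (fun a => (List.range n).any (fun b =>
    crossB w n v.1 v.2 a b && crossB w n v'.1 v'.2 b a))

/-- The instance of the core problem. Its nodes are the visits `(x, y)` of components of the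
graph of the edges of length `0`, with entrance `x` and exit `y`. -/
def mkInst (w : ℕ → ℕ → Option ℕ) (n k : ℕ) (fd : ℕ → ℕ → ℕ) (s t : ℕ → ℕ) : Inst (ℕ × ℕ) where
  k := k
  nodes := (List.range n).flatMap (fun x => ((List.range n).filter (fun y => zc w n x y)).map
    (fun y => (x, y)))
  f i x := fd i x.1
  A i x y := zc w n x.1 x.2 && (zc w n y.1 y.2 &&
    (w x.2 y.1).elim false (fun c => decide (0 < c) && decide (fd i y.1 = fd i x.2 + c)))
  S i x := zc w n x.1 x.2 && decide (x.1 = s i)
  T i x := zc w n x.1 x.2 && decide (x.2 = t i)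
  C e e' := (zc w n e.1.1 e.1.2 && zc w n e.2.1 e.2.2 && (zc w n e'.1.1 e'.1.2 &&
    zc w n e'.2.1 e'.2.2)) &&
    ((decide (e.1 = e.2) && (decide (e'.1 = e'.2) && nodeConf w n e.1 e'.1)) ||
      (decide (e.1 ≠ e.2) && (decide (e'.1 ≠ e'.2) && (decide (e.1.2 = e'.2.1) &&
        decide (e.2.1 = e'.1.2)))))

end Pool.Agent.H614R2.DPO
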