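import Mathlib

/-!
# The combinatorial core: conflict-free paths in `k` acyclic digraphs

Nodes `X`, colours `i < k`, for each colour a digraph `A i` and a height function `f i`, and a
conflict relation between elements (nodes `(x, x)` and arcs `(x, y)`).
-/

namespace Pool.Agent.H614R2.DPO

open Relation

variable {X : Type}

/-- `Pth R x z E`: a path from `x` to `z` for the relation `R`; `E` is the list of its elements:
every node `x` on the path contributes `(x, x)`, every arc from `x` to `y` contributes `(x, y)`. -/
inductive Pth (R : X → X → Prop) : X → X → List (X × X) → Prop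
  | single (x : X) : Pth R x x [(x, x)]
  | cons {x y z : X} {E : List (X × X)} : R x y → Pth R y z E →
      Pth R x z ((x, x) :: (x, y) :: E)

/-- Instances of the core problem. -/
structure Inst (X : Type) where
  /-- number of colours -/
  k : ℕ
  /-- the nodes -/
  nodes : List X
  /-- the height functions -/
  f : ℕ → X → ℕ
  /-- the arcs of each colour -/
  A : ℕ → X → X → Bool
  /-- the possible first nodes of the path of each colour -/
  S : ℕ → X → Bool
  /-- the possible last nodes of the path of each colour -/
  T : ℕ → X → Bool
  /-- conflicts between elements -/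
  C : X × X → X × X → Bool

/-- The properties used by the algorithm. -/
structure Inst.Ok (I : Inst X) : Prop where
  memS : ∀ i x, I.S i x = true → x ∈ I.nodes
  mem : ∀ i x y, I.A i x y = true → x ∈ I.nodes ∧ y ∈ I.nodes
  inc : ∀ i x y, i < I.k → I.A i x y = true → I.f i x < I.f i y
  up : ∀ i l x y, i < I.k → l < I.k → I.A i x y = true →
    I.f i x + I.f l x ≤ I.f i y + I.f l y
  dn : ∀ i l x y, i < I.k → l < I.k → I.A i x y = true →
    I.f i x + I.f l y ≤ I.f i y + I.f l x
  conf : ∀ e e' l, l < I.k → I.C e e' = true → I.f l e.1 = I.f l e'.2 ∧ I.f l e.2 = I.f l e'.1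
  symm : ∀ e e', I.C e e' = true → I.C e' e = true

/-- There are paths, one of each colour, without conflicts between paths of different colours. -/
def Inst.Solvable (I : Inst X) : Prop :=
  ∃ E : ℕ → List (X × X),
    (∀ i < I.k, ∃ x z, I.S i x = true ∧ I.T i z = true ∧
      Pth (fun a b => I.A i a b = true) x z (E i)) ∧
    ∀ i < I.k, ∀ j < I.k, i ≠ j → ∀ e ∈ E i, ∀ e' ∈ E j, I.C e e' = false

/-! ### Tracks and the game -/

/-- A track: colour, first node, last node, clock, direction (`true`: the clock increases along
the track). -/
abbrev Track (X : Type) := ℕ × X × X × ℕ × Bool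

namespace Track

/-- colour -/
def col (t : Track X) : ℕ := t.1
/-- first node -/
def fst (t : Track X) : X := t.2.1
/-- last node -/
def lst (t : Track X) : X := t.2.2.1
/-- clock -/
def clk (t : Track X) : ℕ := t.2.2.2.1
/-- direction -/
def dir (t : Track X) : Bool := t.2.2.2.2
/-- where the pebble starts -/
def src (t : Track X) : X := if t.dir = true then t.fst else t.lst
/-- where the pebble ends -/
def tgt (t : Track X) : X := if t.dir = true then t.lst else t.fst

end Track

/-- The element, read in the direction of the path. -/
def ori (b : Bool) (e : X × X) : X × X := if b = true then e else (e.2, e.1)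

/-- The pebble of the track `t` may move from `x` to `y`. -/
def Inst.mv (I : Inst X) (t : Track X) (x y : X) : Bool :=
  (if t.dir = true then I.A t.col x y else I.A t.col y x) &&
    decide (I.f t.clk x < I.f t.clk y)

/-- The two tracks have different colours and the same clock. -/
def rel (t t' : Track X) : Prop := t.col ≠ t'.col ∧ t.clk = t'.clk

section game

variable (I : Inst X) (F : List (ℕ × X × X)) {N : ℕ} (T : Fin N → Track X)

/-- The pebble number `p` moves: it has not reached its end, and its clock shows a minimal time
among all the pebbles which have not reached their end. -/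
def Moves (S : Fin N → X) (p : Fin N) : Prop :=
  S p ≠ (T p).tgt ∧ ∀ q, S q ≠ (T q).tgt → I.f (T p).clk (S p) ≤ I.f (T q).clk (S q)

/-- There is no conflict between the present positions. -/
def Valid (S : Fin N → X) : Prop :=
  ∀ p q, rel (T p) (T q) → I.C (S p, S p) (S q, S q) = false

/-- One step of the game; `F` is a list of fixed arcs with their colours. -/
def Step (S S' : Fin N → X) : Prop :=
  Valid I T S ∧
  (∀ p, Moves I T S p → I.mv (T p) (S p) (S' p) = true ∧
    ∀ g ∈ F, g.1 ≠ (T p).col → I.C g.2 (ori (T p).dir (S p, S' p)) = false) ∧
  (∀ p, ¬ Moves I T S p → S' p = S p) ∧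
  ∀ p q, rel (T p) (T q) → Moves I T S p → Moves I T S q →
    I.C (ori (T p).dir (S p, S' p)) (ori (T q).dir (S q, S' q)) = false

/-- From the positions `S` the tracks can be completed without conflicts. -/
def Good (S : Fin N → X) : Prop :=
  ∃ E : Fin N → List (X × X),
    (∀ p, Pth (fun x y => I.mv (T p) x y = true) (S p) (T p).tgt (E p)) ∧
    (∀ p q, rel (T p) (T q) → ∀ e ∈ E p, ∀ e' ∈ E q,
      I.C (ori (T p).dir e) (ori (T q).dir e') = false) ∧
    ∀ p, ∀ e ∈ E p, ∀ g ∈ F, g.1 ≠ (T p).col → I.C g.2 (ori (T p).dir e) = false

end game

end Pool.Agent.H614R2.DPO
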