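import Pool.Agent.NPC.Defs

/-!
# Distance-preserving orientations: the definitions of the statement
-/

namespace Pool.Agent.H614R2.DPO

open Pool.Agent.NPC

/-- The length of a walk given by the list of its vertices, for edge lengths `len`. -/
def walkLength {V : Type} (len : Sym2 V → ℚ) : List V → ℚ
  | u :: v :: l => len s(u, v) + walkLength len (v :: l)
  | _ => 0

/-- The list `l` is a path from `s` to `t` for the relation `R`: its members are different, it
starts with `s`, ends with `t`, and `R` holds between consecutive members. -/
def IsPath {V : Type} (R : V → V → Prop) (s t : V) (l : List V) : Prop :=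
  l.Nodup ∧ l.IsChain R ∧ l.head? = some s ∧ l.getLast? = some t

/-- The length of a shortest path from `s` to `t` that uses only arcs of the relation `R`, and
`⊤` (infinity) if there is none. -/
noncomputable def dist {V : Type} (R : V → V → Prop) (len : Sym2 V → ℚ) (s t : V) : EReal :=
  ⨅ (l : List V) (_ : IsPath R s t l), (((walkLength len l : ℚ) : ℝ) : EReal)

/-- `O` is an orientation of the graph `G`: it replaces every edge by exactly one of the two
arcs. -/
def IsOrientation {V : Type} (G : SimpleGraph V) (O : V → V → Prop) : Prop :=
  (∀ u v, O u v → G.Adj u v) ∧ ∀ u v, G.Adj u v → (O u v ∧ ¬ O v u) ∨ (O v u ∧ ¬ O u v)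

open Classical in
/-- The input as a bit string: the matrix of the edge lengths (`none` for pairs of vertices that
are not adjacent) and the list of the pairs of vertices; rational numbers are given by numerator
and denominator in binary. -/
noncomputable def input {n k : ℕ} (G : SimpleGraph (Fin n)) (len : Sym2 (Fin n) → ℚ)
    (s t : Fin k → Fin n) : List Bool :=
  bits (List.ofFn fun u => List.ofFn fun v => if G.Adj u v then some (len s(u, v)) else none,
    List.ofFn fun i => ((s i : ℕ), (t i : ℕ)))

end Pool.Agent.H614R2.DPO
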