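import Pool.Agent.H614R2.DPO.Conc
import Pool.Agent.H671R2.PolyAuto

/-!
# Bellman-Ford with a cap: correctness and polynomial running time
-/

namespace Pool.Agent.H614R2.DPO

open Relation Pool.Agent.NPC

section B

/-! ### Minimum of a list -/

theorem B_minL_le_left (l : List ℕ) : ∀ d : ℕ, minL d l ≤ d := by
  induction l with
  | nil => intro d; exact le_rfl
  | cons a l ih => intro d; exact (ih (min d a)).trans (min_le_left _ _)

theorem B_minL_le_mem (l : List ℕ) : ∀ (d x : ℕ), x ∈ l → minL d l ≤ x := by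
  induction l with
  | nil => intro d x h; simp at h
  | cons a l ih =>
    intro d x h
    rcases List.mem_cons.1 h with rfl | h
    · exact (B_minL_le_left l (min d x)).trans (min_le_right _ _)
    · exact ih (min d a) x h

theorem B_minL_mem (l : List ℕ) : ∀ d : ℕ, minL d l = d ∨ minL d l ∈ l := by
  induction l with
  | nil => intro d; exact Or.inl rfl
  | cons a l ih =>
    intro d
    rcases ih (min d a) with h | h
    · rcases min_choice d a with h' | h'
      · left
        change minL (min d a) l = d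
        rw [h, h']
      · right
        change minL (min d a) l ∈ _
        rw [h, h']
        exact List.mem_cons_self
    · right
      exact List.mem_cons_of_mem _ h

/-! ### The rounds -/

/-- the list after `r` rounds -/
def B_D (w : ℕ → ℕ → Option ℕ) (n s r : ℕ) : List ℕ :=
  (bfStep w n)^[r] ((List.range n).map (fun v => if v = s then 0 else capB w n))

variable {w : ℕ → ℕ → Option ℕ} {n s : ℕ}

theorem B_D_succ (r : ℕ) : B_D w n s (r + 1) = bfStep w n (B_D w n s r) := by
  unfold B_D
  rw [Function.iterate_succ_apply']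

theorem B_len (r : ℕ) : (B_D w n s r).length = n := by
  cases r with
  | zero => simp [B_D]
  | succ r => rw [B_D_succ]; simp [bfStep]

theorem B_zero {v : ℕ} (hv : v < n) :
    (B_D w n s 0).getD v 0 = if v = s then 0 else capB w n := by
  simp [B_D, List.getD_eq_getElem?_getD, hv]

theorem B_succ {v : ℕ} (hv : v < n) (r : ℕ) :
    (B_D w n s (r + 1)).getD v 0 = minL ((B_D w n s r).getD v 0) ((List.range n).flatMap
      (fun u => (w u v).elim [] (fun c => [(B_D w n s r).getD u 0 + c]))) := by
  rw [B_D_succ]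
  simp [bfStep, List.getD_eq_getElem?_getD, hv]

theorem B_mem {D : List ℕ} {v x : ℕ} : x ∈ (List.range n).flatMap
      (fun u => (w u v).elim [] (fun c => [D.getD u 0 + c])) ↔
      ∃ u < n, ∃ c, w u v = some c ∧ x = D.getD u 0 + c := by
  rw [List.mem_flatMap]
  constructor
  · rintro ⟨u, hu, hx⟩
    cases h : w u v with
    | none => rw [h] at hx; simp at hx
    | some c =>
      rw [h] at hx
      exact ⟨u, List.mem_range.1 hu, c, h, by simpa using hx⟩
  · rintro ⟨u, hu, c, h, hx⟩
    refine ⟨u, List.mem_range.2 hu, ?_⟩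
    rw [h]
    simpa using hx

theorem B_succ_le {v : ℕ} (hv : v < n) (r : ℕ) :
    (B_D w n s (r + 1)).getD v 0 ≤ (B_D w n s r).getD v 0 := by
  rw [B_succ hv]
  exact B_minL_le_left _ _

theorem B_succ_le' {u v c : ℕ} (hu : u < n) (hv : v < n) (h : w u v = some c) (r : ℕ) :
    (B_D w n s (r + 1)).getD v 0 ≤ (B_D w n s r).getD u 0 + c := by
  rw [B_succ hv]
  exact B_minL_le_mem _ _ _ (B_mem.2 ⟨u, hu, c, h, rfl⟩)

theorem B_le_cap' (r v : ℕ) : (B_D w n s r).getD v 0 ≤ capB w n := by
  by_cases hv : v < n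
  · induction r with
    | zero => rw [B_zero hv]; split_ifs <;> omega
    | succ r ih => exact (B_succ_le hv r).trans ih
  · rw [List.getD_eq_default _ _ (by rw [B_len]; omega)]
    omega

/-- walks, extended at the end -/
theorem B_snoc {u v x c d : ℕ} (h : Wk w u v d) (hc : w v x = some c) : Wk w u x (d + c) := by
  induction h with
  | nil u => simpa using Wk.cons hc (Wk.nil x)
  | cons h1 _ ih => rw [Nat.add_assoc]; exact Wk.cons h1 (ih hc)

theorem B_wk {r : ℕ} : ∀ {v : ℕ}, v < n → (B_D w n s r).getD v 0 < capB w n →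
    Wk w s v ((B_D w n s r).getD v 0) := by
  induction r with
  | zero =>
    intro v hv h
    rw [B_zero hv] at h ⊢
    split_ifs at h ⊢ with hvs
    · subst hvs; exact Wk.nil v
    · omega
  | succ r ih =>
    intro v hv h
    rcases B_minL_mem ((List.range n).flatMap
      (fun u => (w u v).elim [] (fun c => [(B_D w n s r).getD u 0 + c])))
      ((B_D w n s r).getD v 0) with h' | h'
    · rw [← B_succ hv] at h'
      rw [h'] at h ⊢
      exact ih hv h
    · rw [← B_succ hv] at h'
      obtain ⟨u, hu, c, hc, hx⟩ := B_mem.1 h'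
      rw [hx] at h ⊢
      exact B_snoc (ih hu (by omega)) hc

/-! ### Walks with the list of their vertices -/

/-- a walk from `s`, with the list of its vertices in reverse -/
inductive B_L (w : ℕ → ℕ → Option ℕ) (s : ℕ) : List ℕ → ℕ → Prop
  | nil : B_L w s [s] 0
  | cons {u v c d : ℕ} {L : List ℕ} : B_L w s (u :: L) d → w u v = some c →
      B_L w s (v :: u :: L) (d + c)

theorem B_suffix {L : List ℕ} {d : ℕ} (h : B_L w s L d) {v : ℕ} (hv : v ∈ L) :
    ∃ L' d', B_L w s (v :: L') d' ∧ d' ≤ d ∧ (v :: L') <:+ L := by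
  induction h with
  | nil =>
    have : v = s := by simpa using hv
    subst this
    exact ⟨[], 0, B_L.nil, le_rfl, List.suffix_rfl⟩
  | @cons u x c d L h1 h2 ih =>
    by_cases hvx : v = x
    · subst hvx
      exact ⟨u :: L, d + c, B_L.cons h1 h2, le_rfl, List.suffix_rfl⟩
    · obtain ⟨L', d', h3, h4, h5⟩ := ih (by simpa [hvx] using hv)
      exact ⟨L', d', h3, by omega, h5.trans (List.suffix_cons _ _)⟩

theorem B_extend {L : List ℕ} {u v d c : ℕ} (h : B_L w s (u :: L) d)
    (hn : (u :: L).Nodup) (hc : Wk w u v c) :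
    ∃ L' d', B_L w s (v :: L') d' ∧ (v :: L').Nodup ∧ d' ≤ d + c := by
  induction hc generalizing L d with
  | nil u => exact ⟨L, d, h, hn, by omega⟩
  | @cons u v' y c d' h1 h2 ih =>
    by_cases hm : v' ∈ u :: L
    · obtain ⟨L', d'', h3, h4, h5⟩ := B_suffix h hm
      obtain ⟨L'', d3, h6, h7, h8⟩ := ih h3 (hn.sublist h5.sublist)
      exact ⟨L'', d3, h6, h7, by omega⟩
    · obtain ⟨L'', d3, h6, h7, h8⟩ := ih (B_L.cons h h1) (List.nodup_cons.2 ⟨hm, hn⟩)
      exact ⟨L'', d3, h6, h7, by omega⟩

theorem B_short {v d : ℕ} (h : Wk w s v d) :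
    ∃ L' d', B_L w s (v :: L') d' ∧ (v :: L').Nodup ∧ d' ≤ d := by
  obtain ⟨L', d', h1, h2, h3⟩ := B_extend B_L.nil (List.nodup_singleton s) h
  exact ⟨L', d', h1, h2, by omega⟩

theorem B_lt (hw : WOk w n) (hs : s < n) {L : List ℕ} {d : ℕ} (h : B_L w s L d) :
    ∀ x ∈ L, x < n := by
  induction h with
  | nil => intro x hx; rw [List.mem_singleton.1 hx]; exact hs
  | @cons u v c d L h1 h2 ih =>
    intro x hx
    rcases List.mem_cons.1 hx with rfl | hx
    · exact (hw.lt u x (by rw [h2]; simp)).2
    · exact ih x hx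

theorem B_length (hw : WOk w n) (hs : s < n) {L : List ℕ} {d : ℕ} (h : B_L w s L d)
    (hn : L.Nodup) : L.length ≤ n := by
  rw [← List.toFinset_card_of_nodup hn, ← Finset.card_range n]
  apply Finset.card_le_card
  intro x hx
  exact Finset.mem_range.2 (B_lt hw hs h x (List.mem_toFinset.1 hx))

theorem B_complete (hw : WOk w n) (hs : s < n) {L : List ℕ} {d : ℕ} (h : B_L w s L d) :
    ∀ r v, L.head? = some v → L.length ≤ r + 1 → (B_D w n s r).getD v 0 ≤ d := by
  have key : ∀ r, (B_D w n s r).getD s 0 ≤ 0 := by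
    intro r
    induction r with
    | zero => rw [B_zero hs]; simp
    | succ r ih => exact (B_succ_le hs r).trans ih
  induction h with
  | nil =>
    intro r v hv _
    have : s = v := by simpa using hv
    subst this
    exact key r
  | @cons u v c d L h1 h2 ih =>
    intro r x hx hr
    have hvx : v = x := by simpa using hx
    subst hvx
    have hlt := hw.lt u v (by rw [h2]; simp)
    cases r with
    | zero => simp at hr
    | succ r =>
      have h3 := ih r u rfl (by simpa using hr)
      exact (B_succ_le' hlt.1 hlt.2 h2 r).trans (by omega)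

/-- the sum of the lengths of all edges (in both directions) -/
def B_S (w : ℕ → ℕ → Option ℕ) (n : ℕ) : ℕ :=
  ((List.range n).map (fun u => ((List.range n).map (fun v => (w u v).getD 0)).sum)).sum

theorem B_le_sum (l : List ℕ) (g : ℕ → ℕ) {x : ℕ} (hx : x ∈ l) : g x ≤ (l.map g).sum :=
  List.single_le_sum (by simp) _ (List.mem_map_of_mem hx)

theorem B_edge (hw : WOk w n) {u v c : ℕ} (h : w u v = some c) : c ≤ B_S w n := by
  have hlt := hw.lt u v (by rw [h]; simp)
  have h1 := B_le_sum (List.range n) (fun v => (w u v).getD 0) (List.mem_range.2 hlt.2)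
  have h2 := B_le_sum (List.range n) (fun u => ((List.range n).map
    (fun v => (w u v).getD 0)).sum) (List.mem_range.2 hlt.1)
  simp only [h, Option.getD_some] at h1
  exact h1.trans h2

theorem B_cap (hw : WOk w n) {L : List ℕ} {d : ℕ} (h : B_L w s L d) :
    d ≤ L.length * B_S w n := by
  induction h with
  | nil => simp
  | @cons u v c d L h1 h2 ih =>
    have := B_edge hw h2
    rw [List.length_cons, Nat.add_mul]
    omega

theorem B_capB : capB w n = n * B_S w n + 1 := rfl

theorem bfd_le (hw : WOk w n) (hs : s < n) {v d : ℕ} (h : Wk w s v d) : bfd w n s v ≤ d := by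
  obtain ⟨L, d', h1, h2, h3⟩ := B_short h
  have h4 := B_length hw hs h1 h2
  exact (B_complete hw hs h1 n v rfl (by omega)).trans h3

theorem bfd_wk (hw : WOk w n) (hs : s < n) {v d : ℕ} (h : Wk w s v d) :
    Wk w s v (bfd w n s v) := by
  obtain ⟨L, d', h1, h2, h3⟩ := B_short h
  have h4 := B_length hw hs h1 h2
  have h5 := B_complete hw hs h1 n v rfl (by omega)
  have h6 := B_cap hw h1
  have h7 : (v :: L).length * B_S w n ≤ n * B_S w n := Nat.mul_le_mul_right _ h4
  refine B_wk (r := n) (B_lt hw hs h1 v List.mem_cons_self) ?_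
  rw [B_capB]
  omega

theorem bfd_lip (hw : WOk w n) (hs : s < n) {u v c : ℕ} (h : w u v = some c) :
    bfd w n s v ≤ bfd w n s u + c := by
  have hlt := hw.lt u v (by rw [h]; simp)
  by_cases hu : bfd w n s u < capB w n
  · exact bfd_le hw hs (B_snoc (B_wk (r := n) hlt.1 hu) h)
  · have : bfd w n s v ≤ capB w n := B_le_cap' n v
    omega

/-! ### Polynomial time -/

theorem B_sz_minL (d : ℕ) (l : List ℕ) : sz (minL d l) ≤ 2 * sz d :=
  sz_nat_mono_le (B_minL_le_left l d)

theorem B_poly_minL {α : Type} [TEnc α] {d : α → ℕ} {l : α → List ℕ} (hd : Poly d)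
    (hl : Poly l) : Poly (fun a => minL (d a) (l a)) := by
  obtain ⟨q, hq⟩ := hd.sz_le
  unfold minL
  refine Poly.foldl (l := l) (s := d) (F := fun _ x y => min x y) hl hd (by fun_prop)
    (Polynomial.C 2 * q) ?_
  intro a k _
  have h1 := B_sz_minL (d a) ((l a).take k)
  have h2 := hq a
  refine le_trans (h1 : _) ?_
  simp only [Polynomial.eval_mul, Polynomial.eval_C]
  omega

attribute [fun_prop] B_poly_minL
attribute [local irreducible] minL

theorem B_poly_capB {α : Type} [TEnc α] {w : α → ℕ → ℕ → Option ℕ} {n : α → ℕ}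
    (hw : Poly (fun p : α × ℕ × ℕ => w p.1 p.2.1 p.2.2)) (hn : UPoly n) :
    Poly (fun a => capB (w a) (n a)) := by
  have key : ∀ (m : α → ℕ) (R : α → List ℕ), Poly m → Poly R → Poly (fun a => m a *
      ((R a).map (fun u => ((R a).map (fun v => (w a u v).getD 0)).sum)).sum + 1) := by
    intro m R hm hR
    fun_prop
  exact key n (fun a => List.range (n a)) hn.toPoly hn.range

theorem B_poly_step {α : Type} [TEnc α] {w : α → ℕ → ℕ → Option ℕ} {n : α → ℕ}
    {D : α → List ℕ} (hw : Poly (fun p : α × ℕ × ℕ => w p.1 p.2.1 p.2.2)) (hn : UPoly n)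
    (hD : Poly D) : Poly (fun a => bfStep (w a) (n a) (D a)) := by
  have key : ∀ R : α → List ℕ, Poly R → Poly (fun a => (R a).map (fun v =>
      minL ((D a).getD v 0) ((R a).flatMap (fun u =>
        (w a u v).elim [] (fun c => [(D a).getD u 0 + c]))))) := by
    intro R hR
    fun_prop
  exact key (fun a => List.range (n a)) hn.range

theorem B_sz_bound (w : ℕ → ℕ → Option ℕ) (n s r : ℕ) :
    sz (B_D w n s r) ≤ n * (2 * sz (capB w n) + 1) + 1 := by
  have h := sz_le_length_mul (B_D w n s r) (2 * sz (capB w n)) (fun x hx => by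
    obtain ⟨i, hi, rfl⟩ := List.mem_iff_getElem.1 hx
    apply sz_nat_mono_le
    have := B_le_cap' (w := w) (n := n) (s := s) r i
    rwa [List.getD_eq_getElem _ _ hi] at this)
  rwa [B_len] at h

theorem poly_bf {α : Type} [TEnc α] {w : α → ℕ → ℕ → Option ℕ} {n s : α → ℕ}
    (hw : Poly (fun p : α × ℕ × ℕ => w p.1 p.2.1 p.2.2)) (hn : UPoly n) (hs : Poly s) :
    Poly (fun a => bf (w a) (n a) (s a)) := by
  have hr := hn.range
  have hc := B_poly_capB hw hn
  obtain ⟨q, hq⟩ := hr.sz_le
  obtain ⟨q', hq'⟩ := hc.sz_le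
  have h0 : Poly (fun a => (List.range (n a)).map
      (fun v => if v = s a then 0 else capB (w a) (n a))) := by
    have hc' : Poly (fun p : α × ℕ => capB (w p.1) (n p.1)) := hc.comp (Poly.fst Poly.id)
    have hs' : Poly (fun p : α × ℕ => s p.1) := hs.comp (Poly.fst Poly.id)
    refine NPC.Poly.map (F := fun a v => if v = s a then 0 else capB (w a) (n a)) hr ?_
    exact Poly.ite (Poly.dec_eq (Poly.snd Poly.id) hs') (NPC.Poly.const 0) hc'
  refine (Poly.iterLen (l := fun a => List.range (n a)) (F := fun a D => bfStep (w a) (n a) D)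
    hr h0 ?_ (q * (Polynomial.C 2 * q' + Polynomial.C 1) + Polynomial.C 1) ?_).congr
    fun a => ?_
  · refine B_poly_step (α := α × List ℕ) (w := fun p => w p.1) (n := fun p => n p.1)
      (D := fun p => p.2) ?_ (hn.comp (Poly.fst Poly.id)) (Poly.snd Poly.id)
    exact hw.comp (Poly.pair (Poly.fst (Poly.fst Poly.id)) (Poly.snd Poly.id))
  · intro a k _
    have h1 := B_sz_bound (w a) (n a) (s a) k
    have h2 := length_lt_sz (List.range (n a))
    have h3 := hq a
    have h4 := hq' a
    rw [List.length_range] at h2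
    simp only [Polynomial.eval_mul, Polynomial.eval_add, Polynomial.eval_C]
    refine h1.trans ?_
    have h5 : n a ≤ q.eval (sz a) := by omega
    have h6 : 2 * sz (capB (w a) (n a)) + 1 ≤ 2 * q'.eval (sz a) + 1 := by omega
    have := Nat.mul_le_mul h5 h6
    omega
  · rw [List.length_range]
    rfl

end B

end Pool.Agent.H614R2.DPO
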