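import Pool.Agent.H614R2.DPO.Conc

/-!
# Robbins' theorem with demands
-/

namespace Pool.Agent.H614R2.DPO

open Relation

/-- `Z` as a simple graph -/
def rbG (Z : ℕ → ℕ → Prop) (hsymm : ∀ u v, Z u v → Z v u) (hirr : ∀ u, ¬ Z u u) :
    SimpleGraph ℕ where
  Adj := Z
  symm := ⟨hsymm⟩
  loopless := ⟨hirr⟩

/-- an edge that is not a bridge -/
def rbNB (Z : ℕ → ℕ → Prop) (u v : ℕ) : Prop := Z u v ∧ ReflTransGen (del Z u v) u v

section

variable {Z : ℕ → ℕ → Prop} (hsymm : ∀ u v, Z u v → Z v u) (hirr : ∀ u, ¬ Z u u)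

lemma rb_del_iff {a b u v : ℕ} :
    ((rbG Z hsymm hirr).deleteEdges {s(a, b)}).Adj u v ↔ del Z a b u v := by
  rw [SimpleGraph.deleteEdges_adj]
  unfold del
  simp only [Set.mem_singleton_iff, Sym2.eq_iff, not_or]
  rfl

lemma rb_reach_iff {a b u v : ℕ} :
    ((rbG Z hsymm hirr).deleteEdges {s(a, b)}).Reachable u v ↔ ReflTransGen (del Z a b) u v := by
  rw [SimpleGraph.reachable_iff_reflTransGen]
  have : ((rbG Z hsymm hirr).deleteEdges {s(a, b)}).Adj = del Z a b := by
    funext x y
    exact propext (rb_del_iff hsymm hirr)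
  rw [this]

lemma rb_NB_iff {u v : ℕ} : rbNB Z u v ↔
    ∃ (x : ℕ) (p : (rbG Z hsymm hirr).Walk x x), p.IsCycle ∧ s(u, v) ∈ p.edges := by
  rw [← SimpleGraph.adj_and_reachable_delete_edges_iff_exists_cycle, rb_reach_iff]
  rfl

include hsymm hirr in
lemma rb_NB_symm {u v : ℕ} (h : rbNB Z u v) : rbNB Z v u := by
  rw [rb_NB_iff hsymm hirr] at h ⊢
  obtain ⟨x, p, hp, he⟩ := h
  refine ⟨x, p, hp, ?_⟩
  rw [Sym2.eq_swap]; exact he

include hirr in
lemma rb_NB_irr (u : ℕ) : ¬ rbNB Z u u := fun h => hirr u h.1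

include hsymm hirr in
/-- (1) A non-bridge edge stays non-bridge among the non-bridges. -/
lemma rb_NB_NB {u v : ℕ} (h : rbNB Z u v) : ReflTransGen (del (rbNB Z) u v) u v := by
  have h0 := h
  rw [rb_NB_iff hsymm hirr] at h
  obtain ⟨x, p, hp, he⟩ := h
  have hs' : ∀ u v, rbNB Z u v → rbNB Z v u := fun u v h => rb_NB_symm hsymm hirr h
  have hi' : ∀ u, ¬ rbNB Z u u := rb_NB_irr hirr
  have hall : ∀ e, e ∈ p.edges → e ∈ (rbG (rbNB Z) hs' hi').edgeSet := by
    intro e hee
    induction e using Sym2.ind with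
    | _ a b =>
      rw [SimpleGraph.mem_edgeSet]
      change rbNB Z a b
      rw [rb_NB_iff hsymm hirr]
      exact ⟨x, p, hp, hee⟩
  have h1 : ∃ (y : ℕ) (q : (rbG (rbNB Z) hs' hi').Walk y y), q.IsCycle ∧ s(u, v) ∈ q.edges := by
    refine ⟨x, p.transfer _ hall, hp.transfer hall, ?_⟩
    rw [SimpleGraph.Walk.edges_transfer]
    exact he
  rw [← SimpleGraph.adj_and_reachable_delete_edges_iff_exists_cycle, rb_reach_iff] at h1
  exact h1.2

end

lemma rb_reroute {D : Finset (ℕ × ℕ)} {u v x y : ℕ}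
    (hr : ReflTransGen (fun x y => (x, y) ∈ D.erase (u, v)) u v)
    (h : ReflTransGen (fun x y => (x, y) ∈ D) x y) :
    ReflTransGen (fun x y => (x, y) ∈ D.erase (u, v)) x y := by
  induction h with
  | refl => exact ReflTransGen.refl
  | @tail c d _ hcd ih =>
    by_cases h2 : (c, d) = (u, v)
    · rw [Prod.mk.injEq] at h2
      rw [h2.1] at ih
      rw [h2.2]
      exact ih.trans hr
    · exact ReflTransGen.tail ih (Finset.mem_erase.mpr ⟨h2, hcd⟩)

/-- (2) A minimal strongly connected orientation (Boesch-Tindell). -/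
lemma rb_exists {H : ℕ → ℕ → Prop} {n : ℕ} (hsymm : ∀ u v, H u v → H v u)
    (hirr : ∀ u, ¬ H u u) (hlt : ∀ u v, H u v → u < n ∧ v < n)
    (hH : ∀ u v, H u v → ReflTransGen (del H u v) u v) :
    ∃ D : ℕ → ℕ → Prop, (∀ a b, D a b → H a b) ∧ (∀ a b, D a b → ¬ D b a) ∧
      ∀ a b, H a b → ReflTransGen D a b := by
  classical
  let F : Finset (Finset (ℕ × ℕ)) := ((Finset.range n ×ˢ Finset.range n).powerset).filter
    (fun D => (∀ a b, (a, b) ∈ D → H a b) ∧ (∀ a b, H a b → (a, b) ∈ D ∨ (b, a) ∈ D) ∧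
      ∀ a b, H a b → ReflTransGen (fun x y => (x, y) ∈ D) a b)
  have hne : F.Nonempty := by
    refine ⟨(Finset.range n ×ˢ Finset.range n).filter (fun q => H q.1 q.2), ?_⟩
    rw [Finset.mem_filter, Finset.mem_powerset]
    have hmem : ∀ a b, (a, b) ∈ (Finset.range n ×ˢ Finset.range n).filter
        (fun q => H q.1 q.2) ↔ H a b := by
      intro a b
      rw [Finset.mem_filter, Finset.mem_product, Finset.mem_range, Finset.mem_range]
      exact ⟨fun h => h.2, fun h => ⟨hlt _ _ h, h⟩⟩
    refine ⟨Finset.filter_subset _ _, fun a b h => (hmem a b).mp h,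
      fun a b h => Or.inl ((hmem a b).mpr h), fun a b h => ?_⟩
    exact ReflTransGen.single ((hmem a b).mpr h)
  obtain ⟨D, hDF, hmin⟩ := Finset.exists_min_image F Finset.card hne
  have hDF' := hDF
  rw [Finset.mem_filter, Finset.mem_powerset] at hDF'
  obtain ⟨hsub, hD1, hD2, hD3⟩ := hDF'
  -- removing one of two opposite darts destroys reachability
  have key : ∀ u v, (u, v) ∈ D → (v, u) ∈ D →
      ¬ ReflTransGen (fun x y => (x, y) ∈ D.erase (u, v)) u v := by
    intro u v huv hvu hr
    have hne' : u ≠ v := by rintro rfl; exact hirr u (hD1 _ _ huv)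
    have hmem : D.erase (u, v) ∈ F := by
      rw [Finset.mem_filter, Finset.mem_powerset]
      refine ⟨(Finset.erase_subset _ _).trans hsub, fun a b h => hD1 _ _ (Finset.mem_of_mem_erase h),
        ?_, ?_⟩
      · intro a b hab
        by_cases h1 : (a, b) = (u, v)
        · right
          rw [Prod.mk.injEq] at h1
          rw [h1.1, h1.2]
          refine Finset.mem_erase.mpr ⟨?_, hvu⟩
          intro h; rw [Prod.mk.injEq] at h; exact hne' h.2
        · by_cases h2 : (b, a) = (u, v)
          · left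
            rw [Prod.mk.injEq] at h2
            rw [h2.1, h2.2]
            refine Finset.mem_erase.mpr ⟨?_, hvu⟩
            intro h; rw [Prod.mk.injEq] at h; exact hne' h.2
          · rcases hD2 a b hab with h | h
            · exact Or.inl (Finset.mem_erase.mpr ⟨h1, h⟩)
            · exact Or.inr (Finset.mem_erase.mpr ⟨h2, h⟩)
      · intro a b hab
        exact rb_reroute hr (hD3 a b hab)
    have h3 := hmin _ hmem
    have h4 := Finset.card_erase_lt_of_mem huv
    omega
  refine ⟨fun a b => (a, b) ∈ D, hD1, ?_, hD3⟩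
  intro u v huv hvu
  have huv' : (u, v) ∈ D := huv
  have hvu' : (v, u) ∈ D := hvu
  have k1 := key u v huv hvu
  have k2 := key v u hvu huv
  -- D-reachability is symmetric
  have hback : ∀ x y, ReflTransGen (fun x y => (x, y) ∈ D) x y →
      ReflTransGen (fun x y => (x, y) ∈ D) y x := by
    intro x y h
    induction h with
    | refl => exact ReflTransGen.refl
    | tail _ hcd ih => exact (hD3 _ _ (hsymm _ _ (hD1 _ _ hcd))).trans ih
  have hsubu : ∀ x, ReflTransGen (fun x y => (x, y) ∈ D.erase (u, v)) u x →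
      ReflTransGen (fun x y => (x, y) ∈ D) u x := fun x h =>
    ReflTransGen.mono (fun a b h => Finset.mem_of_mem_erase h) _ _ h
  -- darts leaving A, B
  have hA : ∀ x y, ReflTransGen (fun x y => (x, y) ∈ D.erase (u, v)) u x → (x, y) ∈ D →
      ReflTransGen (fun x y => (x, y) ∈ D.erase (u, v)) u y ∨ (x = u ∧ y = v) := by
    intro x y hx hxy
    by_cases h : (x, y) = (u, v)
    · right; rw [Prod.mk.injEq] at h; exact h
    · left; exact ReflTransGen.tail hx (Finset.mem_erase.mpr ⟨h, hxy⟩)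
  have hB : ∀ x y, ReflTransGen (fun x y => (x, y) ∈ D.erase (v, u)) v x → (x, y) ∈ D →
      ReflTransGen (fun x y => (x, y) ∈ D.erase (v, u)) v y ∨ (x = v ∧ y = u) := by
    intro x y hx hxy
    by_cases h : (x, y) = (v, u)
    · right; rw [Prod.mk.injEq] at h; exact h
    · left; exact ReflTransGen.tail hx (Finset.mem_erase.mpr ⟨h, hxy⟩)
  -- A ∩ B is empty
  have hAB : ∀ x, ReflTransGen (fun x y => (x, y) ∈ D.erase (u, v)) u x →
      ¬ ReflTransGen (fun x y => (x, y) ∈ D.erase (v, u)) v x := by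
    intro x hxA hxB
    have hclosed : ∀ z, ReflTransGen (fun x y => (x, y) ∈ D) x z →
        ReflTransGen (fun x y => (x, y) ∈ D.erase (u, v)) u z ∧
        ReflTransGen (fun x y => (x, y) ∈ D.erase (v, u)) v z := by
      intro z hz
      induction hz with
      | refl => exact ⟨hxA, hxB⟩
      | @tail c d _ hcd ih =>
        obtain ⟨i1, i2⟩ := ih
        refine ⟨?_, ?_⟩
        · rcases hA c d i1 hcd with h | ⟨h, -⟩
          · exact h
          · rw [h] at i2; exact absurd i2 k2
        · rcases hB c d i2 hcd with h | ⟨h, -⟩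
          · exact h
          · rw [h] at i1; exact absurd i1 k1
    exact k2 (hclosed u (hback _ _ (hsubu x hxA))).2
  -- everything reachable from u is in A ∪ B
  have hAuB : ∀ z, ReflTransGen (fun x y => (x, y) ∈ D) u z →
      ReflTransGen (fun x y => (x, y) ∈ D.erase (u, v)) u z ∨
      ReflTransGen (fun x y => (x, y) ∈ D.erase (v, u)) v z := by
    intro z hz
    induction hz with
    | refl => exact Or.inl ReflTransGen.refl
    | @tail c d _ hcd ih =>
      rcases ih with h | h
      · rcases hA c d h hcd with h' | ⟨-, h'⟩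
        · exact Or.inl h'
        · rw [h']; exact Or.inr ReflTransGen.refl
      · rcases hB c d h hcd with h' | ⟨-, h'⟩
        · exact Or.inr h'
        · rw [h']; exact Or.inl ReflTransGen.refl
  -- the walk from u to v avoiding the edge
  have hwalk : ∀ z, ReflTransGen (del H u v) u z →
      ReflTransGen (fun x y => (x, y) ∈ D.erase (u, v)) u z := by
    intro z hz
    induction hz with
    | refl => exact ReflTransGen.refl
    | @tail c d _ hcd ih =>
      obtain ⟨h1, h2, h3⟩ := hcd
      have hd := hAuB d ((hsubu c ih).trans (hD3 c d h1))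
      rcases hd with hd | hd
      · exact hd
      · exfalso
        rcases hD2 c d h1 with h | h
        · rcases hA c d ih h with h' | h'
          · exact hAB d h' hd
          · exact h2 h'
        · rcases hB d c hd h with h' | h'
          · exact hAB c ih h'
          · exact h2 ⟨h'.2, h'.1⟩
  exact k1 (hwalk v (hH u v (hD1 _ _ huv)))

/-- a walk avoiding an edge -/
lemma rb_avoid {Z : ℕ → ℕ → Prop} (hsymm : ∀ u v, Z u v → Z v u) (hirr : ∀ u, ¬ Z u u)
    {a b x y : ℕ} (q : (rbG Z hsymm hirr).Walk x y) (hq : s(a, b) ∉ q.edges) :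
    ReflTransGen (del Z a b) x y := by
  induction q with
  | nil => exact ReflTransGen.refl
  | @cons u v w h p ih =>
    rw [SimpleGraph.Walk.edges_cons, List.mem_cons, not_or] at hq
    refine ReflTransGen.head ⟨h, ?_, ?_⟩ (ih hq.2)
    · rintro ⟨rfl, rfl⟩; exact hq.1 rfl
    · rintro ⟨rfl, rfl⟩; exact hq.1 Sym2.eq_swap

theorem robbins {Z : ℕ → ℕ → Prop} {n : ℕ} (hsymm : ∀ u v, Z u v → Z v u)
    (hirr : ∀ u, ¬ Z u u) (hlt : ∀ u v, Z u v → u < n ∧ v < n) (P : ℕ → ℕ → Prop)
    (hP : ∀ x y, P x y → ReflTransGen Z x y)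
    (hc : ∀ x y x' y' a b, P x y → P x' y' → Cross Z x y a b → ¬ Cross Z x' y' b a) :
    ∃ O : ℕ → ℕ → Prop, (∀ a b, O a b → Z a b) ∧ (∀ a b, O a b → ¬ O b a) ∧
      ∀ x y, P x y → ReflTransGen O x y := by
  obtain ⟨D, hD1, hD2, hD3⟩ := rb_exists (H := rbNB Z) (n := n)
    (fun u v h => rb_NB_symm hsymm hirr h) (rb_NB_irr hirr) (fun u v h => hlt u v h.1)
    (fun u v h => rb_NB_NB hsymm hirr h)
  refine ⟨fun a b => D a b ∨ ∃ x y, P x y ∧ Cross Z x y a b, ?_, ?_, ?_⟩
  · rintro a b (h | ⟨x, y, _, h⟩)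
    · exact (hD1 _ _ h).1
    · exact h.1
  · rintro a b (h | ⟨x, y, hxy, h⟩) (h' | ⟨x', y', hxy', h'⟩)
    · exact hD2 _ _ h h'
    · exact h'.2.2.2 (rb_NB_symm hsymm hirr (hD1 _ _ h)).2
    · exact h.2.2.2 (rb_NB_symm hsymm hirr (hD1 _ _ h')).2
    · exact hc x y x' y' a b hxy hxy' h h'
  · intro x y hxy
    have hmonoD : ∀ c d, ReflTransGen D c d → ReflTransGen (fun a b => D a b ∨
        ∃ x y, P x y ∧ Cross Z x y a b) c d := fun c d h =>
        ReflTransGen.mono (fun a b h => Or.inl h) _ _ h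
    have main : ∀ (z : ℕ) (p : (rbG Z hsymm hirr).Walk z y) (q : (rbG Z hsymm hirr).Walk x z),
        (q.append p).IsTrail → ReflTransGen (fun a b => D a b ∨
        ∃ x y, P x y ∧ Cross Z x y a b) z y := by
      intro z p
      induction p with
      | nil => intro q _; exact ReflTransGen.refl
      | @cons c d e h p ih =>
        intro q hq
        have hq2 : (SimpleGraph.Walk.append (q.concat h) p).IsTrail := by
          rw [SimpleGraph.Walk.concat_append]; exact hq
        have ih' := ih hxy (q.concat h) hq2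
        have hnd := hq.edges_nodup
        rw [SimpleGraph.Walk.edges_append, SimpleGraph.Walk.edges_cons, List.nodup_append] at hnd
        obtain ⟨-, n2, n3⟩ := hnd
        have m1 : s(c, d) ∉ q.edges := fun hm => n3 _ hm _ List.mem_cons_self rfl
        have m2 : s(c, d) ∉ p.edges := (List.nodup_cons.mp n2).1
        by_cases hb : ReflTransGen (del Z c d) c d
        · exact (hmonoD c d (hD3 c d ⟨h, hb⟩)).trans ih'
        · refine ReflTransGen.head (Or.inr ⟨x, e, hxy, h, rb_avoid hsymm hirr q m1,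
            rb_avoid hsymm hirr p m2, hb⟩) ih'
    have hr : (rbG Z hsymm hirr).Reachable x y := by
      rw [SimpleGraph.reachable_iff_reflTransGen]
      exact hP x y hxy
    obtain ⟨p, hp⟩ := hr.exists_isPath
    refine main x p SimpleGraph.Walk.nil ?_
    rw [SimpleGraph.Walk.nil_append]
    exact hp.isTrail

end Pool.Agent.H614R2.DPO
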