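import Pool.Agent.H614R2.DPO.Conc
import Pool.Agent.H614R2.DPO.TG2
import Pool.Agent.H614R2.DPO.TR

/-!
# Task D: orientations are conflict-free paths of visits
-/

namespace Pool.Agent.H614R2.DPO

open Relation

/-! ### Preliminaries -/

section D

variable {w : ℕ → ℕ → Option ℕ} {n k : ℕ} {fd : ℕ → ℕ → ℕ} {s t : ℕ → ℕ}

/-- the relation of the edges of length `0` -/
def td_Z (w : ℕ → ℕ → Option ℕ) (u v : ℕ) : Prop := w u v = some 0

theorem td_Z_symm (hw : WOk w n) {u v : ℕ} (h : td_Z w u v) : td_Z w v u := by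
  unfold td_Z at *
  rw [hw.symm]; exact h

theorem td_Z_lt (hw : WOk w n) {u v : ℕ} (h : td_Z w u v) : u < n ∧ v < n := by
  apply hw.lt
  unfold td_Z at h
  rw [h]
  simp

theorem td_mono {R R' : ℕ → ℕ → Prop} {x y : ℕ} (h : ReflTransGen R x y)
    (hR : ∀ u v, R u v → R' u v) : ReflTransGen R' x y := by
  induction h with
  | refl => exact ReflTransGen.refl
  | tail _ h2 ih => exact ih.tail (hR _ _ h2)

theorem td_rtg_symm {R : ℕ → ℕ → Prop} (hR : ∀ u v, R u v → R v u) {x y : ℕ}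
    (h : ReflTransGen R x y) : ReflTransGen R y x := by
  induction h with
  | refl => exact ReflTransGen.refl
  | tail _ h2 ih => exact ReflTransGen.head (hR _ _ h2) ih

theorem td_reach_iff {R : ℕ → ℕ → Bool} {n : ℕ} (hR : ∀ u v, R u v = true → v < n) {x y : ℕ} :
    y ∈ reachG R (List.range n) x ↔ x < n ∧ ReflTransGen (fun a b => R a b = true) x y := by
  rw [mem_reachG, List.mem_range]
  refine and_congr_right (fun _ => ⟨fun h => ?_, fun h => ?_⟩)
  · exact td_mono h (fun a b hab => hab.1)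
  · exact td_mono h (fun a b hab => ⟨hab, List.mem_range.2 (hR _ _ hab)⟩)

theorem td_zadj {u v : ℕ} : zadj w u v = true ↔ td_Z w u v := by
  unfold zadj td_Z
  simp

theorem td_zdel {a b u v : ℕ} : zdel w a b u v = true ↔ del (td_Z w) a b u v := by
  unfold zdel del
  rw [Bool.and_eq_true, td_zadj]
  simp only [Bool.and_eq_true, Bool.not_eq_true', Bool.and_eq_false_iff, decide_eq_false_iff_not,
    not_and_or]

theorem td_zc (hw : WOk w n) {x y : ℕ} :
    zc w n x y = true ↔ x < n ∧ ReflTransGen (td_Z w) x y := by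
  unfold zc
  rw [decide_eq_true_iff, td_reach_iff (fun u v h => (td_Z_lt hw (td_zadj.1 h)).2)]
  have : (fun a b => zadj w a b = true) = td_Z w := by
    funext a b
    exact propext td_zadj
  rw [this]

theorem td_crossB (hw : WOk w n) {x y a b : ℕ} :
    crossB w n x y a b = true ↔ x < n ∧ Cross (td_Z w) x y a b := by
  unfold crossB Cross
  have hd : (fun u v => zdel w a b u v = true) = del (td_Z w) a b := by
    funext u v
    exact propext td_zdel
  have hlt : ∀ u v, zdel w a b u v = true → v < n :=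
    fun u v h => (td_Z_lt hw (td_zdel.1 h).1).2
  simp only [Bool.and_eq_true, decide_eq_true_iff, Bool.not_eq_true', decide_eq_false_iff_not,
    td_reach_iff hlt, hd, td_zadj]
  constructor
  · rintro ⟨h1, ⟨h2, h3⟩, ⟨h4, h5⟩, h6⟩
    exact ⟨h2, h1, h3, h5, fun h => h6 ⟨(td_Z_lt hw h1).1, h⟩⟩
  · rintro ⟨h1, h2, h3, h4, h5⟩
    exact ⟨h2, ⟨h1, h3⟩, ⟨(td_Z_lt hw h2).2, h4⟩, fun h => h5 h.2⟩

theorem td_fd_Z (hw : WOk w n) (hfd : ∀ i u v c, w u v = some c → fd i v ≤ fd i u + c)
    (i : ℕ) {u v : ℕ} (h : td_Z w u v) : fd i u = fd i v := by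
  have h1 := hfd i u v 0 h
  have h2 := hfd i v u 0 (td_Z_symm hw h)
  omega

theorem td_fd_rtg (hw : WOk w n) (hfd : ∀ i u v c, w u v = some c → fd i v ≤ fd i u + c)
    (i : ℕ) {u v : ℕ} (h : ReflTransGen (td_Z w) u v) : fd i u = fd i v := by
  induction h with
  | refl => rfl
  | tail _ h2 ih => exact ih.trans (td_fd_Z hw hfd i h2)

theorem td_fd_zc (hw : WOk w n) (hfd : ∀ i u v c, w u v = some c → fd i v ≤ fd i u + c)
    (i : ℕ) {u v : ℕ} (h : zc w n u v = true) : fd i u = fd i v :=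
  td_fd_rtg hw hfd i ((td_zc hw).1 h).2

theorem td_del_symm (hw : WOk w n) {a b u v : ℕ} (h : del (td_Z w) a b u v) :
    del (td_Z w) a b v u :=
  ⟨td_Z_symm hw h.1, fun h' => h.2.2 ⟨h'.2, h'.1⟩, fun h' => h.2.1 ⟨h'.2, h'.1⟩⟩

theorem td_del_swap {Z : ℕ → ℕ → Prop} {a b : ℕ} : del Z b a = del Z a b := by
  funext u v
  unfold del
  apply propext
  constructor
  · rintro ⟨h1, h2, h3⟩
    exact ⟨h1, h3, h2⟩
  · rintro ⟨h1, h2, h3⟩
    exact ⟨h1, h3, h2⟩

theorem td_del_rtg {Z : ℕ → ℕ → Prop} {a b x y : ℕ} (h : ReflTransGen (del Z a b) x y) :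
    ReflTransGen Z x y := td_mono h (fun _ _ h => h.1)

theorem td_cross_fd (hw : WOk w n) (hfd : ∀ i u v c, w u v = some c → fd i v ≤ fd i u + c)
    (i : ℕ) {x y a b : ℕ} (h : Cross (td_Z w) x y a b) : fd i x = fd i a ∧ fd i a = fd i b :=
  ⟨td_fd_rtg hw hfd i (td_del_rtg h.2.1), td_fd_Z hw hfd i h.1⟩

/-- The arcs of the instance. -/
theorem td_A (hw : WOk w n) {i : ℕ} {x y : ℕ × ℕ} :
    (mkInst w n k fd s t).A i x y = true ↔ zc w n x.1 x.2 = true ∧ zc w n y.1 y.2 = true ∧
      ∃ c, w x.2 y.1 = some c ∧ 0 < c ∧ fd i y.1 = fd i x.2 + c := by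
  show (zc w n x.1 x.2 && (zc w n y.1 y.2 &&
    (w x.2 y.1).elim false (fun c => decide (0 < c) && decide (fd i y.1 = fd i x.2 + c)))) = true
    ↔ _
  rw [Bool.and_eq_true, Bool.and_eq_true]
  refine and_congr_right (fun _ => and_congr_right (fun _ => ?_))
  cases h : w x.2 y.1 with
  | none => simp
  | some c => simp

theorem td_A_ne (hw : WOk w n) (hfd : ∀ i u v c, w u v = some c → fd i v ≤ fd i u + c)
    {i : ℕ} {x y : ℕ × ℕ} (h : (mkInst w n k fd s t).A i x y = true) : x ≠ y := by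
  rintro rfl
  obtain ⟨h1, _, c, _, h3, h4⟩ := (td_A hw).1 h
  have := td_fd_zc hw hfd i h1
  omega

theorem td_C (hw : WOk w n) {e e' : (ℕ × ℕ) × (ℕ × ℕ)} :
    (mkInst w n k fd s t).C e e' = true ↔
      ((zc w n e.1.1 e.1.2 = true ∧ zc w n e.2.1 e.2.2 = true) ∧ zc w n e'.1.1 e'.1.2 = true ∧
        zc w n e'.2.1 e'.2.2 = true) ∧
      ((e.1 = e.2 ∧ e'.1 = e'.2 ∧ ∃ a b, Cross (td_Z w) e.1.1 e.1.2 a b ∧
        Cross (td_Z w) e'.1.1 e'.1.2 b a) ∨
      (e.1 ≠ e.2 ∧ e'.1 ≠ e'.2 ∧ e.1.2 = e'.2.1 ∧ e.2.1 = e'.1.2)) := by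
  show ((zc w n e.1.1 e.1.2 && zc w n e.2.1 e.2.2 && (zc w n e'.1.1 e'.1.2 &&
    zc w n e'.2.1 e'.2.2)) &&
    ((decide (e.1 = e.2) && (decide (e'.1 = e'.2) && nodeConf w n e.1 e'.1)) ||
      (decide (e.1 ≠ e.2) && (decide (e'.1 ≠ e'.2) && (decide (e.1.2 = e'.2.1) &&
        decide (e.2.1 = e'.1.2)))))) = true ↔ _
  rw [Bool.and_eq_true, Bool.and_eq_true, Bool.and_eq_true, Bool.and_eq_true, Bool.or_eq_true]
  refine and_congr_right (fun hz => or_congr ?_ ?_)
  · rw [Bool.and_eq_true, Bool.and_eq_true, decide_eq_true_iff, decide_eq_true_iff]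
    refine and_congr_right (fun _ => and_congr_right (fun _ => ?_))
    unfold nodeConf
    rw [List.any_eq_true]
    constructor
    · rintro ⟨a, _, ha⟩
      rw [List.any_eq_true] at ha
      obtain ⟨b, _, hb⟩ := ha
      rw [Bool.and_eq_true, td_crossB hw, td_crossB hw] at hb
      exact ⟨a, b, hb.1.2, hb.2.2⟩
    · rintro ⟨a, b, h1, h2⟩
      have hab := td_Z_lt hw h1.1
      refine ⟨a, List.mem_range.2 hab.1, ?_⟩
      rw [List.any_eq_true]
      refine ⟨b, List.mem_range.2 hab.2, ?_⟩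
      rw [Bool.and_eq_true, td_crossB hw, td_crossB hw]
      exact ⟨⟨((td_zc hw).1 hz.1.1).1, h1⟩, ⟨((td_zc hw).1 hz.2.1).1, h2⟩⟩
  · simp only [Bool.and_eq_true, decide_eq_true_iff]

theorem td_zc_mem (hw : WOk w n) {x : ℕ × ℕ} (h : zc w n x.1 x.2 = true) :
    x ∈ (mkInst w n k fd s t).nodes := by
  show x ∈ (List.range n).flatMap (fun x => ((List.range n).filter (fun y => zc w n x y)).map
    (fun y => (x, y)))
  obtain ⟨h1, h2⟩ := (td_zc hw).1 h
  have h3 : x.2 < n := by
    rcases ReflTransGen.cases_tail h2 with h4 | ⟨c, _, h4⟩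
    · rw [h4]; exact h1
    · exact (td_Z_lt hw h4).2
  rw [List.mem_flatMap]
  refine ⟨x.1, List.mem_range.2 h1, ?_⟩
  rw [List.mem_map]
  exact ⟨x.2, List.mem_filter.2 ⟨List.mem_range.2 h3, h⟩, rfl⟩

theorem mkInst_ok (hw : WOk w n) (hfd : ∀ i u v c, w u v = some c → fd i v ≤ fd i u + c) :
    (mkInst w n k fd s t).Ok where
  memS := by
    intro i x h
    have h' : (zc w n x.1 x.2 && decide (x.1 = s i)) = true := h
    rw [Bool.and_eq_true] at h'
    exact td_zc_mem hw h'.1
  mem := by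
    intro i x y h
    obtain ⟨h1, h2, _⟩ := (td_A hw).1 h
    exact ⟨td_zc_mem hw h1, td_zc_mem hw h2⟩
  inc := by
    intro i x y _ h
    obtain ⟨h1, h2, c, h3, h4, h5⟩ := (td_A hw).1 h
    show fd i x.1 < fd i y.1
    have := td_fd_zc hw hfd i h1
    omega
  up := by
    intro i l x y _ _ h
    obtain ⟨h1, h2, c, h3, h4, h5⟩ := (td_A hw).1 h
    show fd i x.1 + fd l x.1 ≤ fd i y.1 + fd l y.1
    have e1 := td_fd_zc hw hfd i h1
    have e2 := td_fd_zc hw hfd l h1
    have e3 := hfd l y.1 x.2 c (by rw [hw.symm]; exact h3)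
    omega
  dn := by
    intro i l x y _ _ h
    obtain ⟨h1, h2, c, h3, h4, h5⟩ := (td_A hw).1 h
    show fd i x.1 + fd l y.1 ≤ fd i y.1 + fd l x.1
    have e1 := td_fd_zc hw hfd i h1
    have e2 := td_fd_zc hw hfd l h1
    have e3 := hfd l x.2 y.1 c h3
    omega
  conf := by
    intro e e' l _ h
    show fd l e.1.1 = fd l e'.2.1 ∧ fd l e.2.1 = fd l e'.1.1
    obtain ⟨⟨⟨z1, z2⟩, z3, z4⟩, h2⟩ := (td_C hw).1 h
    rcases h2 with ⟨h3, h4, a, b, h5, h6⟩ | ⟨h3, h4, h5, h6⟩
    · have e1 := td_cross_fd hw hfd l h5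
      have e2 := td_cross_fd hw hfd l h6
      rw [← h3, ← h4]
      constructor <;> omega
    · have e1 := td_fd_zc hw hfd l z1
      have e2 := td_fd_zc hw hfd l z3
      rw [h5] at e1
      rw [← h6] at e2
      exact ⟨e1, e2.symm⟩
  symm := by
    intro e e' h
    rw [td_C hw] at h ⊢
    obtain ⟨⟨⟨z1, z2⟩, z3, z4⟩, h2⟩ := h
    refine ⟨⟨⟨z3, z4⟩, z1, z2⟩, ?_⟩
    rcases h2 with ⟨h3, h4, a, b, h5, h6⟩ | ⟨h3, h4, h5, h6⟩
    · exact Or.inl ⟨h4, h3, b, a, h6, h5⟩
    · exact Or.inr ⟨h4, h3, h6.symm, h5.symm⟩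

/-! ### From orientations to paths -/

theorem td_cross_O (hw : WOk w n) {O : ℕ → ℕ → Prop} {x y a b : ℕ}
    (h : ReflTransGen (fun u v => O u v ∧ td_Z w u v) x y) (hc : Cross (td_Z w) x y a b) :
    O a b := by
  by_contra hO
  have hsym : ∀ u v, del (td_Z w) a b u v → del (td_Z w) a b v u :=
    fun u v h => td_del_symm hw h
  have key : ∀ u, ReflTransGen (fun u v => O u v ∧ td_Z w u v) x u →
      ReflTransGen (del (td_Z w) a b) a u := by
    intro u hu
    induction hu with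
    | refl => exact td_rtg_symm hsym hc.2.1
    | @tail u v _ h2 ih =>
      by_cases h3 : u = a ∧ v = b
      · obtain ⟨rfl, rfl⟩ := h3
        exact absurd h2.1 hO
      · by_cases h4 : u = b ∧ v = a
        · rw [h4.2]
        · exact ih.tail ⟨h2.2, h3, h4⟩
  exact hc.2.2.2 ((key y h).trans (td_rtg_symm hsym hc.2.2.1))

/-- The elements of the paths built from an orientation. -/
def td_El (w : ℕ → ℕ → Option ℕ) (n k : ℕ) (fd : ℕ → ℕ → ℕ) (s t : ℕ → ℕ)
    (O : ℕ → ℕ → Prop) (i : ℕ) (e : (ℕ × ℕ) × (ℕ × ℕ)) : Prop :=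
  (e.1 = e.2 ∧ ReflTransGen (fun u v => O u v ∧ td_Z w u v) e.1.1 e.1.2) ∨
  ((mkInst w n k fd s t).A i e.1 e.2 = true ∧ O e.1.2 e.2.1)

theorem td_build (hw : WOk w n)
    (hfd : ∀ i u v c, w u v = some c → fd i v ≤ fd i u + c) {O : ℕ → ℕ → Prop}
    (hO : ∀ u v, O u v → w u v ≠ none) (i : ℕ) {u tt : ℕ} (htt : tt < n)
    (h : ReflTransGen (fun u v => O u v ∧ Tight w (fd i) u v) u tt) :
    ∃ y z E, Pth (fun a b => (mkInst w n k fd s t).A i a b = true) (u, y) z E ∧ z.2 = tt ∧
      zc w n z.1 z.2 = true ∧ zc w n u y = true ∧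
      ∀ e ∈ E, td_El w n k fd s t O i e := by
  induction h using ReflTransGen.head_induction_on with
  | refl =>
    have hz : zc w n tt tt = true := (td_zc hw).2 ⟨htt, ReflTransGen.refl⟩
    refine ⟨tt, (tt, tt), [((tt, tt), (tt, tt))], Pth.single _, rfl, hz, hz, ?_⟩
    intro e he
    rw [List.mem_singleton] at he
    subst he
    exact Or.inl ⟨rfl, ReflTransGen.refl⟩
  | @head u v h1 _ ih =>
    obtain ⟨y, z, E, hE, hz, hzz, hvy, hel⟩ := ih
    obtain ⟨hOuv, c, hc, hf⟩ := h1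
    have hun : u < n := (hw.lt _ _ (hO _ _ hOuv)).1
    rcases Nat.eq_zero_or_pos c with rfl | hcp
    · -- an edge of length 0
      have huy : zc w n u y = true :=
        (td_zc hw).2 ⟨hun, ReflTransGen.head hc ((td_zc hw).1 hvy).2⟩
      cases hE with
      | single =>
        refine ⟨y, (u, y), [((u, y), (u, y))], Pth.single _, hz, huy, huy, ?_⟩
        intro e he
        rw [List.mem_singleton] at he
        subst he
        refine Or.inl ⟨rfl, ?_⟩
        have h3 := hel ((v, y), (v, y)) (by simp)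
        rcases h3 with h3 | h3
        · exact ReflTransGen.head ⟨hOuv, hc⟩ h3.2
        · exact absurd rfl (td_A_ne hw hfd h3.1)
      | @cons _ q _ E0 hR hE0 =>
        have hR' : (mkInst w n k fd s t).A i (u, y) q = true := by
          rw [td_A hw] at hR ⊢
          exact ⟨huy, hR.2⟩
        refine ⟨y, z, _, Pth.cons hR' hE0, hz, hzz, huy, ?_⟩
        intro e he
        rw [List.mem_cons, List.mem_cons] at he
        rcases he with rfl | rfl | he
        · refine Or.inl ⟨rfl, ?_⟩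
          have h3 := hel ((v, y), (v, y)) (by simp)
          rcases h3 with h3 | h3
          · exact ReflTransGen.head ⟨hOuv, hc⟩ h3.2
          · exact absurd rfl (td_A_ne hw hfd h3.1)
        · refine Or.inr ⟨hR', ?_⟩
          have h3 := hel ((v, y), q) (by simp)
          rcases h3 with h3 | h3
          · exact absurd h3.1 (td_A_ne hw hfd hR)
          · exact h3.2
        · exact hel e (by simp [he])
    · -- a longer edge
      have huu : zc w n u u = true := (td_zc hw).2 ⟨hun, ReflTransGen.refl⟩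
      have hR : (mkInst w n k fd s t).A i (u, u) (v, y) = true :=
        (td_A hw).2 ⟨huu, hvy, c, hc, hcp, hf⟩
      refine ⟨u, z, _, Pth.cons hR hE, hz, hzz, huu, ?_⟩
      intro e he
      rw [List.mem_cons, List.mem_cons] at he
      rcases he with rfl | rfl | he
      · exact Or.inl ⟨rfl, ReflTransGen.refl⟩
      · exact Or.inr ⟨hR, hOuv⟩
      · exact hel e he

theorem td_mpr (hw : WOk w n)
    (hfd : ∀ i u v c, w u v = some c → fd i v ≤ fd i u + c) (ht : ∀ i < k, t i < n)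
    (h : Pres w k fd s t) : (mkInst w n k fd s t).Solvable := by
  classical
  obtain ⟨O, hO1, hO2, hO3⟩ := h
  have key : ∀ i, ∃ E : List ((ℕ × ℕ) × (ℕ × ℕ)), i < k →
      (∃ x z, (mkInst w n k fd s t).S i x = true ∧ (mkInst w n k fd s t).T i z = true ∧
        Pth (fun a b => (mkInst w n k fd s t).A i a b = true) x z E) ∧
      ∀ e ∈ E, td_El w n k fd s t O i e := by
    intro i
    by_cases hi : i < k
    · obtain ⟨y, z, E, hE, h1, h2, h3, h4⟩ :=
        td_build (k := k) (s := s) (t := t) hw hfd hO1 i (ht i hi) (hO3 i hi)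
      refine ⟨E, fun _ => ⟨⟨(s i, y), z, ?_, ?_, hE⟩, h4⟩⟩
      · show (zc w n (s i) y && decide (s i = s i)) = true
        rw [h3]; simp
      · show (zc w n z.1 z.2 && decide (z.2 = t i)) = true
        rw [h2]; simp [h1]
    · exact ⟨[], fun h => absurd h hi⟩
  choose E hE using key
  refine ⟨E, fun i hi => (hE i hi).1, ?_⟩
  intro i hi j hj hij e he e' he'
  rw [Bool.eq_false_iff]
  intro hC
  have hel := (hE i hi).2 e he
  have hel' := (hE j hj).2 e' he'
  obtain ⟨_, hc⟩ := (td_C hw).1 hC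
  rcases hc with ⟨h3, h4, a, b, h5, h6⟩ | ⟨h3, h4, h5, h6⟩
  · rcases hel with hel | hel
    · rcases hel' with hel' | hel'
      · exact hO2 a b (td_cross_O hw hel.2 h5) (td_cross_O hw hel'.2 h6)
      · exact td_A_ne hw hfd hel'.1 h4
    · exact td_A_ne hw hfd hel.1 h3
  · rcases hel with hel | hel
    · exact h3 hel.1
    · rcases hel' with hel' | hel'
      · exact h4 hel'.1
      · have h7 := hel'.2
        rw [← h5, ← h6] at h7
        exact hO2 _ _ hel.2 h7

/-! ### From paths to orientations -/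

theorem td_pth_el {X : Type} {R : X → X → Prop} {x z : X} {E : List (X × X)}
    (h : Pth R x z E) : ∀ e ∈ E, e.1 = e.2 ∨ R e.1 e.2 := by
  induction h with
  | single x =>
    intro e he
    rw [List.mem_singleton] at he
    subst he
    exact Or.inl rfl
  | cons hR _ ih =>
    intro e he
    rw [List.mem_cons, List.mem_cons] at he
    rcases he with rfl | rfl | he
    · exact Or.inl rfl
    · exact Or.inr hR
    · exact ih e he

/-- All the nodes of a path satisfy `V` if the first one does. -/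
theorem td_pth_val {X : Type} {R : X → X → Prop} {V : X → Prop}
    (hV : ∀ x y, R x y → V y) {x z : X} {E : List (X × X)}
    (h : Pth R x z E) : V x → ∀ e ∈ E, V e.1 ∧ V e.2 := by
  induction h with
  | single x =>
    intro hx e he
    rw [List.mem_singleton] at he
    subst he
    exact ⟨hx, hx⟩
  | cons hR _ ih =>
    intro hx e he
    have hy := hV _ _ hR
    rw [List.mem_cons, List.mem_cons] at he
    rcases he with rfl | rfl | he
    · exact ⟨hx, hx⟩
    · exact ⟨hx, hy⟩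
    · exact ih hy e he

theorem td_pth_le {X : Type} {R : X → X → Prop} {g : X → ℕ} (hg : ∀ x y, R x y → g x < g y)
    {x z : X} {E : List (X × X)} (h : Pth R x z E) : ∀ e ∈ E, g x ≤ g e.1 ∧ g x ≤ g e.2 := by
  induction h with
  | single x =>
    intro e he
    rw [List.mem_singleton] at he
    subst he
    exact ⟨le_rfl, le_rfl⟩
  | cons hR _ ih =>
    intro e he
    have hy := hg _ _ hR
    rw [List.mem_cons, List.mem_cons] at he
    rcases he with rfl | rfl | he
    · exact ⟨le_rfl, le_rfl⟩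
    · exact ⟨le_rfl, hy.le⟩
    · exact ⟨hy.le.trans (ih e he).1, hy.le.trans (ih e he).2⟩

theorem td_pth_inj {X : Type} {R : X → X → Prop} {g : X → ℕ} (hg : ∀ x y, R x y → g x < g y)
    {x z : X} {E : List (X × X)} (h : Pth R x z E) :
    ∀ v v', (v, v) ∈ E → (v', v') ∈ E → g v = g v' → v = v' := by
  induction h with
  | single x =>
    intro v v' hv hv' _
    rw [List.mem_singleton, Prod.mk.injEq] at hv hv'
    rw [hv.1, hv'.1]
  | @cons x y z E hR hE ih =>
    intro v v' hv hv' hgv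
    have hxy := hg _ _ hR
    have hle := td_pth_le hg hE
    rw [List.mem_cons, List.mem_cons, Prod.mk.injEq, Prod.mk.injEq] at hv hv'
    have hbad : ∀ u, u = x ∧ u = y → False := by
      rintro u ⟨rfl, rfl⟩
      exact lt_irrefl _ hxy
    rcases hv with hv | hv | hv
    · rcases hv' with hv' | hv' | hv'
      · rw [hv.1, hv'.1]
      · exact (hbad _ hv').elim
      · have := (hle _ hv').1
        simp only at this
        rw [hv.1] at hgv
        omega
    · exact (hbad _ hv).elim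
    · rcases hv' with hv' | hv' | hv'
      · have := (hle _ hv).1
        simp only at this
        rw [hv'.1] at hgv
        omega
      · exact (hbad _ hv').elim
      · exact ih v v' hv hv' hgv

theorem td_mp (hw : WOk w n)
    (hfd : ∀ i u v c, w u v = some c → fd i v ≤ fd i u + c)
    (h : (mkInst w n k fd s t).Solvable) : Pres w k fd s t := by
  classical
  obtain ⟨E, hE, hC⟩ := h
  have hE' : ∀ i < k, ∃ x z, (mkInst w n k fd s t).S i x = true ∧
    (mkInst w n k fd s t).T i z = true ∧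
      Pth (fun a b => (mkInst w n k fd s t).A i a b = true) x z (E i) := hE
  have hC' : ∀ i < k, ∀ j < k, i ≠ j → ∀ e ∈ E i, ∀ e' ∈ E j,
    (mkInst w n k fd s t).C e e' = false := hC
  clear hE hC
  -- validity of the visits
  have hval : ∀ i < k, ∀ e ∈ E i, zc w n e.1.1 e.1.2 = true ∧ zc w n e.2.1 e.2.2 = true := by
    intro i hi
    obtain ⟨x, z, hS, _, hp⟩ := hE' i hi
    have hS' : (zc w n x.1 x.2 && decide (x.1 = s i)) = true := hS
    rw [Bool.and_eq_true] at hS'
    exact td_pth_val (V := fun x => zc w n x.1 x.2 = true)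
      (fun x y hxy => ((td_A hw).1 hxy).2.1) hp hS'.1
  have hinc : ∀ i x y, (mkInst w n k fd s t).A i x y = true → fd i x.1 < fd i y.1 := by
    intro i x y hxy
    obtain ⟨h1, h2, c, h3, h4, h5⟩ := (td_A hw).1 hxy
    have := td_fd_zc hw hfd i h1
    omega
  have harc : ∀ i < k, ∀ e ∈ E i, e.1 ≠ e.2 → ∃ c, w e.1.2 e.2.1 = some c ∧ 0 < c ∧
      fd i e.2.1 = fd i e.1.2 + c := by
    intro i hi e he hne
    obtain ⟨x, z, _, _, hp⟩ := hE' i hi
    rcases td_pth_el hp e he with h | h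
    · exact absurd h hne
    · exact ((td_A hw).1 h).2.2
  -- Robbins
  obtain ⟨OZ, hOZ1, hOZ2, hOZ3⟩ := robbins (Z := td_Z w) (n := n)
    (fun u v h => td_Z_symm hw h) (fun u h => by
      have := hw.loop u
      unfold td_Z at h
      rw [this] at h
      simp at h) (fun u v h => td_Z_lt hw h)
    (fun x y => ∃ i < k, ((x, y), (x, y)) ∈ E i)
    (by
      rintro x y ⟨i, hi, hm⟩
      exact ((td_zc hw).1 (hval i hi _ hm).1).2)
    (by
      rintro x y x' y' a b ⟨i, hi, hm⟩ ⟨j, hj, hm'⟩ hc hc'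
      by_cases hij : i = j
      · subst hij
        obtain ⟨x0, z0, _, _, hp⟩ := hE' i hi
        have e1 := td_cross_fd hw hfd i hc
        have e2 := td_cross_fd hw hfd i hc'
        have heq := td_pth_inj (g := fun v : ℕ × ℕ => fd i v.1)
          (fun x y hxy => hinc i x y hxy) hp (x, y) (x', y') hm hm' (by
            show fd i x = fd i x'
            omega)
        rw [Prod.mk.injEq] at heq
        obtain ⟨rfl, rfl⟩ := heq
        have h1 := hc.2.1
        have h2 := hc'.2.1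
        rw [td_del_swap] at h2
        exact hc.2.2.2 ((td_rtg_symm (fun u v h => td_del_symm hw h) h1).trans h2)
      · have h1 := hC' i hi j hj hij _ hm _ hm'
        rw [Bool.eq_false_iff] at h1
        exact h1 ((td_C hw).2 ⟨⟨hval i hi _ hm, hval j hj _ hm'⟩,
          Or.inl ⟨rfl, rfl, a, b, hc, hc'⟩⟩))
  refine ⟨fun u v => OZ u v ∨ ∃ i < k, ∃ e ∈ E i, e.1 ≠ e.2 ∧ e.1.2 = u ∧ e.2.1 = v,
    ?_, ?_, ?_⟩
  · rintro u v (h | ⟨i, hi, e, he, hne, rfl, rfl⟩)
    · have := hOZ1 _ _ h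
      unfold td_Z at this
      rw [this]
      simp
    · obtain ⟨c, hc, _⟩ := harc i hi e he hne
      rw [hc]
      simp
  · rintro u v (h | ⟨i, hi, e, he, hne, rfl, rfl⟩) (h' | ⟨j, hj, e', he', hne', h1, h2⟩)
    · exact hOZ2 _ _ h h'
    · obtain ⟨c, hc, hcp, _⟩ := harc j hj e' he' hne'
      have h3 := td_Z_symm hw (hOZ1 _ _ h)
      unfold td_Z at h3
      rw [h1, h2, h3, Option.some.injEq] at hc
      omega
    · obtain ⟨c, hc, hcp, _⟩ := harc i hi e he hne
      have h3 := td_Z_symm hw (hOZ1 _ _ h')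
      unfold td_Z at h3
      rw [h3, Option.some.injEq] at hc
      omega
    · by_cases hij : i = j
      · subst hij
        obtain ⟨c, _, hcp, hf⟩ := harc i hi e he hne
        obtain ⟨c', _, hcp', hf'⟩ := harc i hi e' he' hne'
        rw [h1, h2] at hf'
        omega
      · have h3 := hC' i hi j hj hij _ he _ he'
        rw [Bool.eq_false_iff] at h3
        exact h3 ((td_C hw).2 ⟨⟨hval i hi _ he, hval j hj _ he'⟩,
          Or.inr ⟨hne, hne', h2.symm, h1.symm⟩⟩)
  · intro i hi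
    obtain ⟨x, z, hS, hT, hp⟩ := hE' i hi
    have hS' : (zc w n x.1 x.2 && decide (x.1 = s i)) = true := hS
    have hT' : (zc w n z.1 z.2 && decide (z.2 = t i)) = true := hT
    rw [Bool.and_eq_true, decide_eq_true_iff] at hS' hT'
    rw [← hS'.2, ← hT'.2]
    -- visits
    have hvis : ∀ x : ℕ × ℕ, (x, x) ∈ E i →
        ReflTransGen (fun u v => (OZ u v ∨ ∃ i < k, ∃ e ∈ E i, e.1 ≠ e.2 ∧ e.1.2 = u ∧
          e.2.1 = v) ∧ Tight w (fd i) u v) x.1 x.2 := by
      intro x hx
      refine td_mono (hOZ3 x.1 x.2 ⟨i, hi, hx⟩) (fun a b hab => ⟨Or.inl hab, 0, hOZ1 _ _ hab, ?_⟩)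
      rw [td_fd_Z hw hfd i (hOZ1 _ _ hab)]
      rfl
    have key : ∀ (x z : ℕ × ℕ) (F : List ((ℕ × ℕ) × (ℕ × ℕ))),
        Pth (fun a b => (mkInst w n k fd s t).A i a b = true) x z F → (∀ e ∈ F, e ∈ E i) →
        ReflTransGen (fun u v => (OZ u v ∨ ∃ i < k, ∃ e ∈ E i, e.1 ≠ e.2 ∧ e.1.2 = u ∧
          e.2.1 = v) ∧ Tight w (fd i) u v) x.1 z.2 := by
      intro x z F hF
      induction hF with
      | single x =>
        intro hsub
        exact hvis x (hsub _ (by simp))
      | @cons x y z F hR _ ih =>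
        intro hsub
        have h1 := hvis x (hsub _ (by simp))
        have h2 := ih (fun e he => hsub e (by simp [he]))
        have h3 : (x, y) ∈ E i := hsub _ (by simp)
        obtain ⟨_, _, c, hc, hcp, hf⟩ := (td_A hw).1 hR
        refine h1.trans (ReflTransGen.head ⟨Or.inr ⟨i, hi, (x, y), h3, ?_, rfl, rfl⟩, c, hc, hf⟩ h2)
        exact td_A_ne hw hfd hR
    exact key x z (E i) hp (fun e he => he)

theorem mkInst_solvable (hw : WOk w n)
    (hfd : ∀ i u v c, w u v = some c → fd i v ≤ fd i u + c) (hs : ∀ i < k, s i < n)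
    (ht : ∀ i < k, t i < n) : (mkInst w n k fd s t).Solvable ↔ Pres w k fd s t :=
  ⟨td_mp hw hfd, td_mpr hw hfd ht⟩

end D

end Pool.Agent.H614R2.DPO
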