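import Pool.Agent.H614R2.DPO.Conc
import Pool.Agent.H614R2.DPO.TP1
import Pool.Agent.H671R2.PolyAuto

/-!
# Task P2: the instance is computed in polynomial time
-/

namespace Pool.Agent.H614R2.DPO

open Relation Pool.Agent.NPC

theorem p2_sz_filter_le {X : Type} [TEnc X] (p : X → Bool) (l : List X) :
    sz (l.filter p) ≤ sz l := by
  induction l with
  | nil => simp
  | cons x l ih =>
    rw [List.filter_cons]
    split
    · rw [sz_list_cons, sz_list_cons]; omega
    · rw [sz_list_cons]; omega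

theorem p2_poly_reachG {α X : Type} [TEnc α] [TEnc X] [DecidableEq X] {R : α → X → X → Bool}
    {S : α → List X} {x : α → X}
    (hR : Poly (fun p : α × X × X => R p.1 p.2.1 p.2.2)) (hS : Poly S) (hx : Poly x) :
    Poly (fun a => reachG (R a) (S a) (x a)) := by
  obtain ⟨q, hq⟩ := hS.sz_le
  unfold reachG
  refine Poly.iterLen (l := S) (s := fun a => (S a).filter (fun y => decide (y = x a)))
    (F := fun a L => (S a).filter (fun y => decide (y ∈ L) || L.any (fun z => R a z y)))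
    hS ?_ ?_ q ?_
  · fun_prop
  · fun_prop
  · intro a k _
    cases k with
    | zero => exact (p2_sz_filter_le _ _).trans (hq a)
    | succ k =>
      rw [Function.iterate_succ', Function.comp_apply]
      exact (p2_sz_filter_le _ _).trans (hq a)

attribute [local fun_prop] p2_poly_reachG
attribute [local irreducible] reachG

variable {α : Type} [TEnc α]

/-- `zc` with a general list -/
def p2zc (w : ℕ → ℕ → Option ℕ) (R : List ℕ) (x y : ℕ) : Bool :=
  decide (y ∈ reachG (zadj w) R x)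

/-- `crossB` with a general list -/
def p2cross (w : ℕ → ℕ → Option ℕ) (R : List ℕ) (x y a b : ℕ) : Bool :=
  zadj w a b && (decide (a ∈ reachG (zdel w a b) R x) &&
    (decide (y ∈ reachG (zdel w a b) R b) &&
      !(decide (b ∈ reachG (zdel w a b) R a))))

/-- `nodeConf` with a general list -/
def p2conf (w : ℕ → ℕ → Option ℕ) (R : List ℕ) (v v' : ℕ × ℕ) : Bool :=
  R.any (fun a => R.any (fun b => p2cross w R v.1 v.2 a b && p2cross w R v'.1 v'.2 b a))

theorem p2zc_eq (w : ℕ → ℕ → Option ℕ) (n x y : ℕ) : p2zc w (List.range n) x y = zc w n x y :=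
  rfl

theorem p2conf_eq (w : ℕ → ℕ → Option ℕ) (n : ℕ) (v v' : ℕ × ℕ) :
    p2conf w (List.range n) v v' = nodeConf w n v v' := rfl

theorem p2_zadj {w : α → ℕ → ℕ → Option ℕ} {u v : α → ℕ}
    (hw : Poly (fun p : α × ℕ × ℕ => w p.1 p.2.1 p.2.2)) (hu : Poly u) (hv : Poly v) :
    Poly (fun a => zadj (w a) (u a) (v a)) := by
  unfold zadj
  fun_prop

attribute [local fun_prop] p2_zadj
attribute [local irreducible] zadj

theorem p2_zdel {w : α → ℕ → ℕ → Option ℕ} {a b u v : α → ℕ}
    (hw : Poly (fun p : α × ℕ × ℕ => w p.1 p.2.1 p.2.2)) (ha : Poly a) (hb : Poly b)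
    (hu : Poly u) (hv : Poly v) :
    Poly (fun x => zdel (w x) (a x) (b x) (u x) (v x)) := by
  unfold zdel
  fun_prop

attribute [local fun_prop] p2_zdel
attribute [local irreducible] zdel

theorem p2_zc {w : α → ℕ → ℕ → Option ℕ} {R : α → List ℕ} {u v : α → ℕ}
    (hw : Poly (fun p : α × ℕ × ℕ => w p.1 p.2.1 p.2.2)) (hR : Poly R) (hu : Poly u)
    (hv : Poly v) : Poly (fun a => p2zc (w a) (R a) (u a) (v a)) := by
  unfold p2zc
  fun_prop

attribute [local fun_prop] p2_zc
attribute [local irreducible] p2zc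

theorem p2_cross {w : α → ℕ → ℕ → Option ℕ} {R : α → List ℕ} {x y a b : α → ℕ}
    (hw : Poly (fun p : α × ℕ × ℕ => w p.1 p.2.1 p.2.2)) (hR : Poly R) (hx : Poly x)
    (hy : Poly y) (ha : Poly a) (hb : Poly b) :
    Poly (fun z => p2cross (w z) (R z) (x z) (y z) (a z) (b z)) := by
  unfold p2cross
  fun_prop

attribute [local fun_prop] p2_cross
attribute [local irreducible] p2cross

theorem p2_conf {w : α → ℕ → ℕ → Option ℕ} {R : α → List ℕ} {v v' : α → ℕ × ℕ}
    (hw : Poly (fun p : α × ℕ × ℕ => w p.1 p.2.1 p.2.2)) (hR : Poly R) (hv : Poly v)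
    (hv' : Poly v') : Poly (fun z => p2conf (w z) (R z) (v z) (v' z)) := by
  unfold p2conf
  fun_prop

attribute [local fun_prop] p2_conf
attribute [local irreducible] p2conf

theorem poly_mkInst {α : Type} [TEnc α] (k : ℕ) {w : α → ℕ → ℕ → Option ℕ} {n : α → ℕ}
    {fd : α → ℕ → ℕ → ℕ} {s t : α → ℕ → ℕ}
    (hw : Poly (fun p : α × ℕ × ℕ => w p.1 p.2.1 p.2.2)) (hn : UPoly n)
    (hfd : Poly (fun p : α × ℕ × ℕ => fd p.1 p.2.1 p.2.2))
    (hs : Poly (fun p : α × ℕ => s p.1 p.2)) (ht : Poly (fun p : α × ℕ => t p.1 p.2)) :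
    Poly (fun a => solve (mkInst (w a) (n a) k (fd a) (s a) (t a))) := by
  obtain ⟨R, hR, hRn⟩ : ∃ R : α → List ℕ, Poly R ∧ ∀ a, R a = List.range (n a) :=
    ⟨fun a => List.range (n a), hn.range, fun _ => rfl⟩
  have key : Poly (fun a => solve (X := ℕ × ℕ) ⟨k,
      (R a).flatMap (fun x => ((R a).filter (fun y => p2zc (w a) (R a) x y)).map
        (fun y => (x, y))),
      fun i x => fd a i x.1,
      fun i x y => p2zc (w a) (R a) x.1 x.2 && (p2zc (w a) (R a) y.1 y.2 &&
        (w a x.2 y.1).elim false (fun c => decide (0 < c) && decide (fd a i y.1 = fd a i x.2 + c))),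
      fun i x => p2zc (w a) (R a) x.1 x.2 && decide (x.1 = s a i),
      fun i x => p2zc (w a) (R a) x.1 x.2 && decide (x.2 = t a i),
      fun e e' => (p2zc (w a) (R a) e.1.1 e.1.2 && p2zc (w a) (R a) e.2.1 e.2.2 &&
        (p2zc (w a) (R a) e'.1.1 e'.1.2 && p2zc (w a) (R a) e'.2.1 e'.2.2)) &&
        ((decide (e.1 = e.2) && (decide (e'.1 = e'.2) && p2conf (w a) (R a) e.1 e'.1)) ||
          (decide (e.1 ≠ e.2) && (decide (e'.1 ≠ e'.2) && (decide (e.1.2 = e'.2.1) &&
            decide (e.2.1 = e'.1.2)))))⟩) := by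
    refine poly_solve k ?_ ?_ ?_ ?_ ?_ ?_
    · fun_prop
    · fun_prop
    · fun_prop
    · fun_prop
    · fun_prop
    · fun_prop
  refine key.congr fun a => ?_
  rw [hRn a]
  simp only [p2zc_eq, p2conf_eq]
  rfl

end Pool.Agent.H614R2.DPO
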