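import Pool.Agent.H614R2.DPO.Conc
import Pool.Agent.H614R2.DPO.Defs

/-!
# Task W: distances by simple paths and tight walks
-/

namespace Pool.Agent.H614R2.DPO

open Relation Pool.Agent.NPC

theorem w_wk_append {w : ℕ → ℕ → Option ℕ} {a b x c d : ℕ} (h : Wk w a b c) (h' : Wk w b x d) :
    Wk w a x (c + d) := by
  induction h with
  | nil u => simpa using h'
  | cons h1 _ ih =>
    rw [Nat.add_assoc]
    exact Wk.cons h1 (ih h')

/-- every walk contains a path which is not longer -/
theorem w_shorten {V : Type} {R : V → V → Prop} {len : Sym2 V → ℚ}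
    (hnn : ∀ u v, R u v → 0 ≤ len s(u, v)) {b : V} :
    ∀ (l : List V) (a : V), l.IsChain R → l.head? = some a → l.getLast? = some b →
      ∃ l', IsPath R a b l' ∧ walkLength len l' ≤ walkLength len l := by
  classical
  have hdrop : ∀ (l1 l2 : List V), (l1 ++ l2).IsChain R →
      walkLength len l2 ≤ walkLength len (l1 ++ l2) := by
    intro l1 l2
    induction l1 with
    | nil => intro _; simp
    | cons x l1 ih =>
      intro hc
      have hc' : (l1 ++ l2).IsChain R := by
        rw [List.cons_append] at hc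
        exact hc.tail
      refine (ih hc').trans ?_
      rw [List.cons_append] at hc ⊢
      match h : l1 ++ l2 with
      | [] => simp [walkLength]
      | y :: l =>
        rw [h] at hc
        have : R x y := by
          rw [List.isChain_cons_cons] at hc
          exact hc.1
        have := hnn x y this
        simp only [walkLength]
        linarith
  intro l
  induction l with
  | nil => intro a _ h; simp at h
  | cons x l ih =>
    intro a hc hh hl
    have hxa : x = a := by simpa using hh
    subst hxa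
    match l, ih, hc, hl with
    | [], _, _, hl =>
      have : x = b := by simpa using hl
      subst this
      exact ⟨[x], ⟨by simp, by simp, by simp, by simp⟩, le_refl _⟩
    | v :: l, ih, hc, hl =>
      rw [List.isChain_cons_cons] at hc
      have hl' : (v :: l).getLast? = some b := by
        rw [List.getLast?_cons_cons] at hl
        exact hl
      obtain ⟨l', ⟨hn, hcl, hh', hll⟩, hlen⟩ := ih v hc.2 (by simp) hl'
      have h0 := hnn x v hc.1
      have hw : walkLength len (x :: v :: l) = len s(x, v) + walkLength len (v :: l) := rfl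
      by_cases hx : x ∈ l'
      · obtain ⟨l1, l2, rfl⟩ := List.append_of_mem hx
        refine ⟨x :: l2, ⟨?_, ?_, by simp, ?_⟩, ?_⟩
        · exact (List.nodup_append.mp hn).2.1
        · exact hcl.right_of_append
        · rw [List.getLast?_append] at hll
          simpa using hll
        · have := hdrop l1 (x :: l2) hcl
          linarith
      · match l', hn, hcl, hh', hll, hlen, hx with
        | [], _, _, hh', _, _, _ => simp at hh'
        | y :: l', hn, hcl, hh', hll, hlen, hx =>
          have hyv : y = v := by simpa using hh'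
          subst hyv
          refine ⟨x :: y :: l', ⟨?_, ?_, by simp, ?_⟩, ?_⟩
          · exact List.nodup_cons.mpr ⟨hx, hn⟩
          · rw [List.isChain_cons_cons]
            exact ⟨hc.1, hcl⟩
          · rw [List.getLast?_cons_cons]
            exact hll
          · have : walkLength len (x :: y :: l') = len s(x, y) + walkLength len (y :: l') := rfl
            linarith

theorem w_list_wk {n : ℕ} {G : SimpleGraph (Fin n)} {len : Sym2 (Fin n) → ℚ}
    {w : ℕ → ℕ → Option ℕ} {D : ℚ}
    (hw : ∀ u v : Fin n, G.Adj u v → ∃ c : ℕ, w u v = some c ∧ (c : ℚ) = len s(u, v) * D)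
    {b : Fin n} :
    ∀ (l : List (Fin n)) (a : Fin n), l.IsChain G.Adj → l.head? = some a →
      l.getLast? = some b → ∃ c : ℕ, Wk w a b c ∧ (c : ℚ) = walkLength len l * D := by
  intro l
  induction l with
  | nil => intro a _ h; simp at h
  | cons x l ih =>
    intro a hc hh hl
    have hxa : x = a := by simpa using hh
    subst hxa
    match l, ih, hc, hl with
    | [], _, _, hl =>
      have : x = b := by simpa using hl
      subst this
      exact ⟨0, Wk.nil _, by simp [walkLength]⟩
    | v :: l, ih, hc, hl =>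
      rw [List.isChain_cons_cons] at hc
      rw [List.getLast?_cons_cons] at hl
      obtain ⟨c, hc1, hc2⟩ := ih v hc.2 (by simp) hl
      obtain ⟨d, hd1, hd2⟩ := hw x v hc.1
      refine ⟨d + c, Wk.cons hd1 hc1, ?_⟩
      have : walkLength len (x :: v :: l) = len s(x, v) + walkLength len (v :: l) := rfl
      rw [this]
      push_cast
      rw [hc2, hd2]
      ring

/-- a walk of numbers gives a path in the graph -/
theorem w_wk_list {n : ℕ} {G : SimpleGraph (Fin n)} {len : Sym2 (Fin n) → ℚ}
    {w : ℕ → ℕ → Option ℕ} {D : ℚ}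
    (hw : ∀ u v : Fin n, G.Adj u v → ∃ c : ℕ, w u v = some c ∧ (c : ℚ) = len s(u, v) * D)
    (hw' : ∀ u v : ℕ, w u v ≠ none → ∃ (hu : u < n) (hv : v < n), G.Adj ⟨u, hu⟩ ⟨v, hv⟩)
    {a b c : ℕ} (h : Wk w a b c) (ha : a < n) :
    ∃ (hb : b < n) (l : List (Fin n)), l.IsChain G.Adj ∧ l.head? = some ⟨a, ha⟩ ∧
      l.getLast? = some ⟨b, hb⟩ ∧ (c : ℚ) = walkLength len l * D := by
  induction h with
  | nil u => exact ⟨ha, [⟨u, ha⟩], by simp, by simp, by simp, by simp [walkLength]⟩
  | @cons u v x c d h1 h2 ih =>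
    obtain ⟨hu, hv, huv⟩ := hw' u v (by rw [h1]; simp)
    obtain ⟨hb, l, hl1, hl2, hl3, hl4⟩ := ih hv
    obtain ⟨c', hc1, hc2⟩ := hw _ _ huv
    have hcc : c' = c := by
      simp only [h1, Option.some.injEq] at hc1
      exact hc1.symm
    subst hcc
    refine ⟨hb, ⟨u, hu⟩ :: l, ?_, by simp, ?_, ?_⟩
    · match l, hl1, hl2 with
      | [], _, hl2 => simp at hl2
      | y :: l, hl1, hl2 =>
        have : y = ⟨v, hv⟩ := by simpa using hl2
        subst this
        rw [List.isChain_cons_cons]
        exact ⟨huv, hl1⟩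
    · match l, hl3 with
      | [], hl3 => simp at hl3
      | y :: l, hl3 =>
        rw [List.getLast?_cons_cons]
        exact hl3
    · match l, hl2, hl4 with
      | [], hl2, _ => simp at hl2
      | y :: l, hl2, hl4 =>
        have : y = ⟨v, hv⟩ := by simpa using hl2
        subst this
        have : walkLength len (⟨u, hu⟩ :: ⟨v, hv⟩ :: l) = len s(⟨u, hu⟩, ⟨v, hv⟩) +
          walkLength len (⟨v, hv⟩ :: l) := rfl
        rw [this]
        push_cast
        rw [hl4, hc2]
        ring

/-- a tight walk in a partial orientation -/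
theorem w_tight_list {n : ℕ} {G : SimpleGraph (Fin n)} {len : Sym2 (Fin n) → ℚ}
    {w : ℕ → ℕ → Option ℕ} {D : ℚ}
    (hw : ∀ u v : Fin n, G.Adj u v → ∃ c : ℕ, w u v = some c ∧ (c : ℚ) = len s(u, v) * D)
    (hw' : ∀ u v : ℕ, w u v ≠ none → ∃ (hu : u < n) (hv : v < n), G.Adj ⟨u, hu⟩ ⟨v, hv⟩)
    {O : ℕ → ℕ → Prop} {R : Fin n → Fin n → Prop}
    (hOR : ∀ u v : Fin n, G.Adj u v → O u v → R u v) {f : ℕ → ℕ} {b : ℕ} (hb : b < n) {a : ℕ}
    (h : ReflTransGen (fun u v => O u v ∧ Tight w f u v) a b) :
    ∃ (ha : a < n) (l : List (Fin n)), l.IsChain R ∧ l.head? = some ⟨a, ha⟩ ∧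
      l.getLast? = some ⟨b, hb⟩ ∧ (f b : ℚ) = f a + walkLength len l * D := by
  induction h using ReflTransGen.head_induction_on with
  | refl => exact ⟨hb, [⟨b, hb⟩], by simp, by simp, by simp, by simp [walkLength]⟩
  | @head u v h1 h2 ih =>
    obtain ⟨hO, c, hc, hfc⟩ := h1
    obtain ⟨hu, hv, huv⟩ := hw' u v (by rw [hc]; simp)
    obtain ⟨_, l, hl1, hl2, hl3, hl4⟩ := ih
    obtain ⟨c', hc1, hc2⟩ := hw _ _ huv
    have hcc : c' = c := by
      simp only [hc, Option.some.injEq] at hc1
      exact hc1.symm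
    subst hcc
    refine ⟨hu, ⟨u, hu⟩ :: l, ?_, by simp, ?_, ?_⟩
    · match l, hl1, hl2 with
      | [], _, hl2 => simp at hl2
      | y :: l, hl1, hl2 =>
        have : y = ⟨v, hv⟩ := by simpa using hl2
        subst this
        rw [List.isChain_cons_cons]
        exact ⟨hOR _ _ huv hO, hl1⟩
    · match l, hl3 with
      | [], hl3 => simp at hl3
      | y :: l, hl3 =>
        rw [List.getLast?_cons_cons]
        exact hl3
    · match l, hl2, hl4 with
      | [], hl2, _ => simp at hl2
      | y :: l, hl2, hl4 =>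
        have : y = ⟨v, hv⟩ := by simpa using hl2
        subst this
        have : walkLength len (⟨u, hu⟩ :: ⟨v, hv⟩ :: l) = len s(⟨u, hu⟩, ⟨v, hv⟩) +
          walkLength len (⟨v, hv⟩ :: l) := rfl
        rw [this, hl4, hfc]
        push_cast
        rw [hc2]
        ring

theorem w_list_tight {n : ℕ} {G : SimpleGraph (Fin n)} {len : Sym2 (Fin n) → ℚ}
    {w : ℕ → ℕ → Option ℕ} {D : ℚ}
    (hw : ∀ u v : Fin n, G.Adj u v → ∃ c : ℕ, w u v = some c ∧ (c : ℚ) = len s(u, v) * D)
    {O : Fin n → Fin n → Prop} (hO : ∀ u v, O u v → G.Adj u v) {f : ℕ → ℕ} {s : ℕ}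
    (h1 : ∀ v d, Wk w s v d → f v ≤ d) (h2 : ∀ v d, Wk w s v d → Wk w s v (f v))
    {b : Fin n} :
    ∀ (l : List (Fin n)) (a : Fin n) (p c : ℕ), l.IsChain O → l.head? = some a →
      l.getLast? = some b → Wk w s a p → (c : ℚ) = walkLength len l * D → p + c = f b →
      f a = p ∧
      ReflTransGen (fun u v => (∃ (hu : u < n) (hv : v < n), O ⟨u, hu⟩ ⟨v, hv⟩) ∧
        Tight w f u v) a b := by
  intro l
  induction l with
  | nil => intro a p c _ h; simp at h
  | cons x l ih =>
    intro a p c hc hh hl hp hcl hpc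
    have hxa : x = a := by simpa using hh
    subst hxa
    have hfa : f x = p := by
      apply le_antisymm (h1 _ _ hp)
      obtain ⟨c', hc1, hc2⟩ := w_list_wk hw (x :: l) x (hc.imp fun u v h => hO u v h) hh hl
      have hcc : c' = c := by
        have : (c' : ℚ) = c := by rw [hc2, hcl]
        exact_mod_cast this
      subst hcc
      have := h1 _ _ (w_wk_append (h2 _ _ hp) hc1)
      omega
    refine ⟨hfa, ?_⟩
    match l, ih, hc, hl, hcl with
    | [], _, _, hl, _ =>
      have : x = b := by simpa using hl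
      subst this
      exact ReflTransGen.refl
    | v :: l, ih, hc, hl, hcl =>
      rw [List.isChain_cons_cons] at hc
      rw [List.getLast?_cons_cons] at hl
      obtain ⟨d, hd1, hd2⟩ := hw x v (hO _ _ hc.1)
      obtain ⟨c', hc1, hc2⟩ := w_list_wk hw (v :: l) v (hc.2.imp fun u v h => hO u v h)
        (by simp) hl
      have e : walkLength len (x :: v :: l) = len s(x, v) + walkLength len (v :: l) := rfl
      have hcc : c = d + c' := by
        have : (c : ℚ) = (d + c' : ℕ) := by
          push_cast
          rw [hc2, hd2, hcl, e]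
          ring
        exact_mod_cast this
      have hpv : Wk w s v (p + d) := by
        refine w_wk_append hp ?_
        simpa using Wk.cons hd1 (Wk.nil (v : ℕ))
      obtain ⟨h5, h6⟩ := ih v (p + d) c' hc.2 (by simp) hl hpv hc2 (by omega)
      refine ReflTransGen.head ⟨⟨x.2, v.2, hc.1⟩, d, hd1, ?_⟩ h6
      omega

theorem preservable_iff {n k : ℕ} (G : SimpleGraph (Fin n)) (len : Sym2 (Fin n) → ℚ)
    (s t : Fin k → Fin n) (hlen : ∀ e ∈ G.edgeSet, 0 ≤ len e) (w : ℕ → ℕ → Option ℕ) (D : ℚ)
    (hD : 0 < D)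
    (hw : ∀ u v : Fin n, G.Adj u v → ∃ c : ℕ, w u v = some c ∧ (c : ℚ) = len s(u, v) * D)
    (hw' : ∀ u v : ℕ, w u v ≠ none → ∃ (hu : u < n) (hv : v < n), G.Adj ⟨u, hu⟩ ⟨v, hv⟩)
    (fd : ℕ → ℕ → ℕ) (h1 : ∀ (i : Fin k) (v d : ℕ), Wk w (s i) v d → fd i v ≤ d)
    (h2 : ∀ (i : Fin k) (v d : ℕ), Wk w (s i) v d → Wk w (s i) v (fd i v)) (s' t' : ℕ → ℕ)
    (hs' : ∀ i : Fin k, s' i = s i) (ht' : ∀ i : Fin k, (∃ d, Wk w (s i) (t i) d) → t' i = t i)
    (ht'' : ∀ i : Fin k, (¬ ∃ d, Wk w (s i) (t i) d) → t' i = s i) :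
    (∃ O, IsOrientation G O ∧ ∀ i, dist O len (s i) (t i) = dist G.Adj len (s i) (t i)) ↔
      Pres w k fd s' t' := by
  have hnn : ∀ u v, G.Adj u v → 0 ≤ len s(u, v) := fun u v h => hlen _ h
  constructor
  · rintro ⟨O, ⟨hO1, hO2⟩, hd⟩
    refine ⟨fun u v => ∃ (hu : u < n) (hv : v < n), O ⟨u, hu⟩ ⟨v, hv⟩, ?_, ?_, ?_⟩
    · rintro u v ⟨hu, hv, h⟩
      obtain ⟨c, hc, -⟩ := hw _ _ (hO1 _ _ h)
      change w u v = some c at hc
      rw [hc]
      simp
    · rintro u v ⟨hu, hv, h⟩ ⟨_, _, h'⟩
      rcases hO2 _ _ (hO1 _ _ h) with h3 | h3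
      · exact h3.2 h'
      · exact h3.2 h
    · intro j hj
      obtain ⟨i, rfl⟩ : ∃ i : Fin k, (i : ℕ) = j := ⟨⟨j, hj⟩, rfl⟩
      by_cases hr : ∃ d, Wk w (s i) (t i) d
      · rw [hs' i, ht' i hr]
        obtain ⟨d, hd0⟩ := hr
        have hfw := h2 i _ _ hd0
        -- a path of `G` of length `fd / D`
        obtain ⟨hb, l, hl1, hl2, hl3, hl4⟩ := w_wk_list (len := len) (D := D) hw hw' hfw (s i).2
        obtain ⟨l', hl', hle⟩ := w_shorten (len := len) hnn l (s i) hl1 hl2 hl3
        have hG : dist G.Adj len (s i) (t i) ≤ (((walkLength len l : ℚ) : ℝ) : EReal) := by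
          unfold dist
          refine (iInf₂_le l' hl').trans ?_
          exact_mod_cast hle
        rw [← hd i] at hG
        -- some path for `O` is as short
        have hex : ∃ m, IsPath O (s i) (t i) m ∧ walkLength len m * D < fd i (t i) + 1 := by
          by_contra hno
          push Not at hno
          have : ((((walkLength len l + 1 / D : ℚ)) : ℝ) : EReal) ≤ dist O len (s i) (t i) := by
            unfold dist
            refine le_iInf₂ fun m hm => ?_
            have h5 := hno m hm
            have h6 : walkLength len l + 1 / D ≤ walkLength len m := by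
              rw [hl4] at h5
              have : (walkLength len l + 1 / D) * D ≤ walkLength len m * D := by
                rw [add_mul, one_div, inv_mul_cancel₀ hD.ne']
                exact h5
              exact le_of_mul_le_mul_right this hD
            exact_mod_cast h6
          have h7 := this.trans hG
          have h8 : walkLength len l + 1 / D ≤ walkLength len l := by exact_mod_cast h7
          have : 0 < 1 / D := by positivity
          linarith
        obtain ⟨m, ⟨hm0, hm1, hm2, hm3⟩, hm⟩ := hex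
        obtain ⟨c, hc1, hc2⟩ := w_list_wk hw m (s i) (hm1.imp fun u v h => hO1 u v h) hm2 hm3
        have hc3 := h1 i _ _ hc1
        have hc4 : c < fd i (t i) + 1 := by
          rw [← hc2] at hm
          exact_mod_cast hm
        have hc5 : 0 + c = fd i (t i) := by omega
        exact (w_list_tight hw hO1 (h1 i) (h2 i) m (s i) 0 c hm1 hm2 hm3 (Wk.nil _) hc2 hc5).2
      · rw [hs' i, ht'' i hr]
  · rintro ⟨O, hO1, hO2, hO3⟩
    refine ⟨fun u v => G.Adj u v ∧ (O u v ∨ (¬ O v u ∧ u < v)), ⟨fun u v h => h.1, ?_⟩, ?_⟩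
    · intro u v h
      have hne : u ≠ v := h.ne
      have h' := h.symm
      have hO := hO2 u v
      by_cases h3 : O u v
      · left
        exact ⟨⟨h, Or.inl h3⟩, fun h4 => h4.2.elim (fun h5 => hO h3 h5) (fun h5 => h5.1 h3)⟩
      · by_cases h4 : O v u
        · right
          exact ⟨⟨h', Or.inl h4⟩, fun h5 => h5.2.elim h3 (fun h6 => h6.1 h4)⟩
        · rcases lt_or_gt_of_ne hne with h5 | h5
          · left
            exact ⟨⟨h, Or.inr ⟨h4, h5⟩⟩, fun h6 => h6.2.elim h4 (fun h7 =>
              absurd h7.2 (not_lt.mpr h5.le))⟩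
          · right
            exact ⟨⟨h', Or.inr ⟨h3, h5⟩⟩, fun h6 => h6.2.elim h3 (fun h7 =>
              absurd h7.2 (not_lt.mpr h5.le))⟩
    · intro i
      apply le_antisymm
      · by_cases hr : ∃ d, Wk w (s i) (t i) d
        · have h3 := hO3 i i.2
          rw [hs' i, ht' i hr] at h3
          obtain ⟨_, l, hl1, hl2, hl3, hl4⟩ := w_tight_list (len := len) (D := D)
            (R := fun u v => G.Adj u v ∧ (O u v ∨ (¬ O v u ∧ u < v))) hw hw'
            (fun u v h h' => ⟨h, Or.inl h'⟩) (t i).2 h3
          obtain ⟨l', hl', hle⟩ := w_shorten (len := len)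
            (fun u v h => hnn u v h.1) l (s i) hl1 hl2 hl3
          have hf0 : fd i (s i) = 0 := by
            have := h1 i (s i) 0 (Wk.nil _)
            omega
          rw [hf0] at hl4
          unfold dist
          refine le_iInf₂ fun m hm => ?_
          refine (iInf₂_le l' hl').trans ?_
          obtain ⟨c, hc1, hc2⟩ := w_list_wk hw m (s i) hm.2.1 hm.2.2.1 hm.2.2.2
          have hc3 := h1 i _ _ hc1
          have hc4 : ((fd i (t i) : ℕ) : ℚ) ≤ c := by exact_mod_cast hc3
          have h9 : walkLength len l * D ≤ walkLength len m * D := by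
            rw [← hc2]
            push_cast at hl4
            linarith
          have h10 := le_of_mul_le_mul_right h9 hD
          exact_mod_cast hle.trans h10
        · have : dist G.Adj len (s i) (t i) = ⊤ := by
            unfold dist
            rw [iInf₂_eq_top]
            intro m hm
            exfalso
            obtain ⟨c, hc1, -⟩ := w_list_wk hw m (s i) hm.2.1 hm.2.2.1 hm.2.2.2
            exact hr ⟨c, hc1⟩
          rw [this]
          exact le_top
      · unfold dist
        refine le_iInf₂ fun m hm => ?_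
        exact iInf₂_le m ⟨hm.1, hm.2.1.imp fun u v h => h.1, hm.2.2⟩

end Pool.Agent.H614R2.DPO
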