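import Pool.Agent.H614R2.DPO.Compl
import Pool.Agent.H614R2.DPO.TB
import Pool.Agent.H614R2.DPO.TD
import Pool.Agent.H614R2.DPO.TW
import Pool.Agent.H614R2.DPO.TP2
import Pool.Agent.ER.Rat

/-!
# The algorithm on the input data
-/

namespace Pool.Agent.H614R2.DPO

open Relation Pool.Agent.NPC

/-- the input data: matrix of lengths, list of pairs -/
abbrev Data := List (List (Option ℚ)) × List (ℕ × ℕ)

/-- an entry of the matrix -/
def entry (W : List (List (Option ℚ))) (u v : ℕ) : Option ℚ := (W.getD u []).getD v none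

/-- the product of all the denominators -/
def denP (W : List (List (Option ℚ))) : ℕ :=
  (W.flatMap (fun r => r.map (fun o => o.elim 1 (fun q => q.den)))).prod

/-- the lengths, scaled to integers -/
def wD (W : List (List (Option ℚ))) (u v : ℕ) : Option ℕ :=
  (entry W u v).map (fun q => q.num.natAbs * (denP W / q.den))

/-- the first vertex of a pair -/
def sD (P : List (ℕ × ℕ)) (i : ℕ) : ℕ := (P.getD i (0, 0)).1

/-- the distances -/
def fdD (a : Data) (i v : ℕ) : ℕ := bfd (wD a.1) a.1.length (sD a.2 i) v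

/-- the second vertex of a pair, if it can be reached, and otherwise the first one -/
def tD (a : Data) (i : ℕ) : ℕ :=
  if (a.2.getD i (0, 0)).2 ∈ reachG (fun u v => (wD a.1 u v).isSome) (List.range a.1.length)
    (sD a.2 i) then (a.2.getD i (0, 0)).2 else sD a.2 i

/-- The algorithm. -/
def alg (k : ℕ) (a : Data) : Bool :=
  solve (mkInst (wD a.1) a.1.length k (fdD a) (sD a.2) (tD a))

/-! ### Polynomial time -/

section poly

variable {α : Type} [TEnc α]

/-- products of lists of natural numbers (copied from `H577R2.BJ.PolyB`) -/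
theorem poly_prodL {l : α → List ℕ} (hl : Poly l) : Poly (fun a => (l a).prod) := by
  obtain ⟨r, hr⟩ := hl.sz_le
  refine (Poly.foldr (s := fun _ => 1) (F := fun _ x s => x * s) hl (NPC.Poly.const 1)
    (Poly.mul (Poly.fst (Poly.snd Poly.id)) (Poly.snd (Poly.snd Poly.id)))
    (Polynomial.C 4 * r + Polynomial.C 1) ?_).congr fun a => ?_
  · intro a k hk
    have key : ∀ l : List ℕ, (l.foldr (fun x s => x * s) 1).size ≤ sz l := by
      intro l
      induction l with
      | nil => simp
      | cons x l ih =>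
        rw [List.foldr_cons]
        set s := l.foldr (fun x s => x * s) 1
        have h1 := Nat.lt_size_self x
        have h2 := Nat.lt_size_self s
        have h3 : x * s < 2 ^ (x.size + s.size) := by
          rw [pow_add]
          exact Nat.mul_lt_mul'' h1 h2
        have h4 := Nat.size_le.2 h3
        have h5 := size_le_sz x
        simp
        omega
    have h1 := sz_nat_le (((l a).drop k).foldr (fun x s => x * s) 1)
    have h2 := key ((l a).drop k)
    have h3 := Poly.sz_drop_le (l a) k
    have h4 := hr a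
    simp only [Polynomial.eval_add, Polynomial.eval_mul, Polynomial.eval_C]
    omega
  · induction l a with
    | nil => rfl
    | cons x l ih => rw [List.foldr_cons, ih, List.prod_cons]

theorem poly_natAbs {f : α → ℤ} (hf : Poly f) : Poly (fun a => (f a).natAbs) := by
  have h : Poly (fun a => ((decide (f a < 0), (f a).natAbs) : Bool × ℕ)) := Poly.of_toT hf.toT'
  exact Poly.snd h

theorem poly_num {f : α → ℚ} (hf : Poly f) : Poly (fun a => (f a).num) := by
  have h : Poly (fun a => (((f a).num, (f a).den) : ℤ × ℕ)) := Poly.of_toT hf.toT'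
  exact Poly.fst h

theorem poly_den {f : α → ℚ} (hf : Poly f) : Poly (fun a => (f a).den) := by
  have h : Poly (fun a => (((f a).num, (f a).den) : ℤ × ℕ)) := Poly.of_toT hf.toT'
  exact Poly.snd h

attribute [local fun_prop] poly_natAbs poly_num poly_den

theorem poly_denP {W : α → List (List (Option ℚ))} (hW : Poly W) :
    Poly (fun a => denP (W a)) := by
  unfold denP
  refine poly_prodL ?_
  fun_prop

attribute [local fun_prop] poly_denP

theorem poly_wD {W : α → List (List (Option ℚ))} {u v : α → ℕ} (hW : Poly W) (hu : Poly u)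
    (hv : Poly v) : Poly (fun a => wD (W a) (u a) (v a)) := by
  unfold wD entry
  fun_prop

attribute [local fun_prop] poly_wD
attribute [local irreducible] wD

theorem poly_sD {P : α → List (ℕ × ℕ)} {i : α → ℕ} (hP : Poly P) (hi : Poly i) :
    Poly (fun a => sD (P a) (i a)) := by
  unfold sD
  fun_prop

attribute [local fun_prop] poly_sD
attribute [local irreducible] sD

theorem poly_fdD {a : α → Data} {i v : α → ℕ} (ha : Poly a) (hi : Poly i) (hv : Poly v) :
    Poly (fun x => fdD (a x) (i x) (v x)) := by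
  unfold fdD bfd
  refine Poly.getD (poly_bf (w := fun x => wD (a x).1) (n := fun x => (a x).1.length)
    (s := fun x => sD (a x).2 (i x)) ?_ (UPoly.length (Poly.fst ha)) (by fun_prop)) hv
    (NPC.Poly.const 0)
  exact poly_wD (W := fun p : α × ℕ × ℕ => (a p.1).1) (Poly.fst (ha.comp (Poly.fst Poly.id)))
    (Poly.fst (Poly.snd Poly.id)) (Poly.snd (Poly.snd Poly.id))

theorem poly_tD {a : α → Data} {i : α → ℕ} (ha : Poly a) (hi : Poly i) :
    Poly (fun x => tD (a x) (i x)) := by
  unfold tD
  refine Poly.ite (Poly.dec_mem (by fun_prop) ?_) (by fun_prop) (by fun_prop)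
  refine p2_poly_reachG (R := fun x u v => (wD (a x).1 u v).isSome) ?_
    (UPoly.range (UPoly.length (Poly.fst ha))) (by fun_prop)
  exact Poly.isSome (poly_wD (W := fun p : α × ℕ × ℕ => (a p.1).1)
    (Poly.fst (ha.comp (Poly.fst Poly.id))) (Poly.fst (Poly.snd Poly.id))
    (Poly.snd (Poly.snd Poly.id)))

theorem poly_alg (k : ℕ) : Poly (alg k) := by
  unfold alg
  refine poly_mkInst k (w := fun a : Data => wD a.1) (n := fun a => a.1.length)
    (fd := fun a => fdD a) (s := fun a => sD a.2) (t := fun a => tD a) ?_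
    (UPoly.length (Poly.fst Poly.id)) ?_ ?_ ?_
  · exact poly_wD (W := fun p : Data × ℕ × ℕ => p.1.1) (Poly.fst (Poly.fst Poly.id))
      (Poly.fst (Poly.snd Poly.id)) (Poly.snd (Poly.snd Poly.id))
  · exact poly_fdD (a := fun p : Data × ℕ × ℕ => p.1) (Poly.fst Poly.id)
      (Poly.fst (Poly.snd Poly.id)) (Poly.snd (Poly.snd Poly.id))
  · exact poly_sD (P := fun p : Data × ℕ => p.1.2) (Poly.snd (Poly.fst Poly.id))
      (Poly.snd Poly.id)
  · exact poly_tD (a := fun p : Data × ℕ => p.1) (Poly.fst Poly.id) (Poly.snd Poly.id)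

end poly

/-! ### Correctness -/

theorem rtg_mono {V : Type} {R R' : V → V → Prop} (h : ∀ a b, R a b → R' a b) {x y : V}
    (hxy : ReflTransGen R x y) : ReflTransGen R' x y := by
  induction hxy with
  | refl => exact ReflTransGen.refl
  | tail _ h' ih => exact ih.tail (h _ _ h')

theorem wk_iff_rtg {w : ℕ → ℕ → Option ℕ} {s v : ℕ} :
    (∃ d, Wk w s v d) ↔ ReflTransGen (fun a b => (w a b).isSome = true) s v := by
  constructor
  · rintro ⟨d, h⟩
    induction h with
    | nil u => exact ReflTransGen.refl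
    | cons h _ ih => exact ReflTransGen.head (by simp [h]) ih
  · intro h
    induction h using ReflTransGen.head_induction_on with
    | refl => exact ⟨0, Wk.nil _⟩
    | head h _ ih =>
      obtain ⟨d, hd⟩ := ih
      obtain ⟨c, hc⟩ := Option.isSome_iff_exists.1 h
      exact ⟨_, Wk.cons hc hd⟩

section

open Classical in
/-- the data of an input -/
noncomputable def dataOf {n k : ℕ} (G : SimpleGraph (Fin n)) (len : Sym2 (Fin n) → ℚ)
    (s t : Fin k → Fin n) : Data :=
  (List.ofFn fun u => List.ofFn fun v => if G.Adj u v then some (len s(u, v)) else none,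
    List.ofFn fun i => ((s i : ℕ), (t i : ℕ)))

variable {n k : ℕ} (G : SimpleGraph (Fin n)) (len : Sym2 (Fin n) → ℚ) (s t : Fin k → Fin n)

theorem getD_ofFn {β : Type} {m : ℕ} (f : Fin m → β) (i : ℕ) (d : β) :
    (List.ofFn f).getD i d = if h : i < m then f ⟨i, h⟩ else d := by
  rw [List.getD_eq_getElem?_getD, List.getElem?_ofFn]
  split_ifs <;> rfl

open Classical in
theorem entry_dataOf (u v : ℕ) : entry (dataOf G len s t).1 u v =
    if h : u < n ∧ v < n then
      (if G.Adj ⟨u, h.1⟩ ⟨v, h.2⟩ then some (len s(⟨u, h.1⟩, ⟨v, h.2⟩)) else none)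
    else none := by
  unfold entry dataOf
  dsimp only
  rw [getD_ofFn]
  by_cases hu : u < n
  · rw [dif_pos hu, getD_ofFn]
    by_cases hv : v < n
    · rw [dif_pos hv, dif_pos ⟨hu, hv⟩]
    · rw [dif_neg hv, dif_neg (fun h => hv h.2)]
  · rw [dif_neg hu, dif_neg (fun h => hu h.1)]
    simp

theorem den_dvd {W : List (List (Option ℚ))} {u v : ℕ} {q : ℚ} (h : entry W u v = some q) :
    q.den ∣ denP W := by
  unfold entry at h
  refine List.dvd_prod ?_
  rw [List.mem_flatMap]
  refine ⟨W.getD u [], ?_, ?_⟩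
  · by_cases hu : u < W.length
    · rw [List.getD_eq_getElem _ _ hu]
      exact List.getElem_mem hu
    · rw [List.getD_eq_default W _ (by omega)] at h
      simp at h
  · rw [List.mem_map]
    refine ⟨some q, ?_, rfl⟩
    generalize W.getD u [] = r at h
    by_cases hv : v < r.length
    · rw [List.getD_eq_getElem _ _ hv] at h
      rw [← h]
      exact List.getElem_mem hv
    · rw [List.getD_eq_default _ _ (by omega)] at h
      simp at h

theorem denP_pos (W : List (List (Option ℚ))) : 0 < denP W := by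
  unfold denP
  refine List.prod_pos ?_
  intro x hx
  rw [List.mem_flatMap] at hx
  obtain ⟨r, _, hx⟩ := hx
  rw [List.mem_map] at hx
  obtain ⟨o, _, rfl⟩ := hx
  cases o with
  | none => exact Nat.one_pos
  | some q => exact q.den_pos

theorem scale {q : ℚ} (hq : 0 ≤ q) {m : ℕ} (h : q.den ∣ m) :
    ((q.num.natAbs * (m / q.den) : ℕ) : ℚ) = q * m := by
  obtain ⟨m, rfl⟩ := h
  rw [Nat.mul_div_cancel_left _ q.den_pos, Nat.cast_mul, Nat.cast_mul]
  have h1 : ((q.num.natAbs : ℕ) : ℚ) = (q.num : ℚ) := by
    have h2 : (0 : ℤ) ≤ q.num := Rat.num_nonneg.2 hq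
    have h3 : ((q.num.natAbs : ℕ) : ℤ) = q.num := Int.natAbs_of_nonneg h2
    have h4 := congrArg (fun z : ℤ => (z : ℚ)) h3
    simp only [Int.cast_natCast] at h4
    exact h4
  have h4 : (q.den : ℚ) ≠ 0 := by exact_mod_cast q.den_pos.ne'
  have h5 : (q.num : ℚ) = q * q.den := (Rat.mul_den_eq_num q).symm
  rw [h1, h5]
  ring

theorem wD_adj (hlen : ∀ e ∈ G.edgeSet, 0 ≤ len e) (u v : Fin n) (h : G.Adj u v) :
    ∃ c : ℕ, wD (dataOf G len s t).1 u v = some c ∧
      (c : ℚ) = len s(u, v) * (denP (dataOf G len s t).1 : ℚ) := by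
  have h1 : entry (dataOf G len s t).1 u v = some (len s(u, v)) := by
    rw [entry_dataOf, dif_pos ⟨u.2, v.2⟩, if_pos h]
  refine ⟨_, by rw [wD, h1, Option.map_some], ?_⟩
  exact scale (hlen _ h) (den_dvd h1)

theorem wD_ne (u v : ℕ) (h : wD (dataOf G len s t).1 u v ≠ none) :
    ∃ (hu : u < n) (hv : v < n), G.Adj ⟨u, hu⟩ ⟨v, hv⟩ := by
  rw [wD, entry_dataOf] at h
  by_cases huv : u < n ∧ v < n
  · rw [dif_pos huv] at h
    by_cases ha : G.Adj ⟨u, huv.1⟩ ⟨v, huv.2⟩
    · exact ⟨huv.1, huv.2, ha⟩
    · rw [if_neg ha] at h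
      exact absurd rfl h
  · rw [dif_neg huv] at h
    exact absurd rfl h

theorem wD_ok : WOk (wD (dataOf G len s t).1) n where
  symm u v := by
    have : entry (dataOf G len s t).1 u v = entry (dataOf G len s t).1 v u := by
      rw [entry_dataOf, entry_dataOf]
      by_cases huv : u < n ∧ v < n
      · rw [dif_pos huv, dif_pos huv.symm]
        by_cases ha : G.Adj ⟨u, huv.1⟩ ⟨v, huv.2⟩
        · rw [if_pos ha, if_pos ha.symm, Sym2.eq_swap]
        · rw [if_neg ha, if_neg (fun h => ha h.symm)]
      · rw [dif_neg huv, dif_neg (fun h => huv h.symm)]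
    rw [wD, wD, this]
  loop u := by
    by_contra h
    obtain ⟨_, _, ha⟩ := wD_ne G len s t u u h
    exact G.loopless.irrefl _ ha
  lt u v h := by
    obtain ⟨hu, hv, _⟩ := wD_ne G len s t u v h
    exact ⟨hu, hv⟩

theorem sD_dataOf (i : Fin k) : sD (dataOf G len s t).2 i = s i := by
  unfold sD dataOf
  dsimp only
  rw [getD_ofFn, dif_pos i.2]

theorem snd_dataOf (i : Fin k) : ((dataOf G len s t).2.getD i (0, 0)).2 = t i := by
  unfold dataOf
  dsimp only
  rw [getD_ofFn, dif_pos i.2]

theorem sD_lt (hn : 0 < n) (i : ℕ) : sD (dataOf G len s t).2 i < n := by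
  unfold sD dataOf
  dsimp only
  rw [getD_ofFn]
  split_ifs with h
  · exact (s ⟨i, h⟩).2
  · exact hn

theorem alg_correct (hlen : ∀ e ∈ G.edgeSet, 0 ≤ len e) :
    alg k (dataOf G len s t) = true ↔
      ∃ O, IsOrientation G O ∧ ∀ i, dist O len (s i) (t i) = dist G.Adj len (s i) (t i) := by
  have hn : (dataOf G len s t).1.length = n := by simp [dataOf]
  have hw := wD_ok G len s t
  have hfd : ∀ i u v c, wD (dataOf G len s t).1 u v = some c →
      fdD (dataOf G len s t) i v ≤ fdD (dataOf G len s t) i u + c := by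
    intro i u v c h
    have hu := (hw.lt u v (by rw [h]; simp)).1
    unfold fdD
    rw [hn]
    exact bfd_lip hw (sD_lt G len s t (by omega) i) h
  unfold alg
  rw [solve_iff (mkInst_ok (by rw [hn]; exact hw) hfd)]
  have hs : ∀ i < k, sD (dataOf G len s t).2 i < n := by
    intro i hi
    rw [sD_dataOf G len s t ⟨i, hi⟩]
    exact (s ⟨i, hi⟩).2
  have ht : ∀ i < k, tD (dataOf G len s t) i < n := by
    intro i hi
    unfold tD
    split_ifs with h
    · rw [snd_dataOf G len s t ⟨i, hi⟩]
      exact (t ⟨i, hi⟩).2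
    · exact hs i hi
  rw [mkInst_solvable (by rw [hn]; exact hw) hfd (by rw [hn]; exact hs) (by rw [hn]; exact ht)]
  have hreach : ∀ i : Fin k, (((dataOf G len s t).2.getD i (0, 0)).2 ∈
      reachG (fun u v => (wD (dataOf G len s t).1 u v).isSome)
      (List.range (dataOf G len s t).1.length) (sD (dataOf G len s t).2 i)) ↔
      ∃ d, Wk (wD (dataOf G len s t).1) (s i) (t i) d := by
    intro i
    rw [mem_reachG, wk_iff_rtg, snd_dataOf, sD_dataOf, hn, List.mem_range]
    constructor
    · rintro ⟨_, h⟩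
      exact rtg_mono (fun a b h => h.1) h
    · intro h
      refine ⟨(s i).2, ?_⟩
      refine rtg_mono (fun a b h => ⟨h, ?_⟩) h
      rw [List.mem_range]
      exact (hw.lt a b (by rw [Option.isSome_iff_ne_none] at h; exact h)).2
  symm
  refine preservable_iff G len s t hlen (wD (dataOf G len s t).1)
    (denP (dataOf G len s t).1 : ℚ) (by exact_mod_cast denP_pos _)
    (wD_adj G len s t hlen) (wD_ne G len s t) (fdD (dataOf G len s t)) ?_ ?_
    (sD (dataOf G len s t).2) (tD (dataOf G len s t)) (sD_dataOf G len s t) ?_ ?_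
  · intro i v d h
    unfold fdD
    rw [hn, sD_dataOf]
    exact bfd_le hw (s i).2 h
  · intro i v d h
    unfold fdD
    rw [hn, sD_dataOf]
    exact bfd_wk hw (s i).2 h
  · intro i h
    rw [tD, if_pos ((hreach i).2 h), snd_dataOf]
  · intro i h
    rw [tD, if_neg (fun h' => h ((hreach i).1 h')), sD_dataOf]

end

end Pool.Agent.H614R2.DPO
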