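import Pool.Agent.H614R2.DPO.PthL

/-!
# Two paths: conflicts happen only on one critical level or in one vertical zone
-/

namespace Pool.Agent.H614R2.DPO

open Relation

/-- `0`, `1`, `2` for negative, zero, positive numbers -/
def rk (z : ℤ) : ℕ := if z < 0 then 0 else if z = 0 then 1 else 2

theorem rk_mono {a b : ℤ} (h : a ≤ b) : rk a ≤ rk b := by
  unfold rk
  split_ifs <;> omega

theorem rk_le (a : ℤ) : rk a ≤ 2 := by
  unfold rk
  split_ifs <;> omega

theorem rk_eq {a b : ℤ} (h : rk a = rk b) : (a < 0 ↔ b < 0) ∧ (a = 0 ↔ b = 0) := by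
  unfold rk at h
  split_ifs at h <;> omega

variable {X : Type} {I : Inst X}

theorem rtg_up (hI : I.Ok) {i l : ℕ} (hi : i < I.k) (hl : l < I.k) {a b : X}
    (h : ReflTransGen (fun x y => I.A i x y = true) a b) :
    (I.f i a : ℤ) + I.f l a ≤ I.f i b + I.f l b ∧ (I.f i a : ℤ) - I.f l a ≤ I.f i b - I.f l b ∧
      I.f i a ≤ I.f i b := by
  induction h with
  | refl => exact ⟨le_rfl, le_rfl, le_rfl⟩
  | tail _ h ih =>
    have h1 := hI.up i l _ _ hi hl h
    have h2 := hI.dn i l _ _ hi hl h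
    have h3 := hI.inc i _ _ hi h
    omega

theorem pair_lemma (hI : I.Ok) {i j : ℕ} (hi : i < I.k) (hj : j < I.k) {si ti sj tj : X}
    {Ei Ej : List (X × X)} (hEi : Pth (fun x y => I.A i x y = true) si ti Ei)
    (hEj : Pth (fun x y => I.A j x y = true) sj tj Ej) : ∃ c g : ℤ,
    ∀ u v x x' u' v' y y', (u, u) ∈ Ei → (v, v) ∈ Ei → (u', u') ∈ Ej → (v', v') ∈ Ej →
      ReflTransGen (fun x y => I.A i x y = true) u x → (x = x' ∨ I.A i x x' = true) →
      ReflTransGen (fun x y => I.A i x y = true) x' v →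
      ReflTransGen (fun x y => I.A j x y = true) u' y → (y = y' ∨ I.A j y y' = true) →
      ReflTransGen (fun x y => I.A j x y = true) y' v' →
      I.C (x, x') (y, y') = true →
      rk ((I.f i u : ℤ) + I.f j u - c) = rk ((I.f i v : ℤ) + I.f j v - c) →
      rk ((I.f i u' : ℤ) + I.f j u' - c) = rk ((I.f i v' : ℤ) + I.f j v' - c) →
      ((I.f i x : ℤ) + I.f j x = c ∧ (I.f i x' : ℤ) + I.f j x' = c) ∨
        ((I.f i x : ℤ) - I.f j x = g ∧ (I.f i x' : ℤ) - I.f j x' = g) := by
  -- the critical level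
  obtain ⟨c, hP, hQ⟩ : ∃ c : ℤ,
      (∀ a b, (a, a) ∈ Ei → (b, b) ∈ Ej → c < (I.f i a : ℤ) + I.f j a →
        c < (I.f i b : ℤ) + I.f j b → (I.f i b : ℤ) - I.f j b < I.f i a - I.f j a) ∧
      (∀ a b, (a, a) ∈ Ei → (b, b) ∈ Ej → (I.f i a : ℤ) + I.f j a < c →
        (I.f i b : ℤ) + I.f j b < c → (I.f i a : ℤ) - I.f j a ≤ I.f i b - I.f j b) := by
    classical
    by_cases hex : ∃ m : ℕ, ∃ a b, (a, a) ∈ Ei ∧ (b, b) ∈ Ej ∧ I.f i a + I.f j a ≤ m ∧
        I.f i b + I.f j b ≤ m ∧ (I.f i b : ℤ) - I.f j b < I.f i a - I.f j a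
    · refine ⟨(Nat.find hex : ℕ), ?_, ?_⟩
      · obtain ⟨a0, b0, ha0, hb0, h1, h2, h3⟩ := Nat.find_spec hex
        intro a b ha hb h4 h5
        have h6 : (I.f i a0 : ℤ) - I.f j a0 ≤ I.f i a - I.f j a := by
          rcases hEi.total ha0 ha with h | h
          · exact (rtg_up hI hi hj h).2.1
          · have := (rtg_up hI hi hj h).1
            omega
        have h7 : (I.f i b : ℤ) - I.f j b ≤ I.f i b0 - I.f j b0 := by
          rcases hEj.total hb0 hb with h | h
          · have := (rtg_up hI hj hi h).2.1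
            omega
          · have := (rtg_up hI hj hi h).1
            omega
        omega
      · intro a b ha hb h4 h5
        by_contra h6
        have h7 : max (I.f i a + I.f j a) (I.f i b + I.f j b) < Nat.find hex := by
          rw [max_lt_iff]
          omega
        exact Nat.find_min hex h7 ⟨a, b, ha, hb, le_max_left _ _, le_max_right _ _, by omega⟩
    · have hb : ∀ L : List (X × X), ∃ M : ℕ, ∀ a, (a, a) ∈ L → I.f i a + I.f j a < M := by
        intro L
        induction L with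
        | nil => exact ⟨0, by simp⟩
        | cons e L ih =>
          obtain ⟨M, hM⟩ := ih
          refine ⟨M + (I.f i e.1 + I.f j e.1) + 1, ?_⟩
          intro a ha
          rcases List.mem_cons.1 ha with ha | ha
          · subst ha
            dsimp only
            omega
          · have := hM a ha
            omega
      obtain ⟨M, hM⟩ := hb Ei
      refine ⟨M, ?_, ?_⟩
      · intro a b ha _ h4
        have := hM a ha
        omega
      · intro a b ha hb _ _
        by_contra h6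
        exact hex ⟨max (I.f i a + I.f j a) (I.f i b + I.f j b), a, b, ha, hb, le_max_left _ _,
          le_max_right _ _, by omega⟩
  -- the vertical zone
  obtain ⟨g, hg⟩ : ∃ g : ℤ, ∀ a b, (a, a) ∈ Ei → (b, b) ∈ Ej → (I.f i a : ℤ) + I.f j a < c →
      (I.f i b : ℤ) + I.f j b < c → (I.f i a : ℤ) - I.f j a = I.f i b - I.f j b →
      (I.f i a : ℤ) - I.f j a = g := by
    by_cases hex : ∃ a b, (a, a) ∈ Ei ∧ (b, b) ∈ Ej ∧ (I.f i a : ℤ) + I.f j a < c ∧
        (I.f i b : ℤ) + I.f j b < c ∧ (I.f i a : ℤ) - I.f j a = I.f i b - I.f j b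
    · obtain ⟨a0, b0, ha0, hb0, h1, h2, h3⟩ := hex
      refine ⟨(I.f i a0 : ℤ) - I.f j a0, ?_⟩
      intro a b ha hb h4 h5 h6
      have h7 := hQ a b0 ha hb0 h4 h2
      have h8 := hQ a0 b ha0 hb h1 h5
      omega
    · refine ⟨0, ?_⟩
      intro a b ha hb h4 h5 h6
      exact absurd ⟨a, b, ha, hb, h4, h5, h6⟩ hex
  refine ⟨c, g, ?_⟩
  intro u v x x' u' v' y y' hu hv hu' hv' h1 h2 h3 h4 h5 h6 hC hr hr'
  have e1 := rtg_up hI hi hj h1
  have e2 : (I.f i x : ℤ) + I.f j x ≤ I.f i x' + I.f j x' ∧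
      (I.f i x : ℤ) - I.f j x ≤ I.f i x' - I.f j x' := by
    rcases h2 with rfl | h2
    · exact ⟨le_rfl, le_rfl⟩
    · have := rtg_up hI hi hj (ReflTransGen.single h2)
      exact ⟨this.1, this.2.1⟩
  have e3 := rtg_up hI hi hj h3
  have e4 := rtg_up hI hj hi h4
  have e5 : (I.f j y : ℤ) + I.f i y ≤ I.f j y' + I.f i y' ∧
      (I.f j y : ℤ) - I.f i y ≤ I.f j y' - I.f i y' := by
    rcases h5 with rfl | h5
    · exact ⟨le_rfl, le_rfl⟩
    · have := rtg_up hI hj hi (ReflTransGen.single h5)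
      exact ⟨this.1, this.2.1⟩
  have e6 := rtg_up hI hj hi h6
  have ci := hI.conf _ _ i hi hC
  have cj := hI.conf _ _ j hj hC
  dsimp only at ci cj
  obtain ⟨r1, r2⟩ := rk_eq hr
  obtain ⟨r3, r4⟩ := rk_eq hr'
  rcases lt_trichotomy ((I.f i x : ℤ) + I.f j x) c with hlt | heq | hgt
  · right
    have q1 := hQ v v' hv hv' (by omega) (by omega)
    have q2 := hg v v' hv hv' (by omega) (by omega) (by omega)
    omega
  · left
    omega
  · exfalso
    have q1 := hP u u' hu hu' (by omega) (by omega)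
    omega

end Pool.Agent.H614R2.DPO
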