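import Pool.Agent.H614R2.DPO.Algo

/-!
# Lemmas on paths
-/

namespace Pool.Agent.H614R2.DPO

open Relation

variable {X : Type} {R : X → X → Prop} {x y z : X} {E E' : List (X × X)}

theorem Pth.rtg (h : Pth R x z E) : ReflTransGen R x z := by
  induction h with
  | single x => exact ReflTransGen.refl
  | cons h _ ih => exact ReflTransGen.head h ih

theorem Pth.first_mem (h : Pth R x z E) : (x, x) ∈ E := by
  cases h <;> simp

theorem Pth.last_mem (h : Pth R x z E) : (z, z) ∈ E := by
  induction h with
  | single x => simp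
  | cons h _ ih => simp [ih]

theorem Pth.elem (h : Pth R x z E) {e : X × X} (he : e ∈ E) :
    ReflTransGen R x e.1 ∧ (e.1 = e.2 ∨ R e.1 e.2) ∧ ReflTransGen R e.2 z ∧
      (e.1, e.1) ∈ E ∧ (e.2, e.2) ∈ E := by
  induction h with
  | single x =>
    simp only [List.mem_singleton] at he
    subst he
    simp [ReflTransGen.refl]
  | @cons x y z E h hp ih =>
    rcases List.mem_cons.1 he with rfl | he
    · exact ⟨ReflTransGen.refl, Or.inl rfl, ReflTransGen.head h hp.rtg, by simp, by simp⟩
    · rcases List.mem_cons.1 he with rfl | he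
      · exact ⟨ReflTransGen.refl, Or.inr h, hp.rtg, by simp, by simp [hp.first_mem]⟩
      · obtain ⟨h1, h2, h3, h4, h5⟩ := ih he
        exact ⟨ReflTransGen.head h h1, h2, h3, by simp [h4], by simp [h5]⟩

theorem Pth.total (h : Pth R x z E) {a b : X} (ha : (a, a) ∈ E) (hb : (b, b) ∈ E) :
    ReflTransGen R a b ∨ ReflTransGen R b a := by
  induction h with
  | single x =>
    simp only [List.mem_singleton, Prod.mk.injEq, and_self] at ha hb
    subst ha; subst hb
    exact Or.inl ReflTransGen.refl
  | @cons x y z E h hp ih =>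
    have key : ∀ c : X, (c, c) ∈ (x, x) :: (x, y) :: E → c = x ∨ (c, c) ∈ E := by
      intro c hc
      rcases List.mem_cons.1 hc with hc | hc
      · left
        exact (Prod.mk.inj hc).1
      · rcases List.mem_cons.1 hc with hc | hc
        · left
          exact (Prod.mk.inj hc).1
        · exact Or.inr hc
    rcases key a ha with ha1 | ha1
    · rcases key b hb with hb1 | hb1
      · rw [ha1, hb1]
        exact Or.inl ReflTransGen.refl
      · rw [ha1]
        exact Or.inl (ReflTransGen.head h (hp.elem (e := (b, b)) hb1).1)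
    · rcases key b hb with hb1 | hb1
      · rw [hb1]
        exact Or.inr (ReflTransGen.head h (hp.elem (e := (a, a)) ha1).1)
      · exact ih ha1 hb1

theorem Pth.append {y' : X} (h : Pth R x y E) (hy : R y y') (h' : Pth R y' z E') :
    Pth R x z (E ++ (y, y') :: E') := by
  induction h with
  | single x => exact Pth.cons hy h'
  | cons h _ ih => exact Pth.cons h (ih hy)

theorem Pth.mono {R' : X → X → Prop} (h : Pth R x z E)
    (hR : ∀ a b, (a, b) ∈ E → R a b → R' a b) : Pth R' x z E := by
  induction h with
  | single x => exact Pth.single x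
  | @cons x y z E h hp ih =>
    refine Pth.cons (hR _ _ (by simp) h) (ih fun a b hab => hR a b (by simp [hab]))

theorem Pth.reverse (h : Pth R x z E) :
    Pth (fun a b => R b a) z x (E.map Prod.swap).reverse := by
  induction h with
  | single x => exact Pth.single x
  | @cons x y z E h hp ih =>
    have h1 := Pth.append (R := fun a b => R b a) ih h (Pth.single x)
    simpa using h1

theorem Pth.exists_of_rtg (h : ReflTransGen R x z) : ∃ E, Pth R x z E := by
  induction h using ReflTransGen.head_induction_on with
  | refl => exact ⟨_, Pth.single z⟩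
  | head h _ ih =>
    obtain ⟨E, hE⟩ := ih
    exact ⟨_, Pth.cons h hE⟩

theorem links_cons_cons (a b : X × X × ℕ × Bool) (L : List (X × X × ℕ × Bool)) :
    links (a :: b :: L) = (a.2.1, b.1) :: links (b :: L) := rfl

theorem links_single (a : X × X × ℕ × Bool) : links [a] = [] := rfl

/-- Cutting a path into its pieces on which a monotone function is constant. -/
theorem cut {ρ : X → ℕ} (c : X → X → ℕ × Bool) (hρ : ∀ a b, R a b → ρ a ≤ ρ b)
    (h : Pth R x z E) : ∃ L : List (X × X × ℕ × Bool),
    (∃ v q, L.head? = some (x, v, q)) ∧ (∃ u q, L.getLast? = some (u, z, q)) ∧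
    L.length + ρ x ≤ ρ z + 1 ∧
    (∀ q ∈ L, q.2.2 = c q.1 q.2.1 ∧ ρ q.1 = ρ q.2.1 ∧
      ∃ E', Pth R q.1 q.2.1 E' ∧ E' ⊆ E) ∧
    ∀ e ∈ links L, R e.1 e.2 ∧ e ∈ E := by
  induction h with
  | single x =>
    refine ⟨[(x, x, c x x)], ⟨x, _, rfl⟩, ⟨x, _, rfl⟩, by simp; omega, ?_, ?_⟩
    · intro q hq
      simp only [List.mem_singleton] at hq
      subst hq
      exact ⟨rfl, rfl, _, Pth.single x, fun _ h => h⟩
    · intro e he
      simp [links_single] at he
  | @cons x y z E h hp ih =>
    obtain ⟨L, ⟨v, q0, hhead⟩, ⟨u, q1, hlast⟩, hlen, hL, hlk⟩ := ih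
    obtain ⟨a, L', rfl⟩ : ∃ a L', L = a :: L' := by
      cases L with
      | nil => simp at hhead
      | cons a L' => exact ⟨a, L', rfl⟩
    have ha : a = (y, v, q0) := by simpa using hhead
    subst ha
    have hxy := hρ _ _ h
    by_cases hxe : ρ x = ρ y
    · refine ⟨(x, v, c x v) :: L', ⟨v, _, rfl⟩, ?_, ?_, ?_, ?_⟩
      · cases L' with
        | nil =>
          simp only [List.getLast?_singleton, Option.some.injEq, Prod.mk.injEq] at hlast
          obtain ⟨_, h2, _⟩ := hlast
          subst h2
          exact ⟨x, _, rfl⟩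
        | cons b L'' =>
          refine ⟨u, q1, ?_⟩
          rw [List.getLast?_cons_cons] at hlast ⊢
          exact hlast
      · simp only [List.length_cons] at hlen ⊢
        omega
      · intro q hq
        rcases List.mem_cons.1 hq with rfl | hq
        · obtain ⟨_, h2, E', h3, h4⟩ := hL (y, v, q0) (by simp)
          refine ⟨rfl, hxe.trans h2, _, Pth.cons h h3, ?_⟩
          intro e he
          rcases List.mem_cons.1 he with rfl | he
          · simp
          · rcases List.mem_cons.1 he with rfl | he
            · simp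
            · simp [h4 he]
        · obtain ⟨h1, h2, E', h3, h4⟩ := hL q (by simp [hq])
          exact ⟨h1, h2, E', h3, fun e he => by simp [h4 he]⟩
      · intro e he
        cases L' with
        | nil => simp [links_single] at he
        | cons b L'' =>
          rw [links_cons_cons] at he
          obtain ⟨h1, h2⟩ := hlk e (by rw [links_cons_cons]; exact he)
          exact ⟨h1, by simp [h2]⟩
    · refine ⟨(x, x, c x x) :: (y, v, q0) :: L', ⟨x, _, rfl⟩, ?_, ?_, ?_, ?_⟩
      · refine ⟨u, q1, ?_⟩
        rw [List.getLast?_cons_cons]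
        exact hlast
      · simp only [List.length_cons] at hlen ⊢
        omega
      · intro q hq
        rcases List.mem_cons.1 hq with rfl | hq
        · exact ⟨rfl, rfl, _, Pth.single x, by intro e he; simp at he; simp [he]⟩
        · obtain ⟨h1, h2, E', h3, h4⟩ := hL q hq
          exact ⟨h1, h2, E', h3, fun e he => by simp [h4 he]⟩
      · intro e he
        rw [links_cons_cons] at he
        rcases List.mem_cons.1 he with rfl | he
        · exact ⟨h, by simp⟩
        · obtain ⟨h1, h2⟩ := hlk e he
          exact ⟨h1, by simp [h2]⟩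

/-- Gluing the pieces. -/
theorem glue (Ep : X × X × ℕ × Bool → List (X × X)) : ∀ (L : List (X × X × ℕ × Bool)) (x z : X)
    (v u : X) (q q' : ℕ × Bool), L.head? = some (x, v, q) → L.getLast? = some (u, z, q') →
    (∀ e ∈ links L, R e.1 e.2) → (∀ q ∈ L, Pth R q.1 q.2.1 (Ep q)) →
    ∃ E, Pth R x z E ∧ ∀ e ∈ E, e ∈ links L ∨ ∃ q ∈ L, e ∈ Ep q
  | [], x, z, v, u, q, q', h, _, _, _ => by simp at h
  | [a], x, z, v, u, q, q', h, h', _, hE => by
    have h1 : a = (x, v, q) := by simpa using h
    have h2 : a = (u, z, q') := by simpa using h'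
    subst h1
    simp only [Prod.mk.injEq] at h2
    obtain ⟨_, h3, _⟩ := h2
    subst h3
    exact ⟨_, hE (x, v, q) (by simp), fun e he => Or.inr ⟨(x, v, q), by simp, he⟩⟩
  | a :: b :: L, x, z, v, u, q, q', h, h', hlk, hE => by
    have h1 : a = (x, v, q) := by simpa using h
    subst h1
    obtain ⟨b1, b2, b3⟩ := b
    obtain ⟨E, hE1, hE2⟩ := glue Ep ((b1, b2, b3) :: L) b1 z b2 u b3 q' rfl
      (by rw [List.getLast?_cons_cons] at h'; exact h')
      (fun e he => hlk e (by rw [links_cons_cons]; simp [he]))
      (fun q hq => hE q (by simp [hq]))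
    have h2 : R v b1 := hlk (v, b1) (by rw [links_cons_cons]; simp)
    refine ⟨_, Pth.append (hE (x, v, q) (by simp)) h2 hE1, ?_⟩
    intro e he
    rw [links_cons_cons]
    rcases List.mem_append.1 he with he | he
    · exact Or.inr ⟨(x, v, q), by simp, he⟩
    · rcases List.mem_cons.1 he with rfl | he
      · exact Or.inl (by simp)
      · rcases hE2 e he with h3 | ⟨q, hq, h3⟩
        · exact Or.inl (by simp [h3])
        · exact Or.inr ⟨q, by simp [hq], h3⟩

end Pool.Agent.H614R2.DPO
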