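import Pool.Agent.H614R2.DPO.Conc
import Pool.Agent.H614R2.DPO.Defs
import Pool.Agent.H671R2.PolyAuto

/-!
# Exact statements of the tasks (stubs)
-/

namespace Pool.Agent.H614R2.DPO

open Relation Pool.Agent.NPC

/-! ### Task G1 (imports: `DPO.Core`) -/

section G1

variable {X : Type} {I : Inst X} {F : List (ℕ × X × X)} {N : ℕ} {T : Fin N → Track X}

theorem good_iff (hI : I.Ok) (hF : ∀ g ∈ F, g.1 < I.k ∧ I.A g.1 g.2.1 g.2.2 = true)
    (hT : ∀ p, (T p).col < I.k ∧ (T p).clk < I.k) (S : Fin N → X) :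
    Good I F T S ↔ Valid I T (fun p => (T p).tgt) ∧
      ReflTransGen (Step I F T) S (fun p => (T p).tgt) := by
  sorry

end G1

/-! ### Task G2 (imports: `DPO.Algo`; takes `good_iff` from G1) -/

section G2

variable {X : Type}

theorem mem_upTo {m : ℕ} {L l : List X} : l ∈ upTo m L ↔ l.length ≤ m ∧ ∀ x ∈ l, x ∈ L := by
  sorry

theorem mem_reachG [DecidableEq X] {R : X → X → Bool} {S : List X} {x y : X} :
    y ∈ reachG R S x ↔ x ∈ S ∧ ReflTransGen (fun a b => R a b = true ∧ b ∈ S) x y := by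
  sorry

theorem gameB_iff [DecidableEq X] {I : Inst X} {F : List (ℕ × X × X)} {B : ℕ}
    {T : List (Track X)} (hI : I.Ok) (hF : ∀ g ∈ F, g.1 < I.k ∧ I.A g.1 g.2.1 g.2.2 = true)
    (hT : ∀ t ∈ T, t.col < I.k ∧ t.clk < I.k ∧ t.fst ∈ I.nodes ∧ t.lst ∈ I.nodes)
    (hB : T.length ≤ B) :
    gameB I B F T = true ↔ Good I F T.get (fun p => (T.get p).src) := by
  sorry

end G2

/-! ### Task P1 (imports: `DPO.Algo`, `H671R2.PolyAuto`) -/

section P1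

theorem poly_solve {α X : Type} [TEnc α] [TEnc X] [DecidableEq X] (k : ℕ)
    {nodes : α → List X} {f : α → ℕ → X → ℕ} {A : α → ℕ → X → X → Bool}
    {S T : α → ℕ → X → Bool} {C : α → X × X → X × X → Bool} (hn : Poly nodes)
    (hf : Poly (fun p : α × ℕ × X => f p.1 p.2.1 p.2.2))
    (hA : Poly (fun p : α × ℕ × X × X => A p.1 p.2.1 p.2.2.1 p.2.2.2))
    (hS : Poly (fun p : α × ℕ × X => S p.1 p.2.1 p.2.2))
    (hT : Poly (fun p : α × ℕ × X => T p.1 p.2.1 p.2.2))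
    (hC : Poly (fun p : α × (X × X) × (X × X) => C p.1 p.2.1 p.2.2)) :
    Poly (fun a => solve ⟨k, nodes a, f a, A a, S a, T a, C a⟩) := by
  sorry

end P1

/-! ### Task P2 (imports: `DPO.Conc`, `H671R2.PolyAuto`; takes `poly_reachG`, `poly_solve`) -/

section P2

theorem poly_mkInst {α : Type} [TEnc α] (k : ℕ) {w : α → ℕ → ℕ → Option ℕ} {n : α → ℕ}
    {fd : α → ℕ → ℕ → ℕ} {s t : α → ℕ → ℕ}
    (hw : Poly (fun p : α × ℕ × ℕ => w p.1 p.2.1 p.2.2)) (hn : UPoly n)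
    (hfd : Poly (fun p : α × ℕ × ℕ => fd p.1 p.2.1 p.2.2))
    (hs : Poly (fun p : α × ℕ => s p.1 p.2)) (ht : Poly (fun p : α × ℕ => t p.1 p.2)) :
    Poly (fun a => solve (mkInst (w a) (n a) k (fd a) (s a) (t a))) := by
  sorry

end P2

/-! ### Task R (imports: `DPO.Conc`) -/

theorem robbins {Z : ℕ → ℕ → Prop} {n : ℕ} (hsymm : ∀ u v, Z u v → Z v u)
    (hirr : ∀ u, ¬ Z u u) (hlt : ∀ u v, Z u v → u < n ∧ v < n) (P : ℕ → ℕ → Prop)
    (hP : ∀ x y, P x y → ReflTransGen Z x y)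
    (hc : ∀ x y x' y' a b, P x y → P x' y' → Cross Z x y a b → ¬ Cross Z x' y' b a) :
    ∃ O : ℕ → ℕ → Prop, (∀ a b, O a b → Z a b) ∧ (∀ a b, O a b → ¬ O b a) ∧
      ∀ x y, P x y → ReflTransGen O x y := by
  sorry

/-! ### Task B (imports: `DPO.Conc`, `H671R2.PolyAuto`) -/

section B

variable {w : ℕ → ℕ → Option ℕ} {n s : ℕ}

theorem bfd_le (hw : WOk w n) (hs : s < n) {v d : ℕ} (h : Wk w s v d) : bfd w n s v ≤ d := by
  sorry

theorem bfd_wk (hw : WOk w n) (hs : s < n) {v d : ℕ} (h : Wk w s v d) :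
    Wk w s v (bfd w n s v) := by
  sorry

theorem bfd_lip (hw : WOk w n) (hs : s < n) {u v c : ℕ} (h : w u v = some c) :
    bfd w n s v ≤ bfd w n s u + c := by
  sorry

theorem poly_bf {α : Type} [TEnc α] {w : α → ℕ → ℕ → Option ℕ} {n s : α → ℕ}
    (hw : Poly (fun p : α × ℕ × ℕ => w p.1 p.2.1 p.2.2)) (hn : UPoly n) (hs : Poly s) :
    Poly (fun a => bf (w a) (n a) (s a)) := by
  sorry

end B

/-! ### Task W (imports: `DPO.Conc`, `DPO.Defs`) -/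

theorem preservable_iff {n k : ℕ} (G : SimpleGraph (Fin n)) (len : Sym2 (Fin n) → ℚ)
    (s t : Fin k → Fin n) (hlen : ∀ e ∈ G.edgeSet, 0 ≤ len e) (w : ℕ → ℕ → Option ℕ) (D : ℚ)
    (hD : 0 < D)
    (hw : ∀ u v : Fin n, G.Adj u v → ∃ c : ℕ, w u v = some c ∧ (c : ℚ) = len s(u, v) * D)
    (hw' : ∀ u v : ℕ, w u v ≠ none → ∃ (hu : u < n) (hv : v < n), G.Adj ⟨u, hu⟩ ⟨v, hv⟩)
    (fd : ℕ → ℕ → ℕ) (h1 : ∀ (i : Fin k) (v d : ℕ), Wk w (s i) v d → fd i v ≤ d)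
    (h2 : ∀ (i : Fin k) (v d : ℕ), Wk w (s i) v d → Wk w (s i) v (fd i v)) (s' t' : ℕ → ℕ)
    (hs' : ∀ i : Fin k, s' i = s i) (ht' : ∀ i : Fin k, (∃ d, Wk w (s i) (t i) d) → t' i = t i)
    (ht'' : ∀ i : Fin k, (¬ ∃ d, Wk w (s i) (t i) d) → t' i = s i) :
    (∃ O, IsOrientation G O ∧ ∀ i, dist O len (s i) (t i) = dist G.Adj len (s i) (t i)) ↔
      Pres w k fd s' t' := by
  sorry

/-! ### Task D (imports: `DPO.Conc`; takes `mem_reachG` from G2 and `robbins` from R) -/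

section D

variable {w : ℕ → ℕ → Option ℕ} {n k : ℕ} {fd : ℕ → ℕ → ℕ} {s t : ℕ → ℕ}

theorem mkInst_ok (hw : WOk w n) (hfd : ∀ i u v c, w u v = some c → fd i v ≤ fd i u + c) :
    (mkInst w n k fd s t).Ok := by
  sorry

theorem mkInst_solvable (hw : WOk w n)
    (hfd : ∀ i u v c, w u v = some c → fd i v ≤ fd i u + c) (hs : ∀ i < k, s i < n)
    (ht : ∀ i < k, t i < n) : (mkInst w n k fd s t).Solvable ↔ Pres w k fd s t := by
  sorry

end D

end Pool.Agent.H614R2.DPO
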