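import Pool.Agent.H614R2.DPO.Pair

/-!
# Ties between the height functions, words, and the rank
-/

namespace Pool.Agent.H614R2.DPO

open Relation

variable {X : Type} (I : Inst X) (c g : ℕ → ℕ → ℤ)

/-- `(l, ε, κ)` stands for `f l = ε f i + κ`; the effect of one more tie -/
def evs (s : ℕ × ℤ × ℤ) (t : ℕ × Bool) : ℕ × ℤ × ℤ :=
  if t.2 = true then (t.1, -s.2.1, c s.1 t.1 - s.2.2) else (t.1, s.2.1, s.2.2 - g s.1 t.1)

/-- the composition of the ties of a word -/
def evw (i : ℕ) (w : List (ℕ × Bool)) : ℕ × ℤ × ℤ := w.foldl (evs c g) (i, 1, 0)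

/-- the function which vanishes where the composition of the ties holds -/
def psi (i : ℕ) (w : List (ℕ × Bool)) (x : X) : ℤ :=
  I.f i x - (evw c g i w).2.1 * (I.f (evw c g i w).1 x - (evw c g i w).2.2)

/-- the rank function -/
def rho (i : ℕ) (x : X) : ℕ := ((wordsK I.k).map (fun w => rk (psi I c g i w x))).sum

/-- all words have the same rank at `x` and `y` -/
def Same (i : ℕ) (x y : X) : Prop :=
  ∀ w ∈ wordsK I.k, rk (psi I c g i w x) = rk (psi I c g i w y)

/-- a tie between `f a` and `f b` at `x` -/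
def tie (x : X) (a b : ℕ) : Prop :=
  a < I.k ∧ b < I.k ∧ ((I.f a x : ℤ) + I.f b x = c a b ∨ (I.f a x : ℤ) - I.f b x = g a b)

/-- `f l` is tied to `f i` at `x` by a chain of ties -/
def Con (x : X) (i l : ℕ) : Prop := ReflTransGen (tie I c g x) i l

/-- the clock -/
noncomputable def clock (x : X) (i : ℕ) : ℕ := sInf {l | Con I c g x i l}

variable {I c g}

theorem mem_upTo' {Y : Type} {m : ℕ} {L l : List Y} :
    l ∈ upTo m L ↔ l.length ≤ m ∧ ∀ x ∈ l, x ∈ L := by
  induction m generalizing l with
  | zero =>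
    rw [upTo, List.mem_singleton]
    constructor
    · rintro rfl
      simp
    · rintro ⟨h, _⟩
      exact List.length_eq_zero_iff.1 (by omega)
  | succ m ih =>
    rw [upTo, List.mem_cons]
    constructor
    · rintro (rfl | h)
      · simp
      · obtain ⟨x, hx, h⟩ := List.mem_flatMap.1 h
        obtain ⟨l', hl', rfl⟩ := List.mem_map.1 h
        obtain ⟨h1, h2⟩ := ih.1 hl'
        refine ⟨by simp; omega, ?_⟩
        intro y hy
        rcases List.mem_cons.1 hy with rfl | hy
        · exact hx
        · exact h2 y hy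
    · rintro ⟨h1, h2⟩
      cases l with
      | nil => exact Or.inl rfl
      | cons x l =>
        right
        refine List.mem_flatMap.2 ⟨x, h2 x (by simp), List.mem_map.2 ⟨l, ih.2 ⟨?_, ?_⟩, rfl⟩⟩
        · simp only [List.length_cons] at h1
          omega
        · intro y hy
          exact h2 y (by simp [hy])

theorem mem_steps {k : ℕ} {s : ℕ × Bool} : s ∈ steps k ↔ s.1 < k := by
  obtain ⟨m, b⟩ := s
  simp only [steps, List.mem_flatMap, List.mem_range, List.mem_cons, Prod.mk.injEq,
    List.not_mem_nil, or_false]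
  constructor
  · rintro ⟨a, ha, h | h⟩
    · omega
    · omega
  · intro h
    refine ⟨m, h, ?_⟩
    cases b <;> simp

theorem mem_wordsK {k : ℕ} {w : List (ℕ × Bool)} :
    w ∈ wordsK k ↔ w.length ≤ k ∧ ∀ s ∈ w, s.1 < k := by
  rw [wordsK, mem_upTo']
  simp only [mem_steps]

theorem evw_concat (i : ℕ) (w : List (ℕ × Bool)) (s : ℕ × Bool) :
    evw c g i (w ++ [s]) = evs c g (evw c g i w) s := by
  simp [evw]

theorem evw_eps (i : ℕ) (w : List (ℕ × Bool)) :
    (evw c g i w).2.1 = 1 ∨ (evw c g i w).2.1 = -1 := by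
  induction w using List.reverseRecOn with
  | nil => exact Or.inl rfl
  | append_singleton w s ih =>
    rw [evw_concat, evs]
    split_ifs
    · rcases ih with h | h <;> simp [h]
    · exact ih

theorem evw_lt {k i : ℕ} (hi : i < k) {w : List (ℕ × Bool)} (hw : ∀ s ∈ w, s.1 < k) :
    (evw c g i w).1 < k := by
  induction w using List.reverseRecOn with
  | nil => exact hi
  | append_singleton w s ih =>
    rw [evw_concat, evs]
    split_ifs
    · exact hw s (by simp)
    · exact hw s (by simp)

theorem psi_zero_iff (i : ℕ) (w : List (ℕ × Bool)) (x : X) :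
    psi I c g i w x = 0 ↔
      (I.f (evw c g i w).1 x : ℤ) = (evw c g i w).2.1 * I.f i x + (evw c g i w).2.2 := by
  unfold psi
  rcases evw_eps (c := c) (g := g) i w with h | h <;> rw [h] <;> constructor <;> intro h <;> omega

theorem psi_mono (hI : I.Ok) {i : ℕ} (hi : i < I.k) {w : List (ℕ × Bool)}
    (hw : w ∈ wordsK I.k) {x y : X} (h : ReflTransGen (fun x y => I.A i x y = true) x y) :
    psi I c g i w x ≤ psi I c g i w y := by
  have hl := evw_lt (c := c) (g := g) hi (mem_wordsK.1 hw).2
  have h1 := rtg_up hI hi hl h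
  unfold psi
  rcases evw_eps (c := c) (g := g) i w with h | h <;> rw [h] <;> omega

theorem sum_mono {Y : Type} (a b : Y → ℕ) (L : List Y) (h : ∀ w ∈ L, a w ≤ b w) :
    (L.map a).sum ≤ (L.map b).sum := by
  induction L with
  | nil => simp
  | cons w L ih =>
    have h1 := h w (by simp)
    have h2 := ih fun w hw => h w (by simp [hw])
    simp only [List.map_cons, List.sum_cons]
    omega

theorem sum_eq {Y : Type} (a b : Y → ℕ) (L : List Y) (h : ∀ w ∈ L, a w ≤ b w)
    (he : (L.map a).sum = (L.map b).sum) : ∀ w ∈ L, a w = b w := by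
  induction L with
  | nil => simp
  | cons w L ih =>
    have h1 := h w (by simp)
    have h2 := sum_mono a b L fun w hw => h w (by simp [hw])
    simp only [List.map_cons, List.sum_cons] at he
    intro v hv
    rcases List.mem_cons.1 hv with rfl | hv
    · omega
    · exact ih (fun w hw => h w (by simp [hw])) (by omega) v hv

theorem rho_mono (hI : I.Ok) {i : ℕ} (hi : i < I.k) {x y : X}
    (h : ReflTransGen (fun x y => I.A i x y = true) x y) : rho I c g i x ≤ rho I c g i y :=
  sum_mono _ _ _ fun _ hw => rk_mono (psi_mono hI hi hw h)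

theorem rho_le (i : ℕ) (x : X) : rho I c g i x ≤ 2 * (wordsK I.k).length := by
  unfold rho
  generalize wordsK I.k = L
  induction L with
  | nil => simp
  | cons w L ih =>
    have := rk_le (psi I c g i w x)
    simp only [List.map_cons, List.sum_cons, List.length_cons]
    omega

theorem same_of_rho (hI : I.Ok) {i : ℕ} (hi : i < I.k) {x y : X}
    (h : ReflTransGen (fun x y => I.A i x y = true) x y)
    (he : rho I c g i x = rho I c g i y) : Same I c g i x y :=
  sum_eq _ _ _ (fun _ hw => rk_mono (psi_mono hI hi hw h)) he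

theorem Same.symm {i : ℕ} {x y : X} (h : Same I c g i x y) : Same I c g i y x :=
  fun w hw => (h w hw).symm

/-- all the prefixes of the word hold at `x` -/
def HoldsW (I : Inst X) (c g : ℕ → ℕ → ℤ) (x : X) (i : ℕ) (w : List (ℕ × Bool)) : Prop :=
  ∀ w', w' <+: w → psi I c g i w' x = 0

/-- the graph of the ties -/
def gam (I : Inst X) (c g : ℕ → ℕ → ℤ) (x : X) : SimpleGraph ℕ where
  Adj a b := a ≠ b ∧ (tie I c g x a b ∨ tie I c g x b a)
  symm := ⟨fun _ _ h => ⟨h.1.symm, h.2.symm⟩⟩
  loopless := ⟨fun _ h => h.1 rfl⟩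

theorem tie_symm (hc : ∀ a b, c a b = c b a) (hg : ∀ a b, g a b = - g b a) {x : X} {a b : ℕ}
    (h : tie I c g x a b) : tie I c g x b a := by
  obtain ⟨h1, h2, h3⟩ := h
  refine ⟨h2, h1, ?_⟩
  rw [hc b a, hg b a]
  omega

theorem word_of_walk (hc : ∀ a b, c a b = c b a) (hg : ∀ a b, g a b = - g b a) {x : X}
    (i : ℕ) {a l : ℕ} (p : (gam I c g x).Walk a l) : ∀ v : List (ℕ × Bool),
    (evw c g i v).1 = a → HoldsW I c g x i v → ∃ w : List (ℕ × Bool), w.length = p.length ∧
      (∀ s ∈ w, s.1 < I.k) ∧ (evw c g i (v ++ w)).1 = l ∧ HoldsW I c g x i (v ++ w) := by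
  induction p with
  | nil =>
    intro v hv hh
    exact ⟨[], rfl, by simp, by simpa using hv, by simpa using hh⟩
  | @cons a b l hab p ih =>
    intro v hv hh
    have ht : tie I c g x a b := hab.2.elim id (fun h => tie_symm hc hg h)
    obtain ⟨h1, h2, h3⟩ := ht
    have h0 := (psi_zero_iff i v x).1 (hh v (List.prefix_rfl))
    rw [hv] at h0
    obtain ⟨t, ht⟩ : ∃ t : Bool, psi I c g i (v ++ [(b, t)]) x = 0 := by
      rcases h3 with h3 | h3
      · refine ⟨true, (psi_zero_iff _ _ _).2 ?_⟩
        rw [evw_concat]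
        simp only [evs, if_true, hv]
        linarith
      · refine ⟨false, (psi_zero_iff _ _ _).2 ?_⟩
        rw [evw_concat]
        simp only [evs, hv]
        rw [if_neg (by simp)]
        dsimp only
        linarith
    obtain ⟨w, hw1, hw2, hw3, hw4⟩ := ih (v ++ [(b, t)]) (by
      rw [evw_concat, evs]
      split_ifs <;> rfl) (by
      intro w' hw'
      rcases List.prefix_concat_iff.1 hw' with h | h
      · rw [h]; exact ht
      · exact hh w' h)
    refine ⟨(b, t) :: w, by simp [hw1], ?_, ?_, ?_⟩
    · intro s hs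
      rcases List.mem_cons.1 hs with rfl | hs
      · exact h2
      · exact hw2 s hs
    · simpa using hw3
    · simpa using hw4

theorem con_word (hc : ∀ a b, c a b = c b a) (hg : ∀ a b, g a b = - g b a) {x : X} {i l : ℕ}
    (hi : i < I.k) (h : Con I c g x i l) : ∃ w ∈ wordsK I.k, (evw c g i w).1 = l ∧
      HoldsW I c g x i w := by
  classical
  have hr : (gam I c g x).Reachable i l := by
    induction h with
    | refl => exact SimpleGraph.Reachable.refl _
    | @tail b d _ h ih =>
      by_cases hbd : b = d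
      · rw [← hbd]; exact ih
      · exact ih.trans (SimpleGraph.Adj.reachable (show (gam I c g x).Adj b d from
          ⟨hbd, Or.inl h⟩))
  obtain ⟨p0⟩ := hr
  have hp := p0.toPath.2
  set p := p0.toPath.1 with hpdef
  have hlen : p.length ≤ I.k := by
    have h1 : p.support.Nodup := hp.support_nodup
    have h2 : ∀ z ∈ p.support, z ∈ List.range I.k := by
      have : ∀ {a b : ℕ} (q : (gam I c g x).Walk a b), a < I.k → ∀ z ∈ q.support, z < I.k := by
        intro a b q
        induction q with
        | nil =>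
          intro ha z hz
          rw [SimpleGraph.Walk.support_nil, List.mem_singleton] at hz
          rw [hz]; exact ha
        | cons h q ih =>
          intro ha z hz
          rw [SimpleGraph.Walk.support_cons, List.mem_cons] at hz
          rcases hz with rfl | hz
          · exact ha
          · exact ih (h.2.elim (fun h => h.2.1) (fun h => h.1)) z hz
      intro z hz
      exact List.mem_range.2 (this p hi z hz)
    have h3 : p.support.length ≤ (List.range I.k).length := by
      have : p.support ⊆ List.range I.k := h2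
      exact (List.subperm_of_subset h1 this).length_le
    rw [SimpleGraph.Walk.length_support, List.length_range] at h3
    omega
  obtain ⟨w, hw1, hw2, hw3, hw4⟩ := word_of_walk hc hg i p [] rfl (by
    intro w' hw'
    rw [List.prefix_nil] at hw'
    rw [hw', psi_zero_iff]
    simp [evw])
  refine ⟨w, mem_wordsK.2 ⟨by omega, hw2⟩, by simpa using hw3, by simpa using hw4⟩

theorem con_of_word {x : X} {i : ℕ} (hi : i < I.k) {w : List (ℕ × Bool)}
    (hw : ∀ s ∈ w, s.1 < I.k) (hh : HoldsW I c g x i w) : Con I c g x i (evw c g i w).1 := by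
  induction w using List.reverseRecOn with
  | nil => exact ReflTransGen.refl
  | append_singleton w s ih =>
    have h1 : Con I c g x i (evw c g i w).1 := ih (fun s hs => hw s (by simp [hs]))
      (fun w' hw' => hh w' (hw'.trans (List.prefix_append _ _)))
    have h2 := (psi_zero_iff i w x).1 (hh w (List.prefix_append _ _))
    have h3 := (psi_zero_iff i (w ++ [s]) x).1 (hh _ List.prefix_rfl)
    have h4 : (evw c g i w).1 < I.k := evw_lt hi fun s hs => hw s (by simp [hs])
    have h5 : s.1 < I.k := hw s (by simp)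
    refine ReflTransGen.tail h1 ?_
    rw [evw_concat] at h3 ⊢
    unfold evs at h3 ⊢
    split_ifs at h3 ⊢ with hs
    · refine ⟨h4, h5, Or.inl ?_⟩
      dsimp only at h3 ⊢
      linarith
    · refine ⟨h4, h5, Or.inr ?_⟩
      dsimp only at h3 ⊢
      linarith

theorem same_prefix {i : ℕ} {x y : X} (h : Same I c g i x y) {w : List (ℕ × Bool)}
    (hw : w ∈ wordsK I.k) (hh : HoldsW I c g x i w) : HoldsW I c g y i w := by
  intro w' hw'
  have h1 : w' ∈ wordsK I.k := by
    obtain ⟨h2, h3⟩ := mem_wordsK.1 hw
    exact mem_wordsK.2 ⟨(hw'.length_le).trans h2, fun s hs => h3 s (hw'.subset hs)⟩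
  have h2 := h w' h1
  have h3 := hh w' hw'
  exact (rk_eq h2).2.1 h3

theorem con_same (hc : ∀ a b, c a b = c b a) (hg : ∀ a b, g a b = - g b a) {i : ℕ}
    (hi : i < I.k) {x y : X} (h : Same I c g i x y) {l : ℕ} (hl : Con I c g x i l) :
    Con I c g y i l := by
  obtain ⟨w, hw, hw1, hw2⟩ := con_word hc hg hi hl
  rw [← hw1]
  exact con_of_word hi (mem_wordsK.1 hw).2 (same_prefix h hw hw2)

theorem con_symm (hc : ∀ a b, c a b = c b a) (hg : ∀ a b, g a b = - g b a) {x : X} {i l : ℕ}
    (h : Con I c g x i l) : Con I c g x l i := by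
  induction h with
  | refl => exact ReflTransGen.refl
  | tail _ h ih => exact ReflTransGen.head (tie_symm hc hg h) ih

theorem con_f {x y : X} (hf : ∀ l < I.k, I.f l x = I.f l y) {i l : ℕ} (h : Con I c g x i l) :
    Con I c g y i l := by
  induction h with
  | refl => exact ReflTransGen.refl
  | tail _ h ih =>
    obtain ⟨h1, h2, h3⟩ := h
    refine ih.tail ⟨h1, h2, ?_⟩
    rw [← hf _ h1, ← hf _ h2]
    exact h3

/-- The clocks of two pieces joined by a tie at a common point are equal. -/
theorem clock_eq (hc : ∀ a b, c a b = c b a) (hg : ∀ a b, g a b = - g b a) {i j : ℕ}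
    (hi : i < I.k) (hj : j < I.k) {u x y u' : X} (h1 : Same I c g i u x)
    (h2 : Same I c g j u' y) (hf : ∀ l < I.k, I.f l x = I.f l y) (ht : tie I c g x i j) :
    clock I c g u i = clock I c g u' j := by
  unfold clock
  congr 1
  ext l
  simp only [Set.mem_setOf_eq]
  constructor
  · intro h
    have h3 := con_same hc hg hi h1 h
    have h4 : Con I c g x j l := ReflTransGen.head (tie_symm hc hg ht) h3
    exact con_same hc hg hj h2.symm (con_f hf h4)
  · intro h
    have h3 := con_same hc hg hj h2 h
    have h4 : Con I c g x j l := con_f (fun l hl => (hf l hl).symm) h3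
    exact con_same hc hg hi h1.symm (ReflTransGen.head ht h4)

theorem clock_con (x : X) (i : ℕ) : Con I c g x i (clock I c g x i) :=
  Nat.sInf_mem (s := {l | Con I c g x i l}) ⟨i, ReflTransGen.refl⟩

/-- The clock runs at full speed, forwards or backwards. -/
theorem clock_speed (hc : ∀ a b, c a b = c b a) (hg : ∀ a b, g a b = - g b a) {i : ℕ}
    (hi : i < I.k) (u : X) : clock I c g u i < I.k ∧ ∃ ε κ : ℤ, (ε = 1 ∨ ε = -1) ∧
      ∀ x, Same I c g i u x → (I.f (clock I c g u i) x : ℤ) = ε * I.f i x + κ := by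
  obtain ⟨w, hw, hw1, hw2⟩ := con_word hc hg hi (clock_con (I := I) (c := c) (g := g) u i)
  refine ⟨?_, (evw c g i w).2.1, (evw c g i w).2.2, evw_eps i w, ?_⟩
  · rw [← hw1]
    exact evw_lt hi (mem_wordsK.1 hw).2
  · intro x hx
    have h1 := same_prefix hx hw hw2 w List.prefix_rfl
    rw [psi_zero_iff, hw1] at h1
    exact h1

end Pool.Agent.H614R2.DPO
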